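import Mathlib

set_option autoImplicit false

open Finset

namespace Pool.Agent.Helper42.Pis

/-- The discrete cube. -/
abbrev Q (n : ℕ) := Fin n → Bool

lemma sum_cons {n : ℕ} (F : Q (n+1) → ℝ) :
    ∑ e, F e = ∑ b : Bool, ∑ e : Q n, F (Fin.cons b e) := by
  rw [← (Fin.consEquiv (fun _ : Fin (n+1) => Bool)).sum_comp F, Fintype.sum_prod_type]
  rfl

/-- Uniform average on the cube. -/
noncomputable def avg {n : ℕ} (f : Q n → ℝ) : ℝ := (∑ e, f e) / 2 ^ n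

lemma avg_cons {n : ℕ} (f : Q (n+1) → ℝ) :
    avg f = (avg (fun e : Q n => f (Fin.cons true e)) + avg (fun e : Q n => f (Fin.cons false e))) / 2 := by
  unfold avg
  rw [sum_cons]
  simp only [Fintype.sum_bool]
  rw [pow_succ]
  ring

lemma avg_mono {n : ℕ} {f g : Q n → ℝ} (h : ∀ e, f e ≤ g e) : avg f ≤ avg g := by
  unfold avg
  gcongr with e
  exact h e

lemma avg_nonneg {n : ℕ} {f : Q n → ℝ} (h : ∀ e, 0 ≤ f e) : 0 ≤ avg f := by
  unfold avg
  have : 0 ≤ ∑ e, f e := Finset.sum_nonneg (fun e _ => h e)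
  positivity

lemma avg_const {n : ℕ} (c : ℝ) : avg (fun _ : Q n => c) = c := by
  unfold avg
  simp

/-- Bernoulli weight. -/
noncomputable def wt (β : ℝ) (b : Bool) : ℝ := if b then β else 1 - β

/-- Product Bernoulli weight. -/
noncomputable def W (β : ℝ) {n : ℕ} (I : Q n) : ℝ := ∏ i, wt β (I i)

lemma wt_nonneg {β : ℝ} (h0 : 0 ≤ β) (h1 : β ≤ 1) (b : Bool) : 0 ≤ wt β b := by
  unfold wt; split_ifs <;> linarith

lemma W_nonneg {β : ℝ} (h0 : 0 ≤ β) (h1 : β ≤ 1) {n : ℕ} (I : Q n) : 0 ≤ W β I :=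
  Finset.prod_nonneg (fun _ _ => wt_nonneg h0 h1 _)

lemma W_cons (β : ℝ) {n : ℕ} (b : Bool) (I : Q n) :
    W β (Fin.cons b I : Q (n+1)) = wt β b * W β I := by
  unfold W
  rw [Fin.prod_univ_succ]
  simp

lemma sum_W (β : ℝ) {n : ℕ} : ∑ I : Q n, W β I = 1 := by
  induction n with
  | zero => simp [W]
  | succ n ih =>
    rw [sum_cons]
    simp only [W_cons, ← Finset.mul_sum, ih, Fintype.sum_bool, wt]
    simp

/-- two point facts -/
lemma even_odd (x : ℝ) (hx : |x| ≤ 1) (r : ℕ) :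
    1 + (r : ℝ) * (r - 1) / 2 * x ^ 2 ≤ ((1 + x) ^ r + (1 - x) ^ r) / 2 ∧
    (r : ℝ) * x ^ 2 ≤ x * (((1 + x) ^ r - (1 - x) ^ r) / 2) := by
  induction r with
  | zero => simp
  | succ r ih =>
    obtain ⟨h1, h2⟩ := ih
    have hx2 : 0 ≤ x ^ 2 := sq_nonneg x
    have hr : (0 : ℝ) ≤ (r : ℝ) := Nat.cast_nonneg r
    have h3 : (1 : ℝ) ≤ ((1 + x) ^ r + (1 - x) ^ r) / 2 := by
      refine le_trans ?_ h1
      rcases Nat.eq_zero_or_pos r with h | h
      · subst h; simp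
      · have : (1 : ℝ) ≤ r := by exact_mod_cast h
        have : 0 ≤ (r : ℝ) * (r - 1) / 2 * x ^ 2 := by
          have : 0 ≤ (r : ℝ) - 1 := by linarith
          positivity
        linarith
    constructor
    · have e1 : ((1 + x) ^ (r+1) + (1 - x) ^ (r+1)) / 2 =
          ((1 + x) ^ r + (1 - x) ^ r) / 2 + x * (((1 + x) ^ r - (1 - x) ^ r) / 2) := by ring
      rw [e1]
      push_cast
      nlinarith
    · have e2 : x * (((1 + x) ^ (r+1) - (1 - x) ^ (r+1)) / 2) =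
          x * (((1 + x) ^ r - (1 - x) ^ r) / 2) + x ^ 2 * (((1 + x) ^ r + (1 - x) ^ r) / 2) := by
        ring
      rw [e2]
      push_cast
      nlinarith

lemma claim_one (r : ℕ) (hr : 1 ≤ r) (ρ : ℝ) (h0 : 0 ≤ ρ) (hρ : ρ ≤ 1 - 1 / (r : ℝ))
    (a b : ℝ) (ha : 0 ≤ a) (hb : 0 ≤ b) :
    (((a + b) / 2) ^ r) ^ 2 ≤ ((a ^ r + b ^ r) / 2) ^ 2 - ρ * ((a ^ r - b ^ r) / 2) ^ 2 := by
  have hr' : (1 : ℝ) ≤ r := by exact_mod_cast hr
  have hrpos : (0 : ℝ) < r := by linarith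
  rcases eq_or_lt_of_le (show 0 ≤ (a + b) / 2 by positivity) with hs | hs
  · have ha0 : a = 0 := by linarith
    have hb0 : b = 0 := by linarith
    subst ha0; subst hb0
    have : r ≠ 0 := by omega
    simp [this]
  · set s := (a + b) / 2 with hsdef
    set x := (a - b) / (a + b) with hxdef
    have hab : 0 < a + b := by linarith
    have hx : |x| ≤ 1 := by
      rw [hxdef, abs_div, abs_of_pos hab, div_le_one hab, abs_le]
      constructor <;> linarith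
    have ea : a = s * (1 + x) := by
      rw [hsdef, hxdef]; field_simp; ring
    have eb : b = s * (1 - x) := by
      rw [hsdef, hxdef]; field_simp; ring
    obtain ⟨h1, -⟩ := even_odd x hx r
    set E := ((1 + x) ^ r + (1 - x) ^ r) / 2 with hE
    set O := ((1 + x) ^ r - (1 - x) ^ r) / 2 with hO
    have hEa : (a ^ r + b ^ r) / 2 = s ^ r * E := by
      rw [ea, eb, mul_pow, mul_pow, hE]; ring
    have hOa : (a ^ r - b ^ r) / 2 = s ^ r * O := by
      rw [ea, eb, mul_pow, mul_pow, hO]; ring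
    rw [hEa, hOa]
    have hEO : E ^ 2 - O ^ 2 = (1 - x ^ 2) ^ r := by
      have : (1 - x ^ 2) = (1 + x) * (1 - x) := by ring
      rw [this, mul_pow, hE, hO]; ring
    have hx2 : x ^ 2 ≤ 1 := by
      have := abs_le.mp hx
      nlinarith
    have hbern : 1 - (r : ℝ) * x ^ 2 ≤ (1 - x ^ 2) ^ r := by
      have := one_add_mul_le_pow (a := -(x^2)) (by linarith) r
      calc 1 - (r : ℝ) * x ^ 2 = 1 + r * (-(x^2)) := by ring
        _ ≤ (1 + -(x^2)) ^ r := this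
        _ = (1 - x ^ 2) ^ r := by ring
    have hO2 : O ^ 2 = E ^ 2 - (1 - x ^ 2) ^ r := by linarith
    have hxr : 0 ≤ (1 - x ^ 2) ^ r := pow_nonneg (by linarith) r
    have hq : 0 ≤ (r : ℝ) * (r - 1) / 2 * x ^ 2 := by
      have : 0 ≤ (r : ℝ) - 1 := by linarith
      positivity
    have hE2 : 1 + (r : ℝ) * (r - 1) * x ^ 2 ≤ E ^ 2 := by
      nlinarith [sq_nonneg ((r : ℝ) * (r - 1) / 2 * x ^ 2)]
    have hmain : 1 ≤ E ^ 2 - ρ * O ^ 2 := by
      have hO2nn : 0 ≤ O ^ 2 := sq_nonneg _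
      have h5 : ρ * O ^ 2 ≤ (1 - 1 / (r:ℝ)) * O ^ 2 := mul_le_mul_of_nonneg_right hρ hO2nn
      have h6 : (1 : ℝ) ≤ E ^ 2 - (1 - 1 / (r:ℝ)) * O ^ 2 := by
        rw [hO2]
        have h7 : E ^ 2 - (1 - 1 / (r:ℝ)) * (E ^ 2 - (1 - x ^ 2) ^ r)
            = (1 / (r:ℝ)) * E ^ 2 + (1 - 1 / (r:ℝ)) * (1 - x ^ 2) ^ r := by ring
        rw [h7]
        have h8 : 0 ≤ 1 - 1 / (r:ℝ) := by
          rw [sub_nonneg, div_le_one hrpos]; exact hr'
        have h9 : (1 / (r:ℝ)) * (1 + (r : ℝ) * (r - 1) * x ^ 2) + (1 - 1 / (r:ℝ)) * (1 - (r : ℝ) * x ^ 2) = 1 := by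
          field_simp; ring
        have h10 : (1 / (r:ℝ)) * (1 + (r : ℝ) * (r - 1) * x ^ 2) ≤ (1 / (r:ℝ)) * E ^ 2 :=
          mul_le_mul_of_nonneg_left hE2 (by positivity)
        have h11 : (1 - 1 / (r:ℝ)) * (1 - (r : ℝ) * x ^ 2) ≤ (1 - 1 / (r:ℝ)) * (1 - x ^ 2) ^ r :=
          mul_le_mul_of_nonneg_left hbern h8
        linarith
      linarith
    have : (s ^ r) ^ 2 * 1 ≤ (s ^ r) ^ 2 * (E ^ 2 - ρ * O ^ 2) :=
      mul_le_mul_of_nonneg_left hmain (sq_nonneg _)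
    nlinarith

lemma two_point (r : ℕ) (hr : 1 ≤ r) (β : ℝ) (hβ : 1 / (2 * (r : ℝ)) ≤ β) (hβ' : β ≤ 1 / 2)
    (a b c d : ℝ) (ha : 0 ≤ a) (hb : 0 ≤ b) (hc : 0 ≤ c) (hd : 0 ≤ d) :
    ((a + b) / 2) ^ r * ((c + d) / 2) ^ r ≤
      (1 - β) * ((a ^ r * c ^ r + b ^ r * d ^ r) / 2) + β * ((a ^ r * d ^ r + b ^ r * c ^ r) / 2) := by
  have hr' : (1 : ℝ) ≤ r := by exact_mod_cast hr
  have hrpos : (0 : ℝ) < r := by linarith
  set ρ := 1 - 2 * β with hρ
  have h0 : 0 ≤ ρ := by linarith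
  have h1 : ρ ≤ 1 - 1 / (r : ℝ) := by
    have : 1 / (r : ℝ) = 2 * (1 / (2 * (r : ℝ))) := by field_simp
    rw [hρ, this]; linarith
  have hA := claim_one r hr ρ h0 h1 a b ha hb
  have hB := claim_one r hr ρ h0 h1 c d hc hd
  set E := (a ^ r + b ^ r) / 2 with hE
  set O := (a ^ r - b ^ r) / 2 with hO
  set E' := (c ^ r + d ^ r) / 2 with hE'
  set O' := (c ^ r - d ^ r) / 2 with hO'
  have e : (1 - β) * ((a ^ r * c ^ r + b ^ r * d ^ r) / 2) + β * ((a ^ r * d ^ r + b ^ r * c ^ r) / 2)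
      = E * E' + ρ * (O * O') := by
    rw [hE, hE', hO, hO', hρ]; ring
  rw [e]
  have har : 0 ≤ a ^ r := pow_nonneg ha r
  have hbr : 0 ≤ b ^ r := pow_nonneg hb r
  have hcr : 0 ≤ c ^ r := pow_nonneg hc r
  have hdr : 0 ≤ d ^ r := pow_nonneg hd r
  have hnn : 0 ≤ E * E' + ρ * (O * O') := by
    rw [← e]
    have : 0 ≤ 1 - β := by linarith
    have hβ0 : 0 ≤ β := le_trans (by positivity) hβ
    positivity
  have hsq : (((a + b) / 2) ^ r * ((c + d) / 2) ^ r) ^ 2 ≤ (E * E' + ρ * (O * O')) ^ 2 := by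
    have h2 : (E * E' + ρ * (O * O')) ^ 2 = (E ^ 2 - ρ * O ^ 2) * (E' ^ 2 - ρ * O' ^ 2)
        + ρ * (E * O' + O * E') ^ 2 := by ring
    rw [h2, mul_pow]
    have h3 : (((a + b) / 2) ^ r) ^ 2 * (((c + d) / 2) ^ r) ^ 2 ≤
        (E ^ 2 - ρ * O ^ 2) * (E' ^ 2 - ρ * O' ^ 2) :=
      mul_le_mul hA hB (sq_nonneg _) (le_trans (sq_nonneg _) hA)
    have h4 : 0 ≤ ρ * (E * O' + O * E') ^ 2 := by positivity
    linarith
  exact le_of_sq_le_sq' hsq hnn
where
  le_of_sq_le_sq' {u v : ℝ} (h : u ^ 2 ≤ v ^ 2) (hv : 0 ≤ v) : u ≤ v := by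
    exact le_trans (le_abs_self u) (abs_le_of_sq_le_sq h hv)

/-- coordinatewise exclusive or -/
def fl {n : ℕ} (e I : Q n) : Q n := fun i => xor (e i) (I i)

lemma fl_cons {n : ℕ} (b c : Bool) (e I : Q n) :
    fl (Fin.cons b e : Q (n+1)) (Fin.cons c I : Q (n+1)) = Fin.cons (xor b c) (fl e I) := by
  funext i
  refine Fin.cases ?_ (fun j => ?_) i
  · simp [fl]
  · simp [fl]

/-- Reverse hypercontractivity on the cube. -/
theorem revhyp (r : ℕ) (hr : 1 ≤ r) (β : ℝ) (hβ : 1 / (2 * (r : ℝ)) ≤ β) (hβ' : β ≤ 1 / 2) (n : ℕ) :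
    ∀ (φ ψ : Q n → ℝ), (∀ e, 0 ≤ φ e) → (∀ e, 0 ≤ ψ e) →
    (avg φ) ^ r * (avg ψ) ^ r ≤ ∑ I : Q n, W β I * avg (fun e => φ e ^ r * ψ (fl e I) ^ r) := by
  have hrpos : (0 : ℝ) < r := by exact_mod_cast hr
  have hβ0 : 0 ≤ β := le_trans (by positivity) hβ
  induction n with
  | zero =>
    intro φ ψ hφ hψ
    simp only [avg, W, Finset.univ_unique, Finset.sum_singleton, pow_zero, div_one,
      Finset.univ_eq_empty, Finset.prod_empty, one_mul]
    refine le_of_eq ?_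
    congr 1
    congr 1
    congr 1
    exact Subsingleton.elim _ _
  | succ n ih =>
    intro φ ψ hφ hψ
    rw [avg_cons φ, avg_cons ψ, sum_cons]
    simp only [Fintype.sum_bool, W_cons]
    set Φt := avg (fun e : Q n => φ (Fin.cons true e))
    set Φf := avg (fun e : Q n => φ (Fin.cons false e))
    set Ψt := avg (fun e : Q n => ψ (Fin.cons true e))
    set Ψf := avg (fun e : Q n => ψ (Fin.cons false e))
    have key : ∀ b : Bool, ∀ I : Q n,
        avg (fun e : Q (n+1) => φ e ^ r * ψ (fl e (Fin.cons b I)) ^ r) =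
        (avg (fun e : Q n => φ (Fin.cons true e) ^ r * ψ (Fin.cons (xor true b) (fl e I)) ^ r)
        + avg (fun e : Q n => φ (Fin.cons false e) ^ r * ψ (Fin.cons (xor false b) (fl e I)) ^ r)) / 2 := by
      intro b I
      rw [avg_cons]
      simp only [fl_cons]
    simp only [key]
    have tt := ih (fun e => φ (Fin.cons true e)) (fun e => ψ (Fin.cons true e))
      (fun e => hφ _) (fun e => hψ _)
    have tf := ih (fun e => φ (Fin.cons true e)) (fun e => ψ (Fin.cons false e))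
      (fun e => hφ _) (fun e => hψ _)
    have ft := ih (fun e => φ (Fin.cons false e)) (fun e => ψ (Fin.cons true e))
      (fun e => hφ _) (fun e => hψ _)
    have ff := ih (fun e => φ (Fin.cons false e)) (fun e => ψ (Fin.cons false e))
      (fun e => hφ _) (fun e => hψ _)
    have hΦt : 0 ≤ Φt := avg_nonneg (fun e => hφ _)
    have hΦf : 0 ≤ Φf := avg_nonneg (fun e => hφ _)
    have hΨt : 0 ≤ Ψt := avg_nonneg (fun e => hψ _)
    have hΨf : 0 ≤ Ψf := avg_nonneg (fun e => hψ _)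
    have h2 := two_point r hr β hβ hβ' Φt Φf Ψt Ψf hΦt hΦf hΨt hΨf
    refine le_trans h2 ?_
    simp only [Bool.xor_true, Bool.xor_false, Bool.not_true, Bool.not_false, wt, if_true,
      Bool.false_eq_true, if_false]
    have hs : ∀ (c : ℝ) (f g : Q n → ℝ), ∑ I : Q n, c * W β I * ((f I + g I) / 2)
        = c * ((∑ I, W β I * f I + ∑ I, W β I * g I) / 2) := by
      intro c f g
      rw [← Finset.sum_add_distrib, Finset.sum_div, Finset.mul_sum]
      refine Finset.sum_congr rfl (fun I _ => ?_)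
      ring
    rw [hs, hs]
    have h1β : 0 ≤ 1 - β := by linarith
    have A1 : (1 - β) * ((Φt ^ r * Ψt ^ r + Φf ^ r * Ψf ^ r) / 2) ≤ (1 - β) *
      ((∑ I : Q n, W β I * avg (fun e => φ (Fin.cons true e) ^ r * ψ (Fin.cons true (fl e I)) ^ r)
       + ∑ I : Q n, W β I * avg (fun e => φ (Fin.cons false e) ^ r * ψ (Fin.cons false (fl e I)) ^ r)) / 2) := by
      apply mul_le_mul_of_nonneg_left _ h1β
      linarith
    have A2 : β * ((Φt ^ r * Ψf ^ r + Φf ^ r * Ψt ^ r) / 2) ≤ β *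
      ((∑ I : Q n, W β I * avg (fun e => φ (Fin.cons true e) ^ r * ψ (Fin.cons false (fl e I)) ^ r)
       + ∑ I : Q n, W β I * avg (fun e => φ (Fin.cons false e) ^ r * ψ (Fin.cons true (fl e I)) ^ r)) / 2) := by
      apply mul_le_mul_of_nonneg_left _ hβ0
      linarith
    linarith

end Pool.Agent.Helper42.Pis
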