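import Mathlib
import Pool.Agent.Helper42.Pis.RevHyp

set_option autoImplicit false

open Finset

namespace Pool.Agent.Helper42.Pis

variable {E : Type*} [AddCommGroup E] [Module ℝ E]

/-- sign of a boolean -/
def sg (b : Bool) : ℝ := if b then 1 else -1

lemma sg_not (b : Bool) : sg (!b) = - sg b := by cases b <;> simp [sg]

lemma sg_true : sg true = 1 := by simp [sg]

lemma sg_false : sg false = -1 := by simp [sg]

/-- masked signed sum -/
noncomputable def vv {n : ℕ} (x : Fin n → E) (J e : Q n) : E :=
  ∑ i, if J i then sg (e i) • x i else 0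

/-- `p` is the maximum of the `M` functionals `y j`, and is even. -/
structure Norming (M : ℕ) (p : E → ℝ) (y : Fin M → E →ₗ[ℝ] ℝ) : Prop where
  le : ∀ j x, y j x ≤ p x
  ex : ∀ x, ∃ j, y j x = p x
  neg : ∀ x, p (-x) = p x

/-- mask difference -/
def sd {n : ℕ} (J I : Q n) : Q n := fun i => J i && !(I i)

/-- mix -/
def mix {n : ℕ} (I z e : Q n) : Q n := fun i => if I i then z i else e i

/-- negation -/
def ng {n : ℕ} (e : Q n) : Q n := fun i => !(e i)

lemma vv_mix {n : ℕ} (x : Fin n → E) (J I z e : Q n) :
    vv x J (mix I z e) = vv x (fun i => J i && I i) z + vv x (sd J I) e := by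
  unfold vv mix sd
  rw [← Finset.sum_add_distrib]
  refine Finset.sum_congr rfl (fun i _ => ?_)
  cases hJ : J i <;> cases hI : I i <;> simp [hJ, hI]

lemma vv_ng {n : ℕ} (x : Fin n → E) (J e : Q n) : vv x J (ng e) = - vv x J e := by
  unfold vv ng
  rw [← Finset.sum_neg_distrib]
  refine Finset.sum_congr rfl (fun i _ => ?_)
  rw [sg_not]
  split_ifs <;> simp

lemma vv_mix_ng {n : ℕ} (x : Fin n → E) (J I z e : Q n) :
    vv x J (mix I z (ng e)) = vv x (fun i => J i && I i) z - vv x (sd J I) e := by
  rw [vv_mix, vv_ng, sub_eq_add_neg]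

/-- swapping equivalence -/
def swapEquiv {n : ℕ} (I : Q n) : Q n × Q n ≃ Q n × Q n where
  toFun p := (mix I p.1 p.2, mix I p.2 p.1)
  invFun p := (mix I p.1 p.2, mix I p.2 p.1)
  left_inv p := by
    ext i <;> simp only [mix] <;> cases I i <;> simp
  right_inv p := by
    ext i <;> simp only [mix] <;> cases I i <;> simp

lemma avg_mix {n : ℕ} (I : Q n) (G : Q n → ℝ) :
    avg (fun z => avg (fun e => G (mix I z e))) = avg G := by
  unfold avg
  rw [← Finset.sum_div, div_div]
  have h1 : ∑ z : Q n, ∑ e : Q n, G (mix I z e) = ∑ p : Q n × Q n, G (mix I p.1 p.2) := by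
    rw [Fintype.sum_prod_type]
  have h2 : ∑ p : Q n × Q n, G (mix I p.1 p.2) = ∑ p : Q n × Q n, G p.1 := by
    exact (swapEquiv I).sum_comp (fun p => G p.1)
  rw [h1, h2, Fintype.sum_prod_type]
  simp only [Finset.sum_const, Finset.card_univ, Fintype.card_fun, Fintype.card_bool,
    Fintype.card_fin, nsmul_eq_mul, ← Finset.mul_sum]
  push_cast
  field_simp

lemma exists_avg_le {n : ℕ} (f : Q n → ℝ) : ∃ z, avg f ≤ f z := by
  by_contra h
  push Not at h
  have : avg f < avg (fun _ : Q n => avg f) := by
    unfold avg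
    apply div_lt_div_of_pos_right _ (by positivity)
    apply Finset.sum_lt_sum_of_nonempty Finset.univ_nonempty
    intro i _
    exact h i
  rw [avg_const] at this
  exact lt_irrefl _ this

/-- negation as an equivalence -/
def ngEquiv {n : ℕ} : Q n ≃ Q n where
  toFun := ng
  invFun := ng
  left_inv e := by funext i; simp [ng]
  right_inv e := by funext i; simp [ng]

lemma avg_ng {n : ℕ} (f : Q n → ℝ) : avg (fun e => f (ng e)) = avg f := by
  unfold avg
  rw [← ngEquiv.sum_comp f]
  rfl

/-- indicator of a finset -/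
noncomputable def ind {n : ℕ} (S : Finset (Q n)) (e : Q n) : ℝ := if e ∈ S then 1 else 0

lemma ind_nonneg {n : ℕ} (S : Finset (Q n)) (e : Q n) : 0 ≤ ind S e := by
  unfold ind; split_ifs <;> norm_num

lemma ind_pow {n : ℕ} (S : Finset (Q n)) (e : Q n) (r : ℕ) (hr : 1 ≤ r) : ind S e ^ r = ind S e := by
  unfold ind
  have : r ≠ 0 := by omega
  split_ifs <;> simp [this]

/-- normalised counting measure -/
noncomputable def mu {n : ℕ} (S : Finset (Q n)) : ℝ := (S.card : ℝ) / 2 ^ n

lemma avg_ind {n : ℕ} (S : Finset (Q n)) : avg (ind S) = mu S := by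
  unfold avg mu ind
  simp

lemma mu_nonneg {n : ℕ} (S : Finset (Q n)) : 0 ≤ mu S := by
  unfold mu; positivity

lemma Norming.half {M : ℕ} {p : E → ℝ} {y : Fin M → E →ₗ[ℝ] ℝ} (hp : Norming M p y) (u v : E) :
    p v ≤ (p (u + v) + p (u - v)) / 2 := by
  obtain ⟨j, hj⟩ := hp.ex v
  have h1 := hp.le j (u + v)
  have h2 := hp.le j (v - u)
  rw [show p (u - v) = p (v - u) by rw [← hp.neg (u - v)]; congr 1; abel]
  rw [map_add] at h1
  rw [map_sub] at h2
  linarith

/-- One step of the norming cone argument. -/
theorem cube_step {M : ℕ} {p : E → ℝ} {y : Fin M → E →ₗ[ℝ] ℝ} (hp : Norming M p y)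
    (r : ℕ) (hr : 1 ≤ r) (β : ℝ) (hβ : 1 / (2 * (r : ℝ)) ≤ β) (hβ' : β ≤ 1 / 2)
    {n : ℕ} (x : Fin n → E) (J : Q n) (S : Finset (Q n)) :
    ∃ (z : Q n → E) (S' : Q n → Finset (Q n)),
      (∀ I, ∀ e ∈ S' I, ∃ e1 ∈ S, ∃ e2 ∈ S, vv x J e1 = z I + vv x (sd J I) e ∧
        vv x J e2 = z I - vv x (sd J I) e) ∧
      (∀ I, ∀ e ∈ S' I, p (vv x (sd J I) e) ≤ p (z I)) ∧
      (mu S / M) ^ (2 * r) ≤ ∑ I, W β I * mu (S' I) := by
  classical
  have hMpos : 0 < M := by
    obtain ⟨j, -⟩ := hp.ex 0
    exact lt_of_le_of_lt (Nat.zero_le _) j.2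
  have hMpos' : (0 : ℝ) < M := by exact_mod_cast hMpos
  -- choose the functional
  have hj : ∃ j : Fin M, mu S / M ≤ mu (S.filter (fun e => y j (vv x J e) = p (vv x J e))) := by
    by_contra hcon
    push Not at hcon
    have h1 : ∑ j : Fin M, mu (S.filter (fun e => y j (vv x J e) = p (vv x J e)))
        < ∑ _j : Fin M, mu S / M := by
      have : Nonempty (Fin M) := ⟨⟨0, hMpos⟩⟩
      exact Finset.sum_lt_sum_of_nonempty Finset.univ_nonempty (fun j _ => hcon j)
    have h2 : ∑ _j : Fin M, mu S / M = mu S := by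
      simp
      field_simp
    rw [h2] at h1
    have h3 : mu S ≤ ∑ j : Fin M, mu (S.filter (fun e => y j (vv x J e) = p (vv x J e))) := by
      unfold mu
      rw [← Finset.sum_div]
      apply div_le_div_of_nonneg_right _ (by positivity)
      have : S ⊆ Finset.univ.biUnion (fun j : Fin M => S.filter (fun e => y j (vv x J e) = p (vv x J e))) := by
        intro e he
        obtain ⟨j, hj⟩ := hp.ex (vv x J e)
        simp only [Finset.mem_biUnion, Finset.mem_filter]
        exact ⟨j, Finset.mem_univ _, he, hj⟩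
      have h4 := (Finset.card_le_card this).trans Finset.card_biUnion_le
      exact_mod_cast h4
    linarith
  obtain ⟨j, hj⟩ := hj
  set T := S.filter (fun e => y j (vv x J e) = p (vv x J e)) with hT
  -- choose the frozen part
  have hz : ∀ I : Q n, ∃ z : Q n, avg (fun e => ind T e * ind T (mix I e (ng e))) ≤
      avg (fun e => ind T (mix I z e) * ind T (mix I z (ng e))) := by
    intro I
    have h1 := avg_mix I (fun e => ind T e * ind T (mix I e (ng e)))
    obtain ⟨z, hz⟩ := exists_avg_le (fun z => avg (fun e => ind T (mix I z e) *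
      ind T (mix I (mix I z e) (ng (mix I z e)))))
    rw [h1] at hz
    refine ⟨z, le_trans hz (le_of_eq ?_)⟩
    congr 1
    funext e
    congr 2
    funext i
    simp only [mix, ng]
    cases I i <;> simp
  choose z hz using hz
  refine ⟨fun I => vv x (fun i => J i && I i) (z I),
    fun I => Finset.univ.filter (fun e => mix I (z I) e ∈ T ∧ mix I (z I) (ng e) ∈ T), ?_, ?_, ?_⟩
  · intro I e he
    simp only [Finset.mem_filter, Finset.mem_univ, true_and] at he
    refine ⟨mix I (z I) e, (Finset.mem_filter.mp he.1).1, mix I (z I) (ng e),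
      (Finset.mem_filter.mp he.2).1, vv_mix _ _ _ _ _, vv_mix_ng _ _ _ _ _⟩
  · intro I e he
    simp only [Finset.mem_filter, Finset.mem_univ, true_and] at he
    have h1 := (Finset.mem_filter.mp he.1).2
    have h2 := (Finset.mem_filter.mp he.2).2
    rw [vv_mix] at h1
    rw [vv_mix_ng] at h2
    set Z := vv x (fun i => J i && I i) (z I)
    set R := vv x (sd J I) e
    have h3 := hp.half Z R
    have h4 : p (Z + R) + p (Z - R) = 2 * y j Z := by
      rw [← h1, ← h2, map_add, map_sub]; ring
    have h5 := hp.le j Z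
    linarith
  · have h1 := revhyp r hr β hβ hβ' n (ind T) (fun e => ind T (ng e)) (ind_nonneg T)
      (fun e => ind_nonneg T _)
    rw [avg_ng (ind T), avg_ind] at h1
    have h2 : (mu S / M) ^ (2 * r) ≤ mu T ^ r * mu T ^ r := by
      rw [← pow_add, ← two_mul]
      apply pow_le_pow_left₀ _ hj
      have := mu_nonneg S
      positivity
    refine le_trans h2 (le_trans h1 ?_)
    have hβ0 : 0 ≤ β := le_trans (by positivity) hβ
    apply Finset.sum_le_sum
    intro I _
    apply mul_le_mul_of_nonneg_left _ (W_nonneg hβ0 (by linarith) I)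
    have h3 : avg (fun e => ind T e ^ r * ind T (ng (fl e I)) ^ r) =
        avg (fun e => ind T e * ind T (mix I e (ng e))) := by
      congr 1
      funext e
      rw [ind_pow _ _ _ hr, ind_pow _ _ _ hr]
      congr 2
      funext i
      simp only [mix, ng, fl]
      cases I i <;> cases e i <;> simp
    rw [h3]
    refine le_trans (hz I) ?_
    rw [← avg_ind]
    apply avg_mono
    intro e
    unfold ind
    simp only [Finset.mem_filter, Finset.mem_univ, true_and]
    by_cases ha : mix I (z I) e ∈ T <;> by_cases hb : mix I (z I) (ng e) ∈ T <;> simp [ha, hb]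

/-- The averaging operator over random deletions. -/
noncomputable def WW (β : ℝ) {n : ℕ} (G : Q n → ℝ) (J : Q n) : ℝ := ∑ I, W β I * G (sd J I)

/-- Probability that the masked sum is small. -/
noncomputable def PB {n : ℕ} (p : E → ℝ) (x : Fin n → E) (t : ℝ) (J : Q n) : ℝ :=
  by classical exact avg (fun e => if p (vv x J e) ≤ t then 1 else 0)

/-- exponents -/
def ea (r : ℕ) : ℕ → ℕ
  | 0 => 1
  | l + 1 => 2 * r * ea r l

/-- exponents -/
def eb (r : ℕ) : ℕ → ℕ
  | 0 => 0
  | l + 1 => 2 * r * ea r l + eb r l

/-- The cotype consequence used. -/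
def Cot (k : ℕ) (p : E → ℝ) : Prop :=
  ∀ (Z : Fin k → E) (t : ℝ), (∀ s : Fin k → Bool, p (∑ i, sg (s i) • Z i) ≤ t) → ∃ i, p (Z i) ≤ t / 2

theorem cube_rounds {M : ℕ} {p : E → ℝ} {y : Fin M → E →ₗ[ℝ] ℝ} (hp : Norming M p y)
    (k : ℕ) (hk : Cot k p)
    (r : ℕ) (hr : 1 ≤ r) (β : ℝ) (hβ : 1 / (2 * (r : ℝ)) ≤ β) (hβ' : β ≤ 1 / 2)
    {n : ℕ} (x : Fin n → E) (s : ℕ) :
    ∀ (t : ℝ) (J : Q n) (S : Finset (Q n)), (∀ e ∈ S, p (vv x J e) ≤ t) →
      mu S ^ (ea r (k * s)) / (M : ℝ) ^ (eb r (k * s)) ≤ (WW β)^[k * s] (PB p x (t / 2 ^ s)) J := by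
  classical
  have hβ0 : 0 ≤ β := le_trans (by positivity) hβ
  have hMpos : 0 < M := by
    obtain ⟨j, -⟩ := hp.ex 0
    exact lt_of_le_of_lt (Nat.zero_le _) j.2
  have hMpos' : (0 : ℝ) < M := by exact_mod_cast hMpos
  induction s with
  | zero =>
    intro t J S hS
    simp only [Nat.mul_zero, ea, eb, pow_zero, div_one, pow_one, Function.iterate_zero, id_eq]
    unfold PB
    rw [← avg_ind]
    apply avg_mono
    intro e
    unfold ind
    by_cases he : e ∈ S
    · simp [he, hS e he]
    · simp only [he, if_false]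
      split_ifs <;> norm_num
  | succ s ih =>
    intro t J S hS
    -- inner claim
    have inner : ∀ l m : ℕ, m + l = k → ∀ (Z : Fin m → E) (J : Q n) (S : Finset (Q n)),
        (∀ e ∈ S, ∀ σ : Fin m → Bool, p (∑ i, sg (σ i) • Z i + vv x J e) ≤ t) →
        (∀ e ∈ S, ∀ i, p (vv x J e) ≤ p (Z i)) →
        mu S ^ (ea r (k * s + l)) / (M : ℝ) ^ (eb r (k * s + l)) ≤
          (WW β)^[k * s + l] (PB p x (t / 2 ^ (s+1))) J := by
      intro l
      induction l with
      | zero =>
        intro m hm Z J S h1 h2
        have hm' : m = k := by omega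
        subst hm'
        have h3 : ∀ e ∈ S, p (vv x J e) ≤ t / 2 := by
          intro e he
          obtain ⟨i, hi⟩ := hk Z t (by
            intro σ
            have a1 := h1 e he σ
            have a2 := h1 e he (fun i => !(σ i))
            have a3 := hp.half (vv x J e) (∑ i, sg (σ i) • Z i)
            have a4 : p (vv x J e + ∑ i, sg (σ i) • Z i) ≤ t := by rwa [add_comm]
            have a5 : p (vv x J e - ∑ i, sg (σ i) • Z i) ≤ t := by
              have : vv x J e - ∑ i, sg (σ i) • Z i = ∑ i, sg (!(σ i)) • Z i + vv x J e := by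
                simp only [sg_not, neg_smul, Finset.sum_neg_distrib]
                abel
              rw [this]; exact a2
            linarith)
          exact le_trans (h2 e he i) hi
        have h4 := ih (t / 2) J S h3
        have h5 : t / 2 / 2 ^ s = t / 2 ^ (s + 1) := by
          rw [pow_succ]; field_simp
        rw [h5] at h4
        exact h4
      | succ l ihl =>
        intro m hm Z J S h1 h2
        obtain ⟨z, S', c1, c2, c3⟩ := cube_step hp r hr β hβ hβ' x J S
        have h3 : ∀ I : Q n, mu (S' I) ^ (ea r (k * s + l)) / (M : ℝ) ^ (eb r (k * s + l)) ≤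
            (WW β)^[k * s + l] (PB p x (t / 2 ^ (s+1))) (sd J I) := by
          intro I
          refine ihl (m + 1) (by omega) (Fin.cons (z I) Z : Fin (m+1) → E) (sd J I) (S' I) ?_ ?_
          · intro e he σ
            obtain ⟨e1, he1, e2, he2, q1, q2⟩ := c1 I e he
            rw [Fin.sum_univ_succ]
            simp only [Fin.cons_zero, Fin.cons_succ]
            cases hσ : σ 0
            · have a1 := h1 e2 he2 (fun i => !(σ i.succ))
              rw [q2] at a1
              rw [← hp.neg] at a1
              refine le_trans (le_of_eq ?_) a1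
              congr 1
              simp only [sg_not, neg_smul, Finset.sum_neg_distrib, sg_false, one_smul]
              abel
            · have a1 := h1 e1 he1 (fun i => σ i.succ)
              rw [q1] at a1
              refine le_trans (le_of_eq ?_) a1
              congr 1
              simp only [sg_true, one_smul]
              abel
          · intro e he i
            obtain ⟨e1, he1, e2, he2, q1, q2⟩ := c1 I e he
            refine Fin.cases ?_ (fun i' => ?_) i
            · simp only [Fin.cons_zero]
              exact c2 I e he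
            · simp only [Fin.cons_succ]
              have a1 := h2 e1 he1 i'
              have a2 := h2 e2 he2 i'
              rw [q1] at a1
              rw [q2] at a2
              have a3 := hp.half (z I) (vv x (sd J I) e)
              linarith
        have e1 : k * s + (l + 1) = (k * s + l) + 1 := by ring
        rw [e1, Function.iterate_succ_apply']
        have h4 : ∑ I : Q n, W β I * (mu (S' I) ^ (ea r (k * s + l)) / (M : ℝ) ^ (eb r (k * s + l)))
            ≤ WW β ((WW β)^[k * s + l] (PB p x (t / 2 ^ (s+1)))) J := by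
          unfold WW
          apply Finset.sum_le_sum
          intro I _
          exact mul_le_mul_of_nonneg_left (h3 I) (W_nonneg hβ0 (by linarith) I)
        refine le_trans ?_ h4
        have h5 : ∑ I : Q n, W β I * (mu (S' I) ^ (ea r (k * s + l)) / (M : ℝ) ^ (eb r (k * s + l)))
            = (∑ I : Q n, W β I * (mu (S' I) ^ (ea r (k * s + l)))) / (M : ℝ) ^ (eb r (k * s + l)) := by
          rw [Finset.sum_div]
          refine Finset.sum_congr rfl (fun I _ => ?_)
          ring
        rw [h5]
        have h6 := Real.pow_arith_mean_le_arith_mean_pow Finset.univ (fun I : Q n => W β I)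
          (fun I => mu (S' I)) (fun I _ => W_nonneg hβ0 (by linarith) I) (sum_W β)
          (fun I _ => mu_nonneg _) (ea r (k * s + l))
        have h7 : ((mu S / M) ^ (2 * r)) ^ (ea r (k * s + l)) ≤
            (∑ I : Q n, W β I * mu (S' I)) ^ (ea r (k * s + l)) := by
          apply pow_le_pow_left₀ _ c3
          have := mu_nonneg S
          positivity
        have h8 : mu S ^ ea r (k * s + l + 1) / (M : ℝ) ^ eb r (k * s + l + 1) =
            ((mu S / M) ^ (2 * r)) ^ (ea r (k * s + l)) / (M : ℝ) ^ (eb r (k * s + l)) := by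
          simp only [ea, eb]
          rw [← pow_mul, div_pow, pow_add]
          field_simp
        rw [h8]
        apply div_le_div_of_nonneg_right _ (by positivity)
        exact le_trans h7 h6
    have h0 := inner k 0 (by omega) Fin.elim0 J S (by
      intro e he σ
      simp
      exact hS e he) (by
      intro e he i
      exact i.elim0)
    have e1 : k * (s + 1) = k * s + k := by ring
    rw [e1]
    exact h0

end Pool.Agent.Helper42.Pis
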