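import Mathlib
import Pool.Agent.Helper42.Pis.Cube

set_option autoImplicit false

open Finset MeasureTheory ProbabilityTheory
open scoped ENNReal NNReal

namespace Pool.Agent.Helper42.Pis

lemma lintegral_fin_prod {n : ℕ} (μ : Fin n → Measure ℝ) [∀ i, SigmaFinite (μ i)]
    (f : Fin n → ℝ → ℝ≥0∞) (hf : ∀ i, Measurable (f i)) :
    ∫⁻ x, ∏ i, f i (x i) ∂(Measure.pi μ) = ∏ i, ∫⁻ t, f i t ∂(μ i) := by
  induction n with
  | zero =>
    simp
  | succ n ih =>
    have h := (measurePreserving_piFinSuccAbove μ 0).symm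
    rw [← h.lintegral_comp_emb (MeasurableEquiv.measurableEmbedding _)]
    rw [Fin.prod_univ_succ, ← ih (fun j => μ j.succ) (fun j => f j.succ) (fun j => hf _)]
    have := lintegral_prod_mul (μ := μ 0) (ν := Measure.pi (fun j : Fin n => μ j.succ))
      (f := f 0) (g := fun x => ∏ i, f i.succ (x i)) (hf 0).aemeasurable
      (Measurable.aemeasurable (by
        exact Finset.measurable_prod _ (fun i _ => (hf _).comp (measurable_pi_apply i))))
    simp only [Fin.succAbove_zero]
    rw [← this]
    refine lintegral_congr (fun z => ?_)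
    rw [Fin.prod_univ_succ]
    simp [MeasurableEquiv.piFinSuccAbove, Fin.insertNthEquiv]

lemma pi_withDensity' {n : ℕ} (μ : Fin n → Measure ℝ) [∀ i, SigmaFinite (μ i)]
    (f : Fin n → ℝ → ℝ≥0∞) (hf : ∀ i, Measurable (f i)) [∀ i, SigmaFinite ((μ i).withDensity (f i))] :
    Measure.pi (fun i => (μ i).withDensity (f i)) =
      (Measure.pi μ).withDensity (fun x => ∏ i, f i (x i)) := by
  apply Measure.pi_eq
  intro s hs
  rw [withDensity_apply _ (MeasurableSet.univ_pi hs)]
  have e1 : ∀ i, (μ i).withDensity (f i) (s i) = ∫⁻ t, (s i).indicator (f i) t ∂(μ i) := by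
    intro i
    rw [withDensity_apply _ (hs i), lintegral_indicator (hs i)]
  simp only [e1]
  rw [← lintegral_fin_prod μ _ (fun i => (hf i).indicator (hs i))]
  rw [← lintegral_indicator (MeasurableSet.univ_pi hs)]
  refine lintegral_congr (fun x => ?_)
  by_cases hx : x ∈ Set.univ.pi s
  · rw [Set.indicator_of_mem hx]
    refine Finset.prod_congr rfl (fun i _ => ?_)
    rw [Set.indicator_of_mem (hx i (Set.mem_univ i))]
  · rw [Set.indicator_of_notMem hx]
    symm
    simp only [Set.mem_pi, Set.mem_univ, true_implies, not_forall] at hx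
    obtain ⟨i, hi⟩ := hx
    exact Finset.prod_eq_zero (Finset.mem_univ i) (Set.indicator_of_notMem hi _)

/-- Standard Gaussian measure on `Fin n → ℝ`. -/
noncomputable def gm (n : ℕ) : Measure (Fin n → ℝ) := Measure.pi (fun _ => gaussianReal 0 1)

instance (n : ℕ) : IsProbabilityMeasure (gm n) := by unfold gm; infer_instance

/-- The Gaussian density. -/
noncomputable def gd (n : ℕ) (x : Fin n → ℝ) : ℝ :=
  (Real.sqrt (2 * Real.pi))⁻¹ ^ n * Real.exp (-(∑ i, x i ^ 2) / 2)

lemma gd_nonneg (n : ℕ) (x : Fin n → ℝ) : 0 ≤ gd n x := by unfold gd; positivity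

lemma gd_meas (n : ℕ) : Measurable (gd n) := by unfold gd; fun_prop

lemma gm_eq (n : ℕ) : gm n = volume.withDensity (fun x => ENNReal.ofReal (gd n x)) := by
  unfold gm
  have h1 : (gaussianReal 0 1) = volume.withDensity (gaussianPDF 0 1) :=
    gaussianReal_of_var_ne_zero 0 (by norm_num)
  rw [h1]
  have hsf : ∀ _i : Fin n, SigmaFinite ((volume : Measure ℝ).withDensity (gaussianPDF 0 1)) := by
    intro i
    rw [← h1]; infer_instance
  rw [@pi_withDensity' n (fun _ => (volume : Measure ℝ)) (fun _ => inferInstance)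
    (fun _ => gaussianPDF 0 1) (fun _ => measurable_gaussianPDF 0 1) hsf]
  rw [volume_pi]
  congr 1
  funext x
  unfold gaussianPDF gd
  rw [← ENNReal.ofReal_prod_of_nonneg (fun i _ => gaussianPDFReal_nonneg _ _ _)]
  congr 1
  unfold gaussianPDFReal
  rw [Finset.prod_mul_distrib]
  simp only [NNReal.coe_one, mul_one, sub_zero, Finset.prod_const, Finset.card_univ,
    Fintype.card_fin]
  rw [← Real.exp_sum]
  congr 2
  rw [← Finset.sum_neg_distrib, Finset.sum_div]

lemma gm_apply (n : ℕ) {A : Set (Fin n → ℝ)} (hA : MeasurableSet A) :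
    gm n A = ∫⁻ x in A, ENNReal.ofReal (gd n x) := by
  rw [gm_eq, withDensity_apply _ hA]

/-- sign symmetry -/
lemma gm_sign {n : ℕ} (e : Q n) :
    MeasurePreserving (fun (g : Fin n → ℝ) i => sg (e i) * g i) (gm n) (gm n) := by
  unfold gm
  apply measurePreserving_pi (fun _ => gaussianReal 0 1) (fun _ => gaussianReal 0 1)
    (f := fun i t => sg (e i) * t)
  intro i
  refine ⟨by fun_prop, ?_⟩
  rw [gaussianReal_map_const_mul]
  cases e i <;> simp [sg]

/-- shift inequality -/
lemma gm_shift {n : ℕ} (h : Fin n → ℝ) {K : Set (Fin n → ℝ)} (hK : MeasurableSet K)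
    (hsym : ∀ x ∈ K, -x ∈ K) :
    ENNReal.ofReal (Real.exp (-(∑ i, h i ^ 2) / 2)) * gm n K ≤ gm n {x | x - h ∈ K} := by
  have hm : MeasurableSet {x : Fin n → ℝ | x - h ∈ K} := by
    exact (measurable_id.sub_const h) hK
  rw [gm_apply n hK, gm_apply n hm]
  set c := Real.exp (-(∑ i, h i ^ 2) / 2) with hc
  have hsymK : ∀ x, -x ∈ K ↔ x ∈ K := by
    intro x
    constructor
    · intro hx
      simpa using hsym _ hx
    · exact hsym x
  -- rewrite the right side by translation
  have e1 : ∫⁻ x in {x : Fin n → ℝ | x - h ∈ K}, ENNReal.ofReal (gd n x)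
      = ∫⁻ x in K, ENNReal.ofReal (gd n (x + h)) := by
    rw [← lintegral_indicator hm, ← lintegral_indicator hK]
    rw [← lintegral_add_right_eq_self (μ := (volume : Measure (Fin n → ℝ)))
      ({x : Fin n → ℝ | x - h ∈ K}.indicator fun x => ENNReal.ofReal (gd n x)) h]
    refine lintegral_congr (fun x => ?_)
    by_cases hx : x ∈ K
    · rw [Set.indicator_of_mem hx, Set.indicator_of_mem]
      simpa using hx
    · rw [Set.indicator_of_notMem hx, Set.indicator_of_notMem]
      simpa using hx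
  have e2 : ∫⁻ x in K, ENNReal.ofReal (gd n (x + h)) = ∫⁻ x in K, ENNReal.ofReal (gd n (-x + h)) := by
    rw [← lintegral_indicator hK, ← lintegral_indicator hK]
    rw [← lintegral_neg_eq_self (μ := (volume : Measure (Fin n → ℝ)))
      (K.indicator fun x => ENNReal.ofReal (gd n (x + h)))]
    refine lintegral_congr (fun x => ?_)
    by_cases hx : x ∈ K
    · rw [Set.indicator_of_mem hx, Set.indicator_of_mem ((hsymK x).mpr hx)]
    · rw [Set.indicator_of_notMem hx, Set.indicator_of_notMem (fun h' => hx ((hsymK x).mp h'))]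
  have key : ∀ x : Fin n → ℝ, 2 * (c * gd n x) ≤ gd n (x + h) + gd n (-x + h) := by
    intro x
    have a1 : gd n (x + h) = (c * gd n x) * Real.exp (-(∑ i, x i * h i)) := by
      unfold gd
      rw [hc]
      rw [show Real.exp (-(∑ i, h i ^ 2) / 2) * ((Real.sqrt (2 * Real.pi))⁻¹ ^ n * Real.exp (-(∑ i, x i ^ 2) / 2))
        * Real.exp (-(∑ i, x i * h i)) = (Real.sqrt (2 * Real.pi))⁻¹ ^ n * (Real.exp (-(∑ i, h i ^ 2) / 2) *
          Real.exp (-(∑ i, x i ^ 2) / 2) * Real.exp (-(∑ i, x i * h i))) by ring]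
      rw [← Real.exp_add, ← Real.exp_add]
      congr 2
      have : ∑ i, (x + h) i ^ 2 = ∑ i, x i ^ 2 + ∑ i, h i ^ 2 + 2 * ∑ i, x i * h i := by
        rw [Finset.mul_sum, ← Finset.sum_add_distrib, ← Finset.sum_add_distrib]
        refine Finset.sum_congr rfl (fun i _ => ?_)
        simp only [Pi.add_apply]; ring
      rw [this]; ring
    have a2 : gd n (-x + h) = (c * gd n x) * Real.exp (∑ i, x i * h i) := by
      unfold gd
      rw [hc]
      rw [show Real.exp (-(∑ i, h i ^ 2) / 2) * ((Real.sqrt (2 * Real.pi))⁻¹ ^ n * Real.exp (-(∑ i, x i ^ 2) / 2))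
        * Real.exp (∑ i, x i * h i) = (Real.sqrt (2 * Real.pi))⁻¹ ^ n * (Real.exp (-(∑ i, h i ^ 2) / 2) *
          Real.exp (-(∑ i, x i ^ 2) / 2) * Real.exp (∑ i, x i * h i)) by ring]
      rw [← Real.exp_add, ← Real.exp_add]
      congr 2
      have : ∑ i, (-x + h) i ^ 2 = ∑ i, x i ^ 2 + ∑ i, h i ^ 2 - 2 * ∑ i, x i * h i := by
        rw [Finset.mul_sum, ← Finset.sum_add_distrib, ← Finset.sum_sub_distrib]
        refine Finset.sum_congr rfl (fun i _ => ?_)
        simp only [Pi.add_apply, Pi.neg_apply]; ring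
      rw [this]; ring
    rw [a1, a2]
    have b1 := Real.add_one_le_exp (∑ i, x i * h i)
    have b2 := Real.add_one_le_exp (-(∑ i, x i * h i))
    have b3 : 0 ≤ c * gd n x := mul_nonneg (by rw [hc]; positivity) (gd_nonneg n x)
    nlinarith
  have e3 : 2 * (ENNReal.ofReal c * ∫⁻ x in K, ENNReal.ofReal (gd n x)) ≤
      2 * ∫⁻ x in K, ENNReal.ofReal (gd n (x + h)) := by
    calc 2 * (ENNReal.ofReal c * ∫⁻ x in K, ENNReal.ofReal (gd n x))
        = ∫⁻ x in K, ENNReal.ofReal (2 * (c * gd n x)) := by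
          rw [← lintegral_const_mul _ (by exact (gd_meas n).ennreal_ofReal),
            ← lintegral_const_mul _ (by exact ((gd_meas n).ennreal_ofReal.const_mul _))]
          refine lintegral_congr (fun x => ?_)
          rw [ENNReal.ofReal_mul (by norm_num), ENNReal.ofReal_mul (by rw [hc]; positivity)]
          norm_num
      _ ≤ ∫⁻ x in K, (ENNReal.ofReal (gd n (x + h)) + ENNReal.ofReal (gd n (-x + h))) := by
          apply lintegral_mono
          intro x
          beta_reduce
          rw [← ENNReal.ofReal_add (gd_nonneg _ _) (gd_nonneg _ _)]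
          exact ENNReal.ofReal_le_ofReal (key x)
      _ = 2 * ∫⁻ x in K, ENNReal.ofReal (gd n (x + h)) := by
          rw [lintegral_add_left (by
            exact ((gd_meas n).comp (measurable_id.add_const h)).ennreal_ofReal), ← e2, two_mul]
  rw [e1]
  exact (ENNReal.mul_le_mul_iff_right (by norm_num) (by norm_num)).mp e3

end Pool.Agent.Helper42.Pis
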