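import Mathlib
import Pool.Agent.Helper42.Pis.Gauss

set_option autoImplicit false

open Finset MeasureTheory ProbabilityTheory
open scoped ENNReal NNReal

namespace Pool.Agent.Helper42.Pis

lemma gauss_avg_one (a b : ℝ) (h : a ^ 2 + b ^ 2 = 1) :
    MeasurePreserving (fun z : ℝ × ℝ => a * z.1 + b * z.2)
      ((gaussianReal 0 1).prod (gaussianReal 0 1)) (gaussianReal 0 1) := by
  refine ⟨by fun_prop, ?_⟩
  have h1 : (fun z : ℝ × ℝ => a * z.1 + b * z.2) =
      (fun w : ℝ × ℝ => w.1 + w.2) ∘ (Prod.map (fun t => a * t) (fun t => b * t)) := by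
    funext z; simp
  rw [h1, ← Measure.map_map (by fun_prop) (by fun_prop)]
  rw [← Measure.map_prod_map _ _ (by fun_prop) (by fun_prop)]
  rw [gaussianReal_map_const_mul, gaussianReal_map_const_mul]
  have h2 := @gaussianReal_conv_gaussianReal (a * 0) (b * 0) (NNReal.mk (a ^ 2) (sq_nonneg a) * 1)
    (NNReal.mk (b ^ 2) (sq_nonneg b) * 1)
  unfold Measure.conv at h2
  rw [h2]
  congr 1
  · ring
  · ext
    simp [h]

lemma gm_avg {n : ℕ} (a b : Fin n → ℝ) (h : ∀ i, a i ^ 2 + b i ^ 2 = 1) :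
    MeasurePreserving (fun z : (Fin n → ℝ) × (Fin n → ℝ) => fun i => a i * z.1 i + b i * z.2 i)
      ((gm n).prod (gm n)) (gm n) := by
  have h1 := (measurePreserving_arrowProdEquivProdArrow ℝ ℝ (Fin n)
    (fun _ => gaussianReal 0 1) (fun _ => gaussianReal 0 1)).symm
  have h2 := measurePreserving_pi (fun _ : Fin n => (gaussianReal 0 1).prod (gaussianReal 0 1))
    (fun _ : Fin n => gaussianReal 0 1) (f := fun i (z : ℝ × ℝ) => a i * z.1 + b i * z.2)
    (fun i => gauss_avg_one (a i) (b i) (h i))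
  exact h2.comp h1

lemma lintegral_linear {n : ℕ} (A : Matrix (Fin n) (Fin n) ℝ) (hA : A.det ≠ 0)
    (f : (Fin n → ℝ) → ℝ≥0∞) (hf : Measurable f) :
    ∫⁻ x, f (A.mulVec x) = ENNReal.ofReal |(A.det)⁻¹| * ∫⁻ x, f x := by
  have h := Real.map_matrix_volume_pi_eq_smul_volume_pi hA
  have h2 : ∫⁻ x, f x ∂(Measure.map (Matrix.toLin' A) volume) =
      ENNReal.ofReal |(A.det)⁻¹| * ∫⁻ x, f x := by
    rw [h, lintegral_smul_measure]; rfl
  rw [← h2, lintegral_map hf]
  · rfl
  · exact (LinearMap.continuous_of_finiteDimensional _).measurable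

lemma gm_linear {n : ℕ} (A : Matrix (Fin n) (Fin n) ℝ) (hA : A.det ≠ 0)
    {K : Set (Fin n → ℝ)} (hK : MeasurableSet K) :
    gm n {x | A.mulVec x ∈ K} = ENNReal.ofReal |(A.det)⁻¹| *
      ∫⁻ x in K, ENNReal.ofReal (gd n (A⁻¹.mulVec x)) := by
  have hmeas : Measurable (fun x : Fin n → ℝ => A.mulVec x) :=
    (LinearMap.continuous_of_finiteDimensional (Matrix.toLin' A)).measurable
  have hmeas' : Measurable (fun x : Fin n → ℝ => A⁻¹.mulVec x) :=
    (LinearMap.continuous_of_finiteDimensional (Matrix.toLin' A⁻¹)).measurable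
  have hS : MeasurableSet {x | A.mulVec x ∈ K} := hmeas hK
  rw [gm_apply n hS, ← lintegral_indicator hS, ← lintegral_indicator hK]
  have hf : Measurable (K.indicator (fun x => ENNReal.ofReal (gd n (A⁻¹.mulVec x)))) :=
    Measurable.indicator (((gd_meas n).comp hmeas').ennreal_ofReal) hK
  rw [← lintegral_linear A hA _ hf]
  refine lintegral_congr (fun x => ?_)
  by_cases hx : A.mulVec x ∈ K
  · rw [Set.indicator_of_mem (by exact hx), Set.indicator_of_mem hx, Matrix.mulVec_mulVec,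
      Matrix.nonsing_inv_mul _ (by simpa using hA), Matrix.one_mulVec]
  · rw [Set.indicator_of_notMem (by exact hx), Set.indicator_of_notMem hx]

/-- rotation invariance -/
lemma gm_rot {n : ℕ} (U : Matrix (Fin n) (Fin n) ℝ) (hU : U.transpose * U = 1)
    {K : Set (Fin n → ℝ)} (hK : MeasurableSet K) :
    gm n {x | U.mulVec x ∈ K} = gm n K := by
  have hdet : U.det * U.det = 1 := by
    have := congrArg Matrix.det hU
    rwa [Matrix.det_mul, Matrix.det_transpose, Matrix.det_one] at this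
  have hdet0 : U.det ≠ 0 := by
    intro h; rw [h] at hdet; simp at hdet
  have habs : |(U.det)⁻¹| = 1 := by
    rw [abs_inv]
    have : |U.det| * |U.det| = 1 := by rw [← abs_mul, hdet, abs_one]
    have h1 : |U.det| = 1 := by
      have h0 := abs_nonneg U.det
      nlinarith
    rw [h1, inv_one]
  rw [gm_linear U hdet0 hK, habs, ENNReal.ofReal_one, one_mul, gm_apply n hK]
  have hinv : U⁻¹ = U.transpose := Matrix.inv_eq_left_inv hU
  have hU' : U * U.transpose = 1 := by
    rw [← hinv]; exact Matrix.mul_nonsing_inv _ (by simpa using hdet0)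
  have hgd : ∀ x, gd n (U⁻¹.mulVec x) = gd n x := by
    intro x
    unfold gd
    congr 3
    have e1 : ∀ y : Fin n → ℝ, ∑ i, y i ^ 2 = y ⬝ᵥ y := by
      intro y
      simp [dotProduct, sq]
    rw [e1, e1, hinv, Matrix.dotProduct_mulVec, Matrix.vecMul_transpose, Matrix.mulVec_mulVec, hU',
      Matrix.one_mulVec]
  simp only [hgd]

lemma gm_le_vol {n : ℕ} (A : Matrix (Fin n) (Fin n) ℝ) (hA : A.det ≠ 0)
    {K : Set (Fin n → ℝ)} (hK : MeasurableSet K) :
    gm n {x | A.mulVec x ∈ K} ≤ ENNReal.ofReal (|(A.det)⁻¹| * (Real.sqrt (2 * Real.pi))⁻¹ ^ n) * volume K := by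
  rw [gm_linear A hA hK, ENNReal.ofReal_mul (abs_nonneg _), mul_assoc]
  gcongr
  calc ∫⁻ x in K, ENNReal.ofReal (gd n (A⁻¹.mulVec x))
      ≤ ∫⁻ _x in K, ENNReal.ofReal ((Real.sqrt (2 * Real.pi))⁻¹ ^ n) := by
        apply lintegral_mono
        intro x
        apply ENNReal.ofReal_le_ofReal
        unfold gd
        have : Real.exp (-(∑ i, (A⁻¹.mulVec x) i ^ 2) / 2) ≤ 1 := by
          apply Real.exp_le_one_iff.mpr
          have : 0 ≤ ∑ i, (A⁻¹.mulVec x) i ^ 2 := Finset.sum_nonneg (fun i _ => sq_nonneg _)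
          linarith
        calc _ ≤ (Real.sqrt (2 * Real.pi))⁻¹ ^ n * 1 := by gcongr
          _ = _ := mul_one _
    _ = _ := by rw [setLIntegral_const]

lemma gauss_tail (L : ℝ) (hL : 0 ≤ L) :
    1 - 2 * Real.exp (-L ^ 2 / 2) ≤ (gaussianReal 0 1).real (Set.Icc (-L) L) := by
  have hint : ∀ t : ℝ, Integrable (fun x : ℝ => Real.exp (t * id x)) (gaussianReal 0 1) := by
    intro t
    exact integrable_exp_mul_gaussianReal t
  have h1 := measure_ge_le_exp_mul_mgf (X := id) (μ := gaussianReal 0 1) L (t := L) hL (hint L)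
  have h2 : (gaussianReal 0 1).real {x | L ≤ -x} ≤ Real.exp (-L * L) * mgf (fun x => -x) (gaussianReal 0 1) L :=
    measure_ge_le_exp_mul_mgf (X := fun x => -x) (μ := gaussianReal 0 1) L (t := L) hL (by
      have := hint (-L)
      simpa using this)
  have e1 : mgf id (gaussianReal 0 1) L = Real.exp (L ^ 2 / 2) := by
    rw [mgf_id_gaussianReal]; simp
  have e2 : mgf (fun x => -x) (gaussianReal 0 1) L = Real.exp (L ^ 2 / 2) := by
    have : mgf (fun x : ℝ => -x) (gaussianReal 0 1) L = mgf id (gaussianReal 0 1) (-L) := by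
      unfold mgf; simp
    rw [this, mgf_id_gaussianReal]; simp
  have e3 : Real.exp (-L * L) * Real.exp (L ^ 2 / 2) = Real.exp (-L ^ 2 / 2) := by
    rw [← Real.exp_add]; congr 1; ring
  rw [e1, e3] at h1
  rw [e2, e3] at h2
  have hsub : (Set.univ : Set ℝ) ⊆ Set.Icc (-L) L ∪ ({x | L ≤ id x} ∪ {x | L ≤ -x}) := by
    intro x _
    by_cases h : x ≤ L
    · by_cases h' : -L ≤ x
      · left; exact ⟨h', h⟩
      · right; right; simp only [Set.mem_ofPred_eq]; linarith
    · right; left; simp only [Set.mem_ofPred_eq, id]; linarith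
  have h3 : (gaussianReal 0 1).real Set.univ ≤ (gaussianReal 0 1).real (Set.Icc (-L) L) +
      ((gaussianReal 0 1).real {x | L ≤ id x} + (gaussianReal 0 1).real {x | L ≤ -x}) := by
    refine le_trans (measureReal_mono hsub) (le_trans (measureReal_union_le _ _) ?_)
    gcongr
    exact measureReal_union_le _ _
  rw [probReal_univ] at h3
  linarith

lemma gm_box {n : ℕ} (L : ℝ) (hL : 0 ≤ L) (h : 0 ≤ 1 - 2 * Real.exp (-L ^ 2 / 2)) :
    (1 - 2 * Real.exp (-L ^ 2 / 2)) ^ n ≤ (gm n).real {x | ∀ i, |x i| ≤ L} := by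
  have e1 : {x : Fin n → ℝ | ∀ i, |x i| ≤ L} = Set.univ.pi (fun _ => Set.Icc (-L) L) := by
    ext x
    simp only [Set.mem_ofPred_eq, Set.mem_pi, Set.mem_univ, true_implies, Set.mem_Icc, abs_le]
  rw [e1]
  unfold gm
  rw [measureReal_def, Measure.pi_pi, Finset.prod_const, ENNReal.toReal_pow, ← measureReal_def]
  simp only [Finset.card_univ, Fintype.card_fin]
  exact pow_le_pow_left₀ h (gauss_tail L hL) n

lemma gauss_sq : ∫ x, x ^ 2 ∂(gaussianReal 0 1) = 1 := by
  have h := variance_id_gaussianReal (μ := 0) (v := 1)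
  rw [variance_eq_integral (by fun_prop)] at h
  simpa using h

lemma gauss_sq_int : Integrable (fun x : ℝ => x ^ 2) (gaussianReal 0 1) := by
  have h := memLp_id_gaussianReal (μ := 0) (v := 1) 2
  exact h.integrable_sq

lemma gm_l1 {n : ℕ} (hn : 0 < n) : 1 / 2 ≤ (gm n).real {x | ∑ i, |x i| ≤ 2 * n} := by
  have hi : ∀ i : Fin n, Integrable (fun x : Fin n → ℝ => (1 + x i ^ 2) / 2) (gm n) := by
    intro i
    have : Integrable (fun x : Fin n → ℝ => x i ^ 2) (gm n) := by
      unfold gm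
      exact integrable_comp_eval (μ := fun _ : Fin n => gaussianReal 0 1) (i := i) gauss_sq_int
    exact ((integrable_const _).add this).div_const _
  have h1 : ∫ x : Fin n → ℝ, ∑ i, (1 + x i ^ 2) / 2 ∂(gm n) = (n : ℝ) := by
    rw [integral_finsetSum _ (fun i _ => hi i)]
    have : ∀ i : Fin n, ∫ x : Fin n → ℝ, (1 + x i ^ 2) / 2 ∂(gm n) = 1 := by
      intro i
      unfold gm
      rw [integral_comp_eval (μ := fun _ : Fin n => gaussianReal 0 1) (i := i)
        (f := fun t : ℝ => (1 + t ^ 2) / 2)]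
      · rw [integral_div, integral_add (integrable_const _) gauss_sq_int, gauss_sq]
        simp
      · fun_prop
    simp [this]
  have h2 := mul_meas_ge_le_integral_of_nonneg (μ := gm n)
    (f := fun x => ∑ i, (1 + x i ^ 2) / 2)
    (Filter.Eventually.of_forall (fun x => Finset.sum_nonneg (fun i _ => by positivity)))
    (integrable_finsetSum _ (fun i _ => hi i)) (2 * n)
  rw [h1] at h2
  have hn' : (0 : ℝ) < n := by exact_mod_cast hn
  have h3 : (gm n).real {x | 2 * (n : ℝ) ≤ ∑ i, (1 + x i ^ 2) / 2} ≤ 1 / 2 := by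
    nlinarith
  have hsub : (Set.univ : Set (Fin n → ℝ)) ⊆ {x | ∑ i, |x i| ≤ 2 * n} ∪
      {x | 2 * (n : ℝ) ≤ ∑ i, (1 + x i ^ 2) / 2} := by
    intro x _
    by_cases h : 2 * (n : ℝ) ≤ ∑ i, (1 + x i ^ 2) / 2
    · right; exact h
    · left
      push Not at h
      refine le_trans (Finset.sum_le_sum (fun i _ => ?_)) h.le
      nlinarith [sq_nonneg (|x i| - 1), sq_abs (x i)]
  have h4 := le_trans (measureReal_mono (μ := gm n) hsub) (measureReal_union_le _ _)
  rw [probReal_univ] at h4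
  linarith

end Pool.Agent.Helper42.Pis
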