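import Mathlib
import Pool.Agent.Helper42.Pis.Cube

set_option autoImplicit false

open Finset

namespace Pool.Agent.Helper42.Pis

lemma WW_repr (β : ℝ) (h0 : 0 ≤ β) (h1 : β ≤ 1) {n : ℕ} (L : ℕ) :
    ∃ c : Q n → Q n → ℝ, (∀ J J', 0 ≤ c J J') ∧
      ∀ (G : Q n → ℝ) (J : Q n), (WW β)^[L] G J = ∑ J', c J J' * G J' := by
  classical
  induction L with
  | zero =>
    refine ⟨fun J J' => if J = J' then 1 else 0, fun J J' => by beta_reduce; split_ifs <;> norm_num, ?_⟩
    intro G J
    simp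
  | succ L ih =>
    obtain ⟨c, hc0, hc⟩ := ih
    refine ⟨fun J J' => ∑ I, W β I * c (sd J I) J', ?_, ?_⟩
    · intro J J'
      exact Finset.sum_nonneg (fun I _ => mul_nonneg (W_nonneg h0 h1 I) (hc0 _ _))
    · intro G J
      rw [Function.iterate_succ_apply']
      change ∑ I, W β I * ((WW β)^[L] G) (sd J I) = _
      simp only [hc, Finset.mul_sum, Finset.sum_mul]
      rw [Finset.sum_comm]
      refine Finset.sum_congr rfl (fun J' _ => ?_)
      refine Finset.sum_congr rfl (fun I _ => ?_)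
      ring

lemma WW_one (β : ℝ) {n : ℕ} (L : ℕ) (a : ℝ) (J : Q n) : (WW β)^[L] (fun _ => a) J = a := by
  induction L generalizing J with
  | zero => rfl
  | succ L ih =>
    rw [Function.iterate_succ_apply']
    change ∑ I, W β I * ((WW β)^[L] (fun _ => a)) (sd J I) = _
    simp only [ih, ← Finset.sum_mul, sum_W, one_mul]

/-- product test function -/
noncomputable def HH {n : ℕ} (c : ℝ) (J : Q n) : ℝ := ∏ i, if J i then c else 4

lemma WW_HH (β c : ℝ) {n : ℕ} : WW β (HH c : Q n → ℝ) = HH ((1 - β) * c + β * 4) := by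
  funext J
  unfold WW HH W
  simp only [← Finset.prod_mul_distrib]
  have h := Finset.prod_univ_sum (fun _ : Fin n => (Finset.univ : Finset Bool))
    (fun i b => wt β b * (if (J i && !b) then c else 4))
  rw [Fintype.piFinset_univ] at h
  have e : ∀ I : Q n, ∏ i, wt β (I i) * (if sd J I i = true then c else 4) =
      ∏ i, wt β (I i) * (if (J i && !(I i)) = true then c else 4) := by
    intro I; rfl
  simp only [e]
  rw [← h]
  refine Finset.prod_congr rfl (fun i _ => ?_)
  rw [Fintype.sum_bool]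
  cases hJ : J i
  · simp [wt]; ring
  · simp [wt]; ring

lemma WW_HH_iter (β c : ℝ) {n : ℕ} (L : ℕ) :
    (WW β)^[L] (HH c : Q n → ℝ) = HH (4 - (1 - β) ^ L * (4 - c)) := by
  induction L with
  | zero => simp
  | succ L ih =>
    rw [Function.iterate_succ_apply', ih, WW_HH]
    congr 1
    ring

lemma chernoff (β : ℝ) (h0 : 0 ≤ β) (h1 : β ≤ 1) (L : ℕ) (hL : L * β ≤ 1 / 8) {n : ℕ}
    (G : Q n → ℝ) (hG0 : ∀ J, 0 ≤ G J) (hG1 : ∀ J, G J ≤ 1) :
    ∃ J : Q n, 2 * (Finset.univ.filter (fun i => J i = false)).card ≤ n ∧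
      (WW β)^[L] G (fun _ => true) ≤ G J + (11 / 16) ^ n := by
  classical
  obtain ⟨J0, hJ0, hmax⟩ := Finset.exists_max_image
    (Finset.univ.filter (fun J : Q n => 2 * (Finset.univ.filter (fun i => J i = false)).card ≤ n)) G
    ⟨fun _ => true, by simp⟩
  simp only [Finset.mem_filter, Finset.mem_univ, true_and] at hJ0 hmax
  refine ⟨J0, hJ0, ?_⟩
  have hHH : ∀ J : Q n, HH 1 J = 4 ^ (Finset.univ.filter (fun i => J i = false)).card := by
    intro J
    unfold HH
    rw [Finset.prod_ite]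
    simp
  have hpt : ∀ J : Q n, G J ≤ G J0 * 1 + (1 / 2 ^ n) * HH 1 J := by
    intro J
    by_cases hJ : 2 * (Finset.univ.filter (fun i => J i = false)).card ≤ n
    · have := hmax J hJ
      have h2 : 0 ≤ (1 / 2 ^ n : ℝ) * HH 1 J := by rw [hHH]; positivity
      linarith
    · push Not at hJ
      have h3 : (2 : ℝ) ^ n ≤ HH 1 J := by
        rw [hHH, show (4 : ℝ) = 2 ^ 2 by norm_num, ← pow_mul]
        exact pow_le_pow_right₀ (by norm_num) hJ.le
      have h4 : (1 : ℝ) ≤ (1 / 2 ^ n) * HH 1 J := by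
        rw [one_div, inv_mul_eq_div, le_div_iff₀ (by positivity), one_mul]; exact h3
      have := hG0 J0
      have := hG1 J
      linarith
  obtain ⟨c, hc0, hc⟩ := WW_repr β h0 h1 (n := n) L
  have hone : ∑ J', c (fun _ => true) J' * (1 : ℝ) = 1 := by
    rw [← hc (fun _ => 1), WW_one]
  have hh : ∑ J', c (fun _ => true) J' * HH 1 J' = (4 - (1 - β) ^ L * (4 - 1)) ^ n := by
    rw [← hc (HH 1), WW_HH_iter]
    unfold HH
    simp
  rw [hc]
  calc ∑ J', c (fun _ => true) J' * G J'
      ≤ ∑ J', c (fun _ => true) J' * (G J0 * 1 + (1 / 2 ^ n) * HH 1 J') :=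
        Finset.sum_le_sum (fun J' _ => mul_le_mul_of_nonneg_left (hpt J') (hc0 _ _))
    _ = G J0 * (∑ J', c (fun _ => true) J' * (1 : ℝ)) + (1 / 2 ^ n) * ∑ J', c (fun _ => true) J' * HH 1 J' := by
        rw [Finset.mul_sum, Finset.mul_sum, ← Finset.sum_add_distrib]
        refine Finset.sum_congr rfl (fun J' _ => ?_)
        ring
    _ = G J0 + ((4 - (1 - β) ^ L * 3) / 2) ^ n := by
        rw [hone, hh, div_pow]; norm_num; ring
    _ ≤ G J0 + (11 / 16) ^ n := by
        refine add_le_add le_rfl ?_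
        have hb : 1 - (L : ℝ) * β ≤ (1 - β) ^ L := by
          have := one_add_mul_le_pow (a := -β) (by linarith) L
          calc 1 - (L : ℝ) * β = 1 + L * (-β) := by ring
            _ ≤ (1 + -β) ^ L := this
            _ = (1 - β) ^ L := by ring
        have hb2 : (1 - β) ^ L ≤ 1 := pow_le_one₀ (by linarith) (by linarith)
        apply pow_le_pow_left₀
        · linarith
        · linarith

end Pool.Agent.Helper42.Pis
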