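import Mathlib
import Pool.Agent.Helper42.Pis.WWFacts
import Pool.Agent.Helper42.Pis.Gauss2

set_option autoImplicit false

open Finset MeasureTheory ProbabilityTheory

namespace Pool.Agent.Helper42.Pis

variable {E : Type*} [AddCommGroup E] [Module ℝ E]

/-- masked linear combination -/
noncomputable def lc {n : ℕ} (a : Fin n → E) (J : Q n) (g : Fin n → ℝ) : E :=
  ∑ i, if J i then g i • a i else 0

lemma vv_lc {n : ℕ} (a : Fin n → E) (J e : Q n) (g : Fin n → ℝ) :
    vv (fun i => g i • a i) J e = lc a J (fun i => sg (e i) * g i) := by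
  unfold vv lc
  refine Finset.sum_congr rfl (fun i _ => ?_)
  split_ifs
  · rw [smul_smul]
  · rfl

lemma Norming.le_iff {M : ℕ} {p : E → ℝ} {y : Fin M → E →ₗ[ℝ] ℝ} (hp : Norming M p y) (v : E) (t : ℝ) :
    p v ≤ t ↔ ∀ j, y j v ≤ t := by
  constructor
  · intro h j; exact le_trans (hp.le j v) h
  · intro h
    obtain ⟨j, hj⟩ := hp.ex v
    rw [← hj]; exact h j

lemma meas_lc {M : ℕ} {p : E → ℝ} {y : Fin M → E →ₗ[ℝ] ℝ} (hp : Norming M p y) {n : ℕ}
    (a : Fin n → E) (J : Q n) (t : ℝ) : MeasurableSet {g : Fin n → ℝ | p (lc a J g) ≤ t} := by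
  have e : {g : Fin n → ℝ | p (lc a J g) ≤ t} =
      ⋂ j, {g : Fin n → ℝ | ∑ i, (if J i then g i * y j (a i) else 0) ≤ t} := by
    ext g
    simp only [Set.mem_ofPred_eq, Set.mem_iInter]
    rw [hp.le_iff]
    refine forall_congr' (fun j => ?_)
    have : y j (lc a J g) = ∑ i, (if J i then g i * y j (a i) else 0) := by
      unfold lc
      rw [map_sum]
      refine Finset.sum_congr rfl (fun i _ => ?_)
      split_ifs <;> simp
    rw [this]
  rw [e]
  refine MeasurableSet.iInter (fun j => measurableSet_le ?_ measurable_const)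
  refine Finset.measurable_sum _ (fun i _ => ?_)
  split_ifs
  · exact (measurable_pi_apply i).mul_const _
  · exact measurable_const

/-- Gaussian probability -/
noncomputable def PG {n : ℕ} (p : E → ℝ) (a : Fin n → E) (t : ℝ) (J : Q n) : ℝ :=
  (gm n).real {g | p (lc a J g) ≤ t}

lemma PB_eq {n : ℕ} (p : E → ℝ) (a : Fin n → E) (t : ℝ) (J : Q n) (g : Fin n → ℝ) :
    PB p (fun i => g i • a i) t J =
      avg (fun e => Set.indicator {g : Fin n → ℝ | p (lc a J (fun i => sg (e i) * g i)) ≤ t} (fun _ => (1 : ℝ)) g) := by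
  unfold PB
  congr 1
  funext e
  rw [vv_lc]
  by_cases h : p (lc a J fun i => sg (e i) * g i) ≤ t
  · rw [if_pos h, Set.indicator_of_mem (by exact h)]
  · rw [if_neg h, Set.indicator_of_notMem (by exact h)]

lemma PB_range {n : ℕ} (p : E → ℝ) (x : Fin n → E) (t : ℝ) (J : Q n) :
    0 ≤ PB p x t J ∧ PB p x t J ≤ 1 := by
  unfold PB
  constructor
  · apply avg_nonneg
    intro e; split_ifs <;> norm_num
  · refine le_trans (avg_mono (g := fun _ => (1 : ℝ)) ?_) (le_of_eq (avg_const 1))
    intro e; split_ifs <;> norm_num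

lemma PB_meas {M : ℕ} {p : E → ℝ} {y : Fin M → E →ₗ[ℝ] ℝ} (hp : Norming M p y) {n : ℕ}
    (a : Fin n → E) (J : Q n) (t : ℝ) :
    Measurable (fun g : Fin n → ℝ => PB p (fun i => g i • a i) t J) := by
  simp only [PB_eq]
  unfold avg
  refine Measurable.div_const ?_ _
  refine Finset.measurable_sum _ (fun e _ => ?_)
  refine Measurable.indicator measurable_const ?_
  exact (gm_sign e).measurable (meas_lc hp a J t)

lemma PB_int {M : ℕ} {p : E → ℝ} {y : Fin M → E →ₗ[ℝ] ℝ} (hp : Norming M p y) {n : ℕ}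
    (a : Fin n → E) (J : Q n) (t : ℝ) :
    Integrable (fun g : Fin n → ℝ => PB p (fun i => g i • a i) t J) (gm n) := by
  refine Integrable.of_bound (PB_meas hp a J t).aestronglyMeasurable 1 (Filter.Eventually.of_forall (fun g => ?_))
  rw [Real.norm_of_nonneg (PB_range _ _ _ _).1]
  exact (PB_range _ _ _ _).2

lemma PB_integral {M : ℕ} {p : E → ℝ} {y : Fin M → E →ₗ[ℝ] ℝ} (hp : Norming M p y) {n : ℕ}
    (a : Fin n → E) (J : Q n) (t : ℝ) :
    ∫ g, PB p (fun i => g i • a i) t J ∂(gm n) = PG p a t J := by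
  simp only [PB_eq]
  unfold avg
  rw [integral_div, integral_finsetSum]
  · have : ∀ e : Q n, ∫ g, Set.indicator {g : Fin n → ℝ | p (lc a J (fun i => sg (e i) * g i)) ≤ t}
        (fun _ => (1 : ℝ)) g ∂(gm n) = PG p a t J := by
      intro e
      have hm : MeasurableSet {g : Fin n → ℝ | p (lc a J (fun i => sg (e i) * g i)) ≤ t} :=
        (gm_sign e).measurable (meas_lc hp a J t)
      rw [integral_indicator_const _ hm, smul_eq_mul, mul_one]
      unfold PG
      rw [measureReal_def, measureReal_def, ← (gm_sign e).measure_preimage (meas_lc hp a J t).nullMeasurableSet]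
      rfl
    simp only [this, Finset.sum_const, Finset.card_univ, Fintype.card_fun, Fintype.card_bool,
      Fintype.card_fin, nsmul_eq_mul]
    push_cast
    field_simp
  · intro e _
    refine Integrable.indicator (integrable_const _) ?_
    exact (gm_sign e).measurable (meas_lc hp a J t)

theorem gauss_rounds {M : ℕ} {p : E → ℝ} {y : Fin M → E →ₗ[ℝ] ℝ} (hp : Norming M p y)
    (k : ℕ) (hk : Cot k p)
    (r : ℕ) (hr : 1 ≤ r) (β : ℝ) (hβ : 1 / (2 * (r : ℝ)) ≤ β) (hβ' : β ≤ 1 / 2)
    {n : ℕ} (a : Fin n → E) (s : ℕ) :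
    PG p a 1 (fun _ => true) ^ (ea r (k * s)) / (M : ℝ) ^ (eb r (k * s)) ≤
      (WW β)^[k * s] (PG p a (1 / 2 ^ s)) (fun _ => true) := by
  classical
  have hβ0 : 0 ≤ β := le_trans (by positivity) hβ
  have hpt : ∀ g : Fin n → ℝ, PB p (fun i => g i • a i) 1 (fun _ => true) ^ (ea r (k * s)) / (M : ℝ) ^ (eb r (k * s))
      ≤ (WW β)^[k * s] (PB p (fun i => g i • a i) (1 / 2 ^ s)) (fun _ => true) := by
    intro g
    have h := cube_rounds hp k hk r hr β hβ hβ' (fun i => g i • a i) s 1 (fun _ => true)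
      (Finset.univ.filter (fun e => p (vv (fun i => g i • a i) (fun _ => true) e) ≤ 1))
      (fun e he => (Finset.mem_filter.mp he).2)
    have e1 : mu (Finset.univ.filter (fun e => p (vv (fun i => g i • a i) (fun _ => true) e) ≤ 1)) =
        PB p (fun i => g i • a i) 1 (fun _ => true) := by
      unfold PB
      rw [← avg_ind]
      congr 1
      funext e
      unfold ind
      simp
    rw [e1] at h
    exact h
  obtain ⟨c, hc0, hc⟩ := WW_repr β hβ0 (by linarith) (n := n) (k * s)
  rw [hc]
  simp only [hc] at hpt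
  have hR : ∫ g, ∑ J', c (fun _ => true) J' * PB p (fun i => g i • a i) (1 / 2 ^ s) J' ∂(gm n)
      = ∑ J', c (fun _ => true) J' * PG p a (1 / 2 ^ s) J' := by
    rw [integral_finsetSum]
    · refine Finset.sum_congr rfl (fun J' _ => ?_)
      rw [integral_const_mul, PB_integral hp]
    · intro J' _
      exact (PB_int hp a J' _).const_mul _
  rw [← hR]
  have hJ := (convexOn_pow (𝕜 := ℝ) (ea r (k * s))).map_integral_le (μ := gm n)
    (f := fun g => PB p (fun i => g i • a i) 1 (fun _ => true))
    ((continuous_pow _).continuousOn) isClosed_Ici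
    (Filter.Eventually.of_forall (fun g => (PB_range _ _ _ _).1))
    (PB_int hp a _ _) (by
      refine Integrable.of_bound ((PB_meas hp a _ _).pow_const _).aestronglyMeasurable 1
        (Filter.Eventually.of_forall (fun g => ?_))
      simp only [Function.comp]
      have h1 := PB_range p (fun i => g i • a i) 1 (fun _ => true)
      rw [Real.norm_of_nonneg (pow_nonneg h1.1 _)]
      exact pow_le_one₀ h1.1 h1.2)
  rw [PB_integral hp] at hJ
  have hint : Integrable (fun g => PB p (fun i => g i • a i) 1 (fun _ => true) ^ (ea r (k * s)) /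
      (M : ℝ) ^ (eb r (k * s))) (gm n) := by
    refine Integrable.div_const ?_ _
    refine Integrable.of_bound ((PB_meas hp a _ _).pow_const _).aestronglyMeasurable 1
        (Filter.Eventually.of_forall (fun g => ?_))
    have h1 := PB_range p (fun i => g i • a i) 1 (fun _ => true)
    rw [Real.norm_of_nonneg (pow_nonneg h1.1 _)]
    exact pow_le_one₀ h1.1 h1.2
  have hint2 : Integrable (fun g => ∑ J', c (fun _ => true) J' * PB p (fun i => g i • a i) (1 / 2 ^ s) J') (gm n) := by
    refine integrable_finsetSum _ (fun J' _ => ?_)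
    exact (PB_int hp a J' _).const_mul _
  have h3 := integral_mono hint hint2 hpt
  rw [integral_div] at h3
  refine le_trans ?_ h3
  apply div_le_div_of_nonneg_right hJ
  positivity

end Pool.Agent.Helper42.Pis
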