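import Mathlib

set_option autoImplicit false

namespace Pool.Agent.Helper42.Pis

/-- Rademacher cotype `q` with constant `C` (quadratic average over all signs). -/
def HasCotype (q C : ℝ) (X : Type*) [NormedAddCommGroup X] [NormedSpace ℝ X] : Prop :=
  ∀ (m : ℕ) (x : Fin m → X),
    (∑ i, ‖x i‖ ^ q) ^ (1 / q) ≤
      C * ((∑ e : Fin m → Bool, ‖∑ i, (if e i then (1 : ℝ) else -1) • x i‖ ^ 2) / 2 ^ m) ^ (1 / 2 : ℝ)

end Pool.Agent.Helper42.Pis
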