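import Mathlib
import Pool.Agent.Helper42.Pis.Cube
import Pool.Agent.Helper42.Pis.Gauss2
import Pool.Agent.Helper42.Pis.CotypeDef

set_option autoImplicit false

open MeasureTheory

namespace Pool.Agent.Helper42.Pis

/-- symmetric convex body -/
structure Body {n : ℕ} (K : Set (Fin n → ℝ)) : Prop where
  conv : Convex ℝ K
  symm : ∀ x ∈ K, -x ∈ K
  closed : IsClosed K
  bdd : Bornology.IsBounded K
  nhd : K ∈ nhds (0 : Fin n → ℝ)

/-- there is an invertible matrix `A` with `P(Ag ∈ K) ≥ exp(-δ n)` and `log |det A| ≥ v`. -/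
def Good {n : ℕ} (K : Set (Fin n → ℝ)) (δ v : ℝ) : Prop :=
  ∃ A : Matrix (Fin n) (Fin n) ℝ, A.det ≠ 0 ∧
    Real.exp (-δ * n) ≤ (gm n).real {x | A.mulVec x ∈ K} ∧ v ≤ Real.log |A.det|

end Pool.Agent.Helper42.Pis
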