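import Mathlib
import Pool.Agent.Helper42.Pis.CotGauss
import Pool.Agent.Helper42.Pis.Defs

set_option autoImplicit false

open Finset MeasureTheory ProbabilityTheory

namespace Pool.Agent.Helper42.Pis

lemma mulVec_meas {n : ℕ} (A : Matrix (Fin n) (Fin n) ℝ) : Measurable (fun x : Fin n → ℝ => A.mulVec x) :=
  (LinearMap.continuous_of_finiteDimensional (Matrix.toLin' A)).measurable

lemma combine_diag {n : ℕ} (A : Matrix (Fin n) (Fin n) ℝ) (b : Fin n → ℝ) {K : Set (Fin n → ℝ)}
    (hconv : Convex ℝ K) (hK : MeasurableSet K) :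
    (gm n).real {x | A.mulVec x ∈ K} * (gm n).real {x | A.mulVec (fun i => b i * x i) ∈ K} ≤
      (gm n).real {x | A.mulVec (fun i => (Real.sqrt (1 + b i ^ 2) / 2) * x i) ∈ K} := by
  set U1 := {x : Fin n → ℝ | A.mulVec x ∈ K} with hU1
  set U2 := {x : Fin n → ℝ | A.mulVec (fun i => b i * x i) ∈ K} with hU2
  set U3 := {x : Fin n → ℝ | A.mulVec (fun i => (Real.sqrt (1 + b i ^ 2) / 2) * x i) ∈ K} with hU3
  have hb : ∀ i, 0 < Real.sqrt (1 + b i ^ 2) := fun i => Real.sqrt_pos.mpr (by positivity)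
  have hb2 : ∀ i, Real.sqrt (1 + b i ^ 2) ^ 2 = 1 + b i ^ 2 := fun i => Real.sq_sqrt (by positivity)
  have hmp := gm_avg (n := n) (fun i => 1 / Real.sqrt (1 + b i ^ 2)) (fun i => b i / Real.sqrt (1 + b i ^ 2))
    (fun i => by
      rw [div_pow, div_pow, hb2]
      have : (0 : ℝ) < 1 + b i ^ 2 := by positivity
      field_simp)
  have hm3 : MeasurableSet U3 := by
    have h1 : Measurable (fun x : Fin n → ℝ => fun i => (Real.sqrt (1 + b i ^ 2) / 2) * x i) := by fun_prop
    exact ((mulVec_meas A).comp h1) hK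
  have h1 := hmp.measure_preimage hm3.nullMeasurableSet
  have hsub : U1 ×ˢ U2 ⊆ (fun z : (Fin n → ℝ) × (Fin n → ℝ) => fun i =>
      1 / Real.sqrt (1 + b i ^ 2) * z.1 i + b i / Real.sqrt (1 + b i ^ 2) * z.2 i) ⁻¹' U3 := by
    rintro ⟨x, y⟩ ⟨hx, hy⟩
    simp only [Set.mem_preimage, hU3, Set.mem_ofPred_eq]
    have e : (fun i => (Real.sqrt (1 + b i ^ 2) / 2) * (1 / Real.sqrt (1 + b i ^ 2) * x i +
        b i / Real.sqrt (1 + b i ^ 2) * y i)) = (1 / 2 : ℝ) • x + (1 / 2 : ℝ) • (fun i => b i * y i) := by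
      funext i
      simp only [Pi.add_apply, Pi.smul_apply, smul_eq_mul]
      have := (hb i).ne'
      field_simp
    rw [e, Matrix.mulVec_add, Matrix.mulVec_smul, Matrix.mulVec_smul]
    exact hconv hx hy (by norm_num) (by norm_num) (by norm_num)
  have h2 : gm n U1 * gm n U2 ≤ gm n U3 := by
    rw [← h1, ← Measure.prod_prod]
    exact measure_mono hsub
  rw [measureReal_def, measureReal_def, measureReal_def, ← ENNReal.toReal_mul]
  exact ENNReal.toReal_mono (measure_ne_top _ _) h2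

lemma Norming.smul {E : Type*} [AddCommGroup E] [Module ℝ E] {M : ℕ} {p : E → ℝ}
    {y : Fin M → E →ₗ[ℝ] ℝ} (hp : Norming M p y) (c : ℝ) (hc : 0 < c) (v : E) : p (c • v) = c * p v := by
  apply le_antisymm
  · obtain ⟨j, hj⟩ := hp.ex (c • v)
    rw [← hj, map_smul, smul_eq_mul]
    exact mul_le_mul_of_nonneg_left (hp.le j v) hc.le
  · obtain ⟨j, hj⟩ := hp.ex v
    rw [← hj, ← smul_eq_mul, ← map_smul]
    exact hp.le j _

lemma Norming.convex {E : Type*} [AddCommGroup E] [Module ℝ E] {M : ℕ} {p : E → ℝ}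
    {y : Fin M → E →ₗ[ℝ] ℝ} (hp : Norming M p y) (t : ℝ) : Convex ℝ {v | p v ≤ t} := by
  intro u hu v hv a b ha hb hab
  simp only [Set.mem_ofPred_eq] at hu hv ⊢
  rw [hp.le_iff] at hu hv ⊢
  intro j
  rw [map_add, map_smul, map_smul, smul_eq_mul, smul_eq_mul]
  have h1 := mul_le_mul_of_nonneg_left (hu j) ha
  have h2 := mul_le_mul_of_nonneg_left (hv j) hb
  have : a * t + b * t = t := by rw [← add_mul, hab, one_mul]
  linarith

lemma Norming.isClosed {n M : ℕ} {p : (Fin n → ℝ) → ℝ}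
    {y : Fin M → (Fin n → ℝ) →ₗ[ℝ] ℝ} (hp : Norming M p y) (t : ℝ) : IsClosed {v | p v ≤ t} := by
  have e : {v | p v ≤ t} = ⋂ j, {v | y j v ≤ t} := by
    ext v
    simp only [Set.mem_ofPred_eq, Set.mem_iInter]
    exact hp.le_iff v t
  rw [e]
  exact isClosed_iInter (fun j => isClosed_le ((y j).continuous_of_finiteDimensional) continuous_const)

lemma lc_cols {n : ℕ} (A : Matrix (Fin n) (Fin n) ℝ) (J : Q n) (g : Fin n → ℝ) :
    lc (fun i => fun j => A j i) J g = A.mulVec (fun i => if J i then g i else 0) := by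
  funext j
  unfold lc Matrix.mulVec dotProduct
  rw [Finset.sum_apply]
  refine Finset.sum_congr rfl (fun i _ => ?_)
  cases hJ : J i
  · simp [hJ]
  · simp [hJ, mul_comm]

theorem cot_step (k : ℕ) (hk1 : 1 ≤ k) : ∃ Mc : ℝ, 1 ≤ Mc ∧ ∃ δ0 : ℝ, 0 < δ0 ∧
    ∀ (n N : ℕ) (p : (Fin n → ℝ) → ℝ) (y : Fin (2 * N) → (Fin n → ℝ) →ₗ[ℝ] ℝ),
      Norming (2 * N) p y → Cot k p → ∀ δ : ℝ, Real.log (2 * N) ≤ δ * n → δ ≤ δ0 → 1 ≤ δ * n →
      ∀ v, Good {x | p x ≤ 1} δ v → Good {x | p x ≤ 1} (Mc * δ) (v + n * Real.log 2) := by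
  classical
  have hk' : (1 : ℝ) ≤ k := by exact_mod_cast hk1
  set r := 16 * k with hr
  have hr1 : 1 ≤ r := by omega
  set β : ℝ := 1 / (2 * (r : ℝ)) with hβ
  have hrR : (r : ℝ) = 16 * k := by rw [hr]; push_cast; ring
  have hβ0 : 0 < β := by rw [hβ, hrR]; positivity
  have hβ2 : β ≤ 1 / 2 := by
    rw [hβ, hrR]
    apply div_le_div_of_nonneg_left (by norm_num) (by norm_num)
    nlinarith
  set a1 : ℕ := ea r (k * 4) with ha1
  set b1 : ℕ := eb r (k * 4) with hb1
  refine ⟨(a1 : ℝ) + b1 + 2, by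
    have : (0 : ℝ) ≤ a1 := Nat.cast_nonneg _
    have : (0 : ℝ) ≤ b1 := Nat.cast_nonneg _
    linarith, 1 / (10 * ((a1 : ℝ) + b1 + 2)), by positivity, ?_⟩
  intro n N p y hp hk δ hN hδ0 hδn v ⟨A, hA, hAp, hAv⟩
  have hMpos : 0 < 2 * N := by
    obtain ⟨j, -⟩ := hp.ex 0
    exact lt_of_le_of_lt (Nat.zero_le _) j.2
  have hMpos' : (0 : ℝ) < 2 * N := by exact_mod_cast hMpos
  have hn0 : (0 : ℝ) ≤ n := Nat.cast_nonneg _
  have hδpos : 0 < δ := by
    by_contra h
    push Not at h
    have : δ * n ≤ 0 := mul_nonpos_of_nonpos_of_nonneg h hn0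
    linarith
  have hnpos : (0 : ℝ) < n := by
    rcases eq_or_lt_of_le hn0 with h | h
    · rw [← h] at hδn; simp at hδn; linarith
    · exact h
  have ha0 : (0 : ℝ) ≤ a1 := Nat.cast_nonneg _
  have hb0 : (0 : ℝ) ≤ b1 := Nat.cast_nonneg _
  set a : Fin n → (Fin n → ℝ) := fun i => fun j => A j i with ha
  have h1 := gauss_rounds hp k hk r hr1 β (le_of_eq hβ.symm) hβ2 a 4
  obtain ⟨J, hJcard, hJ⟩ := chernoff β hβ0.le (by linarith) (k * 4) (by
    rw [hβ, hrR]; push_cast
    rw [mul_one_div, div_le_div_iff₀ (by positivity) (by norm_num)]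
    nlinarith) (PG p a (1 / 2 ^ 4))
    (fun J => measureReal_nonneg) (fun J => measureReal_le_one)
  have h2 := le_trans h1 hJ
  -- PG full
  have hfull : PG p a 1 (fun _ => true) = (gm n).real {x | A.mulVec x ∈ {x | p x ≤ 1}} := by
    unfold PG
    congr 1
    ext g
    simp only [Set.mem_ofPred_eq]
    rw [ha, lc_cols]
    simp
  rw [← hfull] at hAp
  -- lower bound
  set c := (a1 : ℝ) + b1 with hc
  have hlow : Real.exp (-(c * δ) * n) ≤ PG p a 1 (fun _ => true) ^ a1 / ((2 * N : ℕ) : ℝ) ^ b1 := by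
    have e1 : Real.exp (-(c * δ) * n) = Real.exp (-δ * n) ^ a1 / Real.exp (δ * n) ^ b1 := by
      rw [← Real.exp_nat_mul, ← Real.exp_nat_mul, ← Real.exp_sub]
      congr 1
      rw [hc]; ring
    rw [e1]
    have hM2 : ((2 * N : ℕ) : ℝ) ≤ Real.exp (δ * n) := by
      push_cast
      rw [← Real.exp_log hMpos']
      exact Real.exp_le_exp.mpr hN
    apply div_le_div₀
    · exact pow_nonneg measureReal_nonneg _
    · exact pow_le_pow_left₀ (Real.exp_pos _).le hAp _
    · push_cast; positivity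
    · exact pow_le_pow_left₀ (by positivity) hM2 _
  -- numerics
  have hcδ : c * δ * n ≤ n / 10 := by
    have : (c + 2) * δ ≤ 1 / 10 := by
      have h3 : (c + 2) * δ ≤ (c + 2) * (1 / (10 * ((a1 : ℝ) + b1 + 2))) :=
        mul_le_mul_of_nonneg_left hδ0 (by rw [hc]; positivity)
      refine le_trans h3 (le_of_eq ?_)
      rw [hc]; field_simp
    nlinarith
  have hn20 : (20 : ℝ) ≤ n := by
    have h3 : δ ≤ 1 / 20 := by
      refine le_trans hδ0 ?_
      apply div_le_div_of_nonneg_left (by norm_num) (by norm_num)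
      linarith
    nlinarith
  have hsmall : (11 / 16 : ℝ) ^ n ≤ (1 / 2) * Real.exp (-(c * δ) * n) := by
    have e1 : (11 / 16 : ℝ) ≤ Real.exp (-(1 / 5)) := by
      have := Real.one_sub_le_exp_neg (1 / 5)
      linarith
    have e2 : (11 / 16 : ℝ) ^ n ≤ Real.exp (-(1 / 5) * n) := by
      rw [mul_comm, Real.exp_nat_mul]
      exact pow_le_pow_left₀ (by norm_num) e1 n
    have e3 : (1 / 2 : ℝ) = Real.exp (- Real.log 2) := by
      rw [Real.exp_neg, Real.exp_log (by norm_num)]; norm_num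
    refine le_trans e2 ?_
    rw [e3, ← Real.exp_add]
    apply Real.exp_le_exp.mpr
    have hl2 := Real.log_two_lt_d9
    nlinarith
  have hPJ : Real.exp (-((c + 1) * δ) * n) ≤ PG p a (1 / 2 ^ 4) J := by
    have h3 : (1 / 2) * Real.exp (-(c * δ) * n) ≤ PG p a (1 / 2 ^ 4) J := by linarith
    refine le_trans ?_ h3
    have e3 : (1 / 2 : ℝ) = Real.exp (- Real.log 2) := by
      rw [Real.exp_neg, Real.exp_log (by norm_num)]; norm_num
    rw [e3, ← Real.exp_add]
    apply Real.exp_le_exp.mpr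
    have hl2 := Real.log_two_lt_d9
    nlinarith
  -- the new matrix
  set b : Fin n → ℝ := fun i => if J i then 16 else 0 with hb
  set D : Fin n → ℝ := fun i => Real.sqrt (1 + b i ^ 2) / 2 with hD
  have hset : PG p a (1 / 2 ^ 4) J = (gm n).real {x | A.mulVec (fun i => b i * x i) ∈ {x | p x ≤ 1}} := by
    unfold PG
    congr 1
    ext g
    simp only [Set.mem_ofPred_eq]
    rw [ha, lc_cols]
    have e1 : (fun i => b i * g i) = (16 : ℝ) • (fun i => if J i = true then g i else 0) := by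
      funext i
      simp only [hb, Pi.smul_apply, smul_eq_mul]
      split_ifs <;> ring
    rw [e1, Matrix.mulVec_smul, hp.smul _ (by norm_num)]
    constructor
    · intro h; norm_num at h; linarith
    · intro h; norm_num; linarith
  have hcomb := combine_diag A b (hp.convex 1) (hp.isClosed 1).measurableSet
  rw [← hset, ← hfull] at hcomb
  have hDpos : ∀ i, 0 < D i := fun i => by
    simp only [hD]
    have : 0 < Real.sqrt (1 + b i ^ 2) := Real.sqrt_pos.mpr (by positivity)
    linarith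
  have hdet : (A * Matrix.diagonal D).det = A.det * ∏ i, D i := by
    rw [Matrix.det_mul, Matrix.det_diagonal]
  have hprod : 0 < ∏ i, D i := Finset.prod_pos (fun i _ => hDpos i)
  refine ⟨A * Matrix.diagonal D, ?_, ?_, ?_⟩
  · rw [hdet]
    exact mul_ne_zero hA hprod.ne'
  · have e1 : {x : Fin n → ℝ | (A * Matrix.diagonal D).mulVec x ∈ {x | p x ≤ 1}} =
        {x | A.mulVec (fun i => (Real.sqrt (1 + b i ^ 2) / 2) * x i) ∈ {x | p x ≤ 1}} := by
      ext x
      simp only [Set.mem_ofPred_eq]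
      rw [← Matrix.mulVec_mulVec]
      have : (Matrix.diagonal D).mulVec x = fun i => (Real.sqrt (1 + b i ^ 2) / 2) * x i := by
        funext i
        rw [Matrix.mulVec_diagonal]
      rw [this]
    rw [e1]
    refine le_trans ?_ hcomb
    have e2 : Real.exp (-(((a1 : ℝ) + b1 + 2) * δ) * n) = Real.exp (-δ * n) * Real.exp (-((c + 1) * δ) * n) := by
      rw [← Real.exp_add]; congr 1; rw [hc]; ring
    rw [e2]
    exact mul_le_mul hAp hPJ (Real.exp_pos _).le measureReal_nonneg
  · rw [hdet, abs_mul, Real.log_mul (abs_ne_zero.mpr hA) (abs_ne_zero.mpr hprod.ne'), abs_of_pos hprod,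
      Real.log_prod (fun i _ => (hDpos i).ne')]
    have hlogD : ∀ i, Real.log (D i) = -Real.log 2 + (if J i = true then Real.log 257 / 2 else 0) := by
      intro i
      simp only [hD, hb]
      rw [Real.log_div (by
        have : 0 < Real.sqrt (1 + (if J i = true then (16:ℝ) else 0) ^ 2) := Real.sqrt_pos.mpr (by positivity)
        exact this.ne') (by norm_num), Real.log_sqrt (by positivity)]
      split_ifs
      · norm_num; ring
      · norm_num
    simp only [hlogD]
    rw [Finset.sum_add_distrib]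
    simp only [Finset.sum_const, Finset.card_univ, Fintype.card_fin, nsmul_eq_mul]
    rw [← Finset.sum_filter, Finset.sum_const, nsmul_eq_mul]
    have hcard : ((Finset.univ.filter (fun i => J i = true)).card : ℝ) +
        (Finset.univ.filter (fun i => J i = false)).card = n := by
      have h5 := Finset.card_filter_add_card_filter_not (s := (Finset.univ : Finset (Fin n))) (fun i => J i = true)
      simp only [Bool.not_eq_true, Finset.card_univ, Fintype.card_fin] at h5
      exact_mod_cast h5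
    have hcard2 : 2 * ((Finset.univ.filter (fun i => J i = false)).card : ℝ) ≤ n := by exact_mod_cast hJcard
    have hlog257 : 8 * Real.log 2 ≤ Real.log 257 := by
      have : (8 : ℝ) * Real.log 2 = Real.log (2 ^ 8) := by rw [Real.log_pow]; norm_num
      rw [this]
      apply Real.log_le_log (by norm_num); norm_num
    have hl2 : 0 < Real.log 2 := Real.log_pos (by norm_num)
    have hA2 : (n : ℝ) / 2 ≤ ((Finset.univ.filter (fun i => J i = true)).card : ℝ) := by linarith
    have h6 : (n : ℝ) / 2 * (4 * Real.log 2) ≤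
        ((Finset.univ.filter (fun i => J i = true)).card : ℝ) * (Real.log 257 / 2) :=
      mul_le_mul hA2 (by linarith) (by linarith) (by linarith)
    linarith

end Pool.Agent.Helper42.Pis
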