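import Mathlib
import Pool.Agent.Helper42.Pis.Defs

set_option autoImplicit false

open Finset MeasureTheory

namespace Pool.Agent.Helper42.Pis

/-- TASK 3 -/
theorem body_of_norming {n M : ℕ} {p : (Fin n → ℝ) → ℝ} {y : Fin M → (Fin n → ℝ) →ₗ[ℝ] ℝ}
    (hp : Norming M p y) (hdef : ∀ v, p v ≤ 0 → v = 0) : Body {v | p v ≤ 1} := by
  classical
  obtain ⟨j0, hj0⟩ := hp.ex 0
  have hne : (Finset.univ : Finset (Fin M)).Nonempty := ⟨j0, Finset.mem_univ _⟩
  have hp0 : p 0 = 0 := by rw [← hj0, map_zero]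
  have hpsup : p = fun v => Finset.univ.sup' hne (fun j => y j v) := by
    funext v
    apply le_antisymm
    · obtain ⟨j, hj⟩ := hp.ex v
      rw [← hj]
      exact Finset.le_sup' (fun j => y j v) (Finset.mem_univ j)
    · exact Finset.sup'_le _ _ (fun j _ => hp.le j v)
  have hyc : ∀ j, Continuous (y j) := fun j => LinearMap.continuous_of_finiteDimensional _
  have hcont : Continuous p := by
    rw [hpsup]
    exact Continuous.finset_sup'_apply hne (fun j _ => hyc j)
  have hset : {v : Fin n → ℝ | p v ≤ 1} = ⋂ j, {v | y j v ≤ 1} := by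
    ext v
    simp only [Set.mem_ofPred_eq, Set.mem_iInter]
    constructor
    · intro h j; exact le_trans (hp.le j v) h
    · intro h
      obtain ⟨j, hj⟩ := hp.ex v
      rw [← hj]; exact h j
  have hhom : ∀ (c : ℝ) (v : Fin n → ℝ), 0 ≤ c → p (c • v) = c * p v := by
    intro c v hc
    apply le_antisymm
    · obtain ⟨j, hj⟩ := hp.ex (c • v)
      rw [← hj, map_smul, smul_eq_mul]
      exact mul_le_mul_of_nonneg_left (hp.le j v) hc
    · obtain ⟨j, hj⟩ := hp.ex v
      rw [← hj]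
      have := hp.le j (c • v)
      rwa [map_smul, smul_eq_mul] at this
  constructor
  · rw [hset]
    apply convex_iInter
    intro j
    exact convex_halfSpace_le (y j).isLinear 1
  · intro x hx
    simp only [Set.mem_ofPred_eq] at hx ⊢
    rw [hp.neg]; exact hx
  · exact isClosed_le hcont continuous_const
  · -- boundedness
    rcases Nat.eq_zero_or_pos n with hn | hn
    · subst hn
      exact (Set.finite_univ.subset (Set.subset_univ _)).isBounded
    · have hcomp : IsCompact (Metric.sphere (0 : Fin n → ℝ) 1) := isCompact_sphere 0 1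
      have hnt : Nontrivial (Fin n → ℝ) := by
        have : Nonempty (Fin n) := ⟨⟨0, hn⟩⟩
        infer_instance
      have hsne : (Metric.sphere (0 : Fin n → ℝ) 1).Nonempty :=
        NormedSpace.sphere_nonempty.mpr zero_le_one
      obtain ⟨w, hw, hwmin⟩ := hcomp.exists_isMinOn hsne hcont.continuousOn
      have hw0 : w ≠ 0 := by
        intro h
        rw [h] at hw
        simp at hw
      have hpw : 0 < p w := by
        by_contra h
        exact hw0 (hdef w (not_lt.mp h))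
      refine (Metric.isBounded_closedBall (x := (0 : Fin n → ℝ)) (r := 1 / p w)).subset ?_
      intro v hv
      rw [mem_closedBall_zero_iff]
      rcases eq_or_ne v 0 with h0 | h0
      · rw [h0, norm_zero]; positivity
      · have hnv : 0 < ‖v‖ := norm_pos_iff.mpr h0
        have h1 : (‖v‖⁻¹ • v) ∈ Metric.sphere (0 : Fin n → ℝ) 1 := by
          rw [mem_sphere_zero_iff_norm, norm_smul, norm_inv, norm_norm, inv_mul_cancel₀ hnv.ne']
        have h2 : p w ≤ p (‖v‖⁻¹ • v) := hwmin h1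
        rw [hhom _ _ (by positivity)] at h2
        have h3 : p v ≤ 1 := hv
        rw [le_div_iff₀ hpw]
        have h4 : ‖v‖ * p w ≤ ‖v‖ * (‖v‖⁻¹ * p v) := mul_le_mul_of_nonneg_left h2 hnv.le
        rw [← mul_assoc, mul_inv_cancel₀ hnv.ne', one_mul] at h4
        linarith
  · have h1 : {v : Fin n → ℝ | p v < 1} ∈ nhds (0 : Fin n → ℝ) := by
      apply (isOpen_lt hcont continuous_const).mem_nhds
      simp [hp0]
    refine Filter.mem_of_superset h1 ?_
    intro v hv
    have hv' : p v < 1 := hv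
    exact le_of_lt hv'

/-- TASK 2 -/
theorem reduction {q C D : ℝ} (hq : 2 ≤ q) (hD : 1 ≤ D) (k : ℕ) (hk : (2 * (D * |C|)) ^ q ≤ k)
    (hk1 : 1 ≤ k)
    {n N : ℕ} {X : Type*} [NormedAddCommGroup X] [NormedSpace ℝ X] (hn : 1 ≤ n)
    (hX : Module.finrank ℝ X = n) (hC : HasCotype q C X) (T : X →ₗ[ℝ] (Fin N → ℝ))
    (hT : ∀ x, ‖x‖ ≤ ‖T x‖ ∧ ‖T x‖ ≤ D * ‖x‖) :
    n ≤ N ∧ ∃ (p : (Fin n → ℝ) → ℝ) (y : Fin (2 * N) → (Fin n → ℝ) →ₗ[ℝ] ℝ),
      Norming (2 * N) p y ∧ Cot k p ∧ ∀ v, p v ≤ 0 → v = 0 := by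
  classical
  have hfin : Module.Finite ℝ X := Module.finite_of_finrank_pos (by omega)
  have hinj : Function.Injective T := by
    rw [injective_iff_map_eq_zero]
    intro x hx
    have := (hT x).1
    rw [hx, norm_zero] at this
    exact norm_le_zero_iff.mp this
  have hnN : n ≤ N := by
    have := LinearMap.finrank_le_finrank_of_injective hinj
    rwa [hX, Module.finrank_fin_fun] at this
  refine ⟨hnN, ?_⟩
  have hcard : Module.finrank ℝ X = Module.finrank ℝ (Fin n → ℝ) := by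
    rw [hX, Module.finrank_fin_fun]
  let φ : X ≃ₗ[ℝ] (Fin n → ℝ) := LinearEquiv.ofFinrankEq X (Fin n → ℝ) hcard
  let S : (Fin n → ℝ) →ₗ[ℝ] (Fin N → ℝ) := T ∘ₗ φ.symm.toLinearMap
  have hSdef : ∀ v, S v = T (φ.symm v) := fun v => rfl
  let p : (Fin n → ℝ) → ℝ := fun v => ‖S v‖
  let y : Fin (2 * N) → (Fin n → ℝ) →ₗ[ℝ] ℝ := fun j =>
    if h : j.1 < N then (LinearMap.proj ⟨j.1, h⟩) ∘ₗ S
    else - ((LinearMap.proj ⟨j.1 - N, by omega⟩) ∘ₗ S)
  refine ⟨p, y, ⟨?_, ?_, ?_⟩, ?_, ?_⟩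
  · intro j v
    by_cases h : j.1 < N
    · have e : y j v = S v ⟨j.1, h⟩ := by simp [y, h]
      rw [e]
      exact le_trans (le_abs_self _) (norm_le_pi_norm (S v) _)
    · have e : y j v = - S v ⟨j.1 - N, by omega⟩ := by simp [y, h]
      rw [e]
      exact le_trans (neg_le_abs _) (norm_le_pi_norm (S v) _)
  · intro v
    have hNne : Nonempty (Fin N) := ⟨⟨0, by omega⟩⟩
    obtain ⟨i, hi⟩ : ∃ i, ‖S v‖ = |S v i| := by
      obtain ⟨i, -, hi⟩ := Finset.exists_max_image Finset.univ (fun i => |S v i|)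
        Finset.univ_nonempty
      refine ⟨i, le_antisymm ?_ (norm_le_pi_norm (S v) i)⟩
      rw [pi_norm_le_iff_of_nonneg (abs_nonneg _)]
      intro j
      exact hi j (Finset.mem_univ j)
    rcases abs_cases (S v i) with ⟨h1, -⟩ | ⟨h1, -⟩
    · refine ⟨⟨i.1, by omega⟩, ?_⟩
      show y _ v = ‖S v‖
      have e : y ⟨i.1, by omega⟩ v = S v i := by simp [y]
      rw [e, hi, h1]
    · refine ⟨⟨N + i.1, by omega⟩, ?_⟩
      show y _ v = ‖S v‖
      have e : y ⟨N + i.1, by omega⟩ v = - S v i := by simp [y]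
      rw [e, hi, h1]
  · intro v
    show ‖S (-v)‖ = ‖S v‖
    rw [map_neg, norm_neg]
  · -- cotype
    intro Z t hZ
    by_contra hcon
    push Not at hcon
    have hD0 : 0 < D := by linarith
    have hq0 : 0 < q := by linarith
    have ht0 : 0 ≤ t := le_trans (norm_nonneg _) (hZ (fun _ => true))
    set x : Fin k → X := fun i => φ.symm (Z i) with hx
    have hlow : ∀ i, t / 2 / D < ‖x i‖ := by
      intro i
      rw [div_lt_iff₀ hD0]
      have h1 : t / 2 < ‖S (Z i)‖ := hcon i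
      have h2 := (hT (x i)).2
      have h3 : ‖S (Z i)‖ = ‖T (x i)‖ := rfl
      rw [h3] at h1
      linarith
    have hcot := hC k x
    have hR : C * ((∑ e : Fin k → Bool, ‖∑ i, (if e i then (1 : ℝ) else -1) • x i‖ ^ 2) / 2 ^ k)
        ^ (1 / 2 : ℝ) ≤ |C| * t := by
      have h1 : (∑ e : Fin k → Bool, ‖∑ i, (if e i then (1 : ℝ) else -1) • x i‖ ^ 2) / 2 ^ k
          ≤ t ^ 2 := by
        rw [div_le_iff₀ (by positivity)]
        have : ∀ e : Fin k → Bool, ‖∑ i, (if e i then (1 : ℝ) else -1) • x i‖ ^ 2 ≤ t ^ 2 := by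
          intro e
          apply pow_le_pow_left₀ (norm_nonneg _)
          refine le_trans (hT _).1 ?_
          have h2 := hZ e
          have h3 : φ.symm (∑ i, sg (e i) • Z i) = ∑ i, (if e i then (1 : ℝ) else -1) • x i := by
            rw [map_sum]
            refine Finset.sum_congr rfl fun i _ => ?_
            rw [map_smul]; rfl
          rw [← h3]
          exact h2
        refine le_trans (Finset.sum_le_sum fun e _ => this e) ?_
        simp [mul_comm]
      have h0 : 0 ≤ (∑ e : Fin k → Bool, ‖∑ i, (if e i then (1 : ℝ) else -1) • x i‖ ^ 2) / 2 ^ k := by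
        positivity
      have h2 : ((∑ e : Fin k → Bool, ‖∑ i, (if e i then (1 : ℝ) else -1) • x i‖ ^ 2) / 2 ^ k)
          ^ (1 / 2 : ℝ) ≤ t := by
        rw [← Real.sqrt_eq_rpow]
        rw [Real.sqrt_le_left ht0]
        exact h1
      calc C * ((∑ e : Fin k → Bool, ‖∑ i, (if e i then (1 : ℝ) else -1) • x i‖ ^ 2) / 2 ^ k)
            ^ (1 / 2 : ℝ)
          ≤ |C| * ((∑ e : Fin k → Bool, ‖∑ i, (if e i then (1 : ℝ) else -1) • x i‖ ^ 2) / 2 ^ k)
            ^ (1 / 2 : ℝ) := by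
            apply mul_le_mul_of_nonneg_right (le_abs_self C)
            exact Real.rpow_nonneg h0 _
        _ ≤ |C| * t := mul_le_mul_of_nonneg_left h2 (abs_nonneg C)
    have hkk : (0 : ℝ) < k := by exact_mod_cast hk1
    have hs0 : 0 ≤ t / 2 / D := by positivity
    have hsum : (k : ℝ) * (t / 2 / D) ^ q < ∑ i, ‖x i‖ ^ q := by
      have hne : (Finset.univ : Finset (Fin k)).Nonempty := ⟨⟨0, hk1⟩, Finset.mem_univ _⟩
      have := Finset.sum_lt_sum_of_nonempty hne (f := fun _ => (t / 2 / D) ^ q)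
        (g := fun i => ‖x i‖ ^ q) (fun i _ => Real.rpow_lt_rpow hs0 (hlow i) hq0)
      simpa using this
    have hsum0 : 0 ≤ ∑ i, ‖x i‖ ^ q := Finset.sum_nonneg fun i _ => Real.rpow_nonneg (norm_nonneg _) _
    have h1 : ∑ i, ‖x i‖ ^ q ≤ (|C| * t) ^ q := by
      have h2 : (∑ i, ‖x i‖ ^ q) ^ (1 / q) ≤ |C| * t := le_trans hcot hR
      have h3 := Real.rpow_le_rpow (Real.rpow_nonneg hsum0 _) h2 hq0.le
      rwa [← Real.rpow_mul hsum0, one_div, inv_mul_cancel₀ hq0.ne', Real.rpow_one] at h3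
    have h4 : (k : ℝ) * (t / 2 / D) ^ q < (|C| * t) ^ q := lt_of_lt_of_le hsum h1
    have h5 : (|C| * t) ^ q = (2 * (D * |C|)) ^ q * (t / 2 / D) ^ q := by
      rw [← Real.mul_rpow (by positivity) hs0]
      congr 1
      field_simp
    rw [h5] at h4
    have h6 : (2 * (D * |C|)) ^ q * (t / 2 / D) ^ q ≤ (k : ℝ) * (t / 2 / D) ^ q :=
      mul_le_mul_of_nonneg_right hk (Real.rpow_nonneg hs0 _)
    linarith
  · intro v hv
    have h1 : ‖S v‖ ≤ 0 := hv
    have h2 : ‖φ.symm v‖ ≤ 0 := le_trans (hT _).1 h1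
    have h3 : φ.symm v = 0 := norm_le_zero_iff.mp h2
    exact (LinearEquiv.map_eq_zero_iff _).mp h3

end Pool.Agent.Helper42.Pis
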