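import Mathlib
import Pool.Agent.Helper42.Pis.Defs

set_option autoImplicit false

open Finset MeasureTheory ProbabilityTheory
open scoped ENNReal NNReal

namespace Pool.Agent.Helper42.Pis

lemma Body.zero_mem {n : ℕ} {K : Set (Fin n → ℝ)} (hK : Body K) : (0 : Fin n → ℝ) ∈ K :=
  mem_of_mem_nhds hK.nhd

lemma Body.sum_mem {n m : ℕ} {K : Set (Fin n → ℝ)} (hK : Body K) (x : Fin m → Fin n → ℝ)
    (hx : ∀ i, x i ∈ K) (a : Fin m → ℝ) (ha : ∑ i, |a i| ≤ 1) : ∑ i, a i • x i ∈ K := by
  set S := ∑ i, |a i| with hS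
  have hS0 : 0 ≤ S := Finset.sum_nonneg fun i _ => abs_nonneg _
  rcases eq_or_lt_of_le hS0 with h | h
  · have h0 : ∀ i, a i = 0 := by
      intro i
      have := (Finset.sum_eq_zero_iff_of_nonneg (fun i _ => abs_nonneg (a i))).mp h.symm i
        (Finset.mem_univ i)
      exact abs_eq_zero.mp this
    simp [h0, hK.zero_mem]
  · set y : Fin m → Fin n → ℝ := fun i => (if 0 ≤ a i then (1 : ℝ) else -1) • x i with hy
    have hyK : ∀ i, y i ∈ K := by
      intro i
      rw [hy]
      by_cases h0 : 0 ≤ a i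
      · simp only [h0, if_true, one_smul]; exact hx i
      · simp only [h0, if_false, neg_smul, one_smul]; exact hK.symm _ (hx i)
    have hmem : ∑ i, (|a i| / S) • y i ∈ K := by
      apply hK.conv.sum_mem
      · intro i _; positivity
      · rw [← Finset.sum_div]; exact div_self h.ne'
      · intro i _; exact hyK i
    have h2 : S • (∑ i, (|a i| / S) • y i) ∈ K :=
      hK.conv.smul_mem_of_zero_mem hK.zero_mem hmem ⟨hS0, ha⟩
    have e : S • (∑ i, (|a i| / S) • y i) = ∑ i, a i • x i := by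
      rw [Finset.smul_sum]
      refine Finset.sum_congr rfl fun i _ => ?_
      rw [hy, smul_smul, smul_smul]
      congr 1
      have : S * (|a i| / S) = |a i| := by field_simp
      rw [this]
      by_cases h0 : 0 ≤ a i
      · simp [h0, abs_of_nonneg h0]
      · simp [h0, abs_of_neg (not_le.mp h0)]
    rwa [e] at h2

/-- Auerbach basis. -/
lemma auerbach {n : ℕ} {K : Set (Fin n → ℝ)} (hK : Body K) :
    ∃ U : Matrix (Fin n) (Fin n) ℝ, U.det ≠ 0 ∧
      (∀ a : Fin n → ℝ, ∑ i, |a i| ≤ 1 → U.mulVec a ∈ K) ∧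
      (∀ x ∈ K, ∀ i, |(U⁻¹.mulVec x) i| ≤ 1) := by
  classical
  have hKc : IsCompact K := Metric.isCompact_of_isClosed_isBounded hK.closed hK.bdd
  set P : Set (Matrix (Fin n) (Fin n) ℝ) := Set.univ.pi (fun _ => K) with hP
  have hPc : IsCompact P := isCompact_univ_pi (fun _ => hKc)
  have hPne : P.Nonempty := ⟨fun _ => 0, fun i _ => hK.zero_mem⟩
  have hcont : ContinuousOn (fun M : Matrix (Fin n) (Fin n) ℝ => |M.det|) P := by
    apply Continuous.continuousOn
    exact (Continuous.matrix_det continuous_id).abs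
  obtain ⟨M, hMP, hMmax⟩ := hPc.exists_isMaxOn hPne hcont
  have hrow : ∀ i, M i ∈ K := fun i => hMP i (Set.mem_univ i)
  have hmax : ∀ M' : Matrix (Fin n) (Fin n) ℝ, (∀ i, M' i ∈ K) → |M'.det| ≤ |M.det| :=
    fun M' h => hMmax (fun i _ => h i)
  -- determinant nonzero
  have hdet : M.det ≠ 0 := by
    obtain ⟨ε, hε, hball⟩ := Metric.mem_nhds_iff.mp hK.nhd
    have h1 : ∀ i, ((ε / 2) • (1 : Matrix (Fin n) (Fin n) ℝ)) i ∈ K := by
      intro i
      apply hball
      rw [mem_ball_zero_iff]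
      refine lt_of_le_of_lt (pi_norm_le_iff_of_nonneg (by positivity : (0:ℝ) ≤ ε / 2) |>.mpr ?_)
        (by linarith : ε / 2 < ε)
      intro j
      rw [Matrix.smul_apply, Matrix.one_apply]
      split_ifs
      · simp [abs_of_pos hε]
      · simp; positivity
    have h2 := hmax _ h1
    rw [Matrix.det_smul, Matrix.det_one, mul_one, Fintype.card_fin] at h2
    intro h0
    rw [h0, abs_zero] at h2
    have : 0 < |(ε / 2) ^ n| := by positivity
    linarith
  refine ⟨M.transpose, by rwa [Matrix.det_transpose], ?_, ?_⟩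
  · intro a ha
    have e : M.transpose.mulVec a = ∑ i, a i • M i := by
      ext j
      simp only [Matrix.mulVec, dotProduct, Matrix.transpose_apply, Finset.sum_apply,
        Pi.smul_apply, smul_eq_mul]
      exact Finset.sum_congr rfl fun i _ => by ring
    rw [e]
    exact hK.sum_mem _ hrow a ha
  · intro x hx i
    have hu : IsUnit M.transpose.det := by
      rw [Matrix.det_transpose]; exact isUnit_iff_ne_zero.mpr hdet
    have e : M.transpose⁻¹.mulVec x = (M.det)⁻¹ • (M.transpose.cramer x) := by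
      have h1 : M.transpose.mulVec (M.transpose.cramer x) = M.det • x := by
        rw [Matrix.mulVec_cramer, Matrix.det_transpose]
      have h2 : M.transpose⁻¹.mulVec (M.transpose.mulVec (M.transpose.cramer x))
          = M.transpose.cramer x := by
        rw [Matrix.mulVec_mulVec, Matrix.nonsing_inv_mul _ hu, Matrix.one_mulVec]
      rw [h1, Matrix.mulVec_smul] at h2
      rw [← h2, smul_smul, inv_mul_cancel₀ hdet, one_smul]
    rw [e, Pi.smul_apply, smul_eq_mul, Matrix.cramer_transpose_apply, abs_mul, abs_inv,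
      inv_mul_le_iff₀ (abs_pos.mpr hdet), mul_one]
    apply hmax
    intro j
    by_cases hj : j = i
    · subst hj; rw [Matrix.updateRow_self]; exact hx
    · rw [Matrix.updateRow_ne hj]; exact hrow j

/-- The scaled Auerbach matrix is good. -/
lemma auerbach_good {n : ℕ} (hn : 1 ≤ n) {K : Set (Fin n → ℝ)} (U : Matrix (Fin n) (Fin n) ℝ)
    (hU : ∀ a : Fin n → ℝ, ∑ i, |a i| ≤ 1 → U.mulVec a ∈ K) :
    1 / 2 ≤ (gm n).real {x | ((1 / (2 * (n : ℝ))) • U).mulVec x ∈ K} := by
  refine le_trans (gm_l1 (by omega)) (measureReal_mono ?_)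
  intro x hx
  have hn' : (0 : ℝ) < n := by exact_mod_cast hn
  have hx' : ∑ i, |x i| ≤ 2 * n := hx
  have e : ((1 / (2 * (n : ℝ))) • U).mulVec x = U.mulVec ((1 / (2 * (n : ℝ))) • x) := by
    rw [Matrix.smul_mulVec, Matrix.mulVec_smul]
  show ((1 / (2 * (n : ℝ))) • U).mulVec x ∈ K
  rw [e]
  apply hU
  simp only [Pi.smul_apply, smul_eq_mul, abs_mul]
  rw [← Finset.mul_sum, abs_of_pos (by positivity)]
  rw [one_div, inv_mul_le_iff₀ (by positivity), mul_one]
  exact hx'

/-- upper bound for the determinant of a good matrix. -/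
lemma good_det_le {n : ℕ} {K : Set (Fin n → ℝ)} (U : Matrix (Fin n) (Fin n) ℝ)
    (hU0 : U.det ≠ 0) (hU : ∀ x ∈ K, ∀ i, |(U⁻¹.mulVec x) i| ≤ 1)
    (B : Matrix (Fin n) (Fin n) ℝ) (hB : B.det ≠ 0)
    (hgood : Real.exp (-1 * n) ≤ (gm n).real {x | B.mulVec x ∈ K}) :
    Real.log |B.det| ≤ Real.log |U.det| + n := by
  set A := U⁻¹ * B with hA
  have hUinv : U⁻¹.det ≠ 0 := by
    have h1 : U⁻¹.det * U.det = 1 := by
      rw [← Matrix.det_mul, Matrix.nonsing_inv_mul _ (isUnit_iff_ne_zero.mpr hU0),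
        Matrix.det_one]
    exact left_ne_zero_of_mul_eq_one h1
  have hAdet : A.det ≠ 0 := by
    rw [hA, Matrix.det_mul]; exact mul_ne_zero hUinv hB
  set C : Set (Fin n → ℝ) := Set.univ.pi (fun _ => Set.Icc (-1 : ℝ) 1) with hC
  have hCm : MeasurableSet C := MeasurableSet.univ_pi (fun _ => measurableSet_Icc)
  have hsub : {x : Fin n → ℝ | B.mulVec x ∈ K} ⊆ {x | A.mulVec x ∈ C} := by
    intro x hx i _
    have := hU _ hx i
    rw [hA, ← Matrix.mulVec_mulVec]
    exact abs_le.mp this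
  have h1 := gm_le_vol A hAdet hCm
  have hvol : volume C = (2 : ℝ≥0∞) ^ n := by
    rw [hC, volume_pi, Measure.pi_pi]
    simp only [Real.volume_Icc, Finset.prod_const, Finset.card_univ, Fintype.card_fin]
    norm_num
  rw [hvol] at h1
  have h2 : (gm n).real {x | B.mulVec x ∈ K} ≤ |(A.det)⁻¹| * (Real.sqrt (2 * Real.pi))⁻¹ ^ n * 2 ^ n := by
    refine le_trans (measureReal_mono hsub) ?_
    rw [measureReal_def]
    have h3 := ENNReal.toReal_mono (by
      refine ENNReal.mul_ne_top ENNReal.ofReal_ne_top (by simp)) h1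
    refine le_trans h3 (le_of_eq ?_)
    rw [ENNReal.toReal_mul, ENNReal.toReal_ofReal (by positivity)]
    simp
  have h4 : (Real.sqrt (2 * Real.pi))⁻¹ ^ n * 2 ^ n ≤ 1 := by
    rw [← mul_pow]
    apply pow_le_one₀ (by positivity)
    have h5 : (2 : ℝ) ≤ Real.sqrt (2 * Real.pi) := by
      apply Real.le_sqrt_of_sq_le
      have := Real.pi_gt_three
      linarith
    rw [inv_mul_le_iff₀ (by positivity), mul_one]
    exact h5
  have h6 : Real.exp (-1 * n) ≤ |(A.det)⁻¹| := by
    refine le_trans hgood (le_trans h2 ?_)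
    rw [mul_assoc]
    exact mul_le_of_le_one_right (abs_nonneg _) h4
  have h7 : -1 * (n : ℝ) ≤ Real.log |(A.det)⁻¹| := by
    rw [Real.le_log_iff_exp_le (by positivity)]; exact h6
  have h8 : Real.log |(A.det)⁻¹| = Real.log |U.det| - Real.log |B.det| := by
    rw [abs_inv, Real.log_inv, hA, Matrix.det_mul, abs_mul,
      Real.log_mul (abs_ne_zero.mpr hUinv) (abs_ne_zero.mpr hB)]
    have h9 : U⁻¹.det = (U.det)⁻¹ := by
      rw [Matrix.det_nonsing_inv, Ring.inverse_eq_inv']
    rw [h9, abs_inv, Real.log_inv]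
    ring
  rw [h8] at h7
  linarith

theorem seed {n : ℕ} (hn : 1 ≤ n) {K : Set (Fin n → ℝ)} (hK : Body K) {b : ℝ} (hb : Good K 1 b) :
    Good K (1 / n) (b - n * Real.log (6 * n)) := by
  obtain ⟨U, hU0, hU1, hU2⟩ := auerbach hK
  obtain ⟨B, hB0, hB1, hB2⟩ := hb
  have hn' : (0 : ℝ) < n := by exact_mod_cast hn
  have hdet : ((1 / (2 * (n : ℝ))) • U).det = (1 / (2 * (n : ℝ))) ^ n * U.det := by
    rw [Matrix.det_smul, Fintype.card_fin]
  refine ⟨(1 / (2 * (n : ℝ))) • U, ?_, ?_, ?_⟩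
  · rw [hdet]; exact mul_ne_zero (by positivity) hU0
  · refine le_trans ?_ (auerbach_good hn U hU1)
    have : -(1 / (n : ℝ)) * n = -1 := by field_simp
    rw [this]
    have h1 := Real.exp_one_gt_d9
    rw [Real.exp_neg, inv_le_comm₀ (Real.exp_pos _) (by norm_num)]
    norm_num
    linarith
  · have h1 := good_det_le U hU0 hU2 B hB0 hB1
    rw [hdet, abs_mul, Real.log_mul (by positivity) (abs_ne_zero.mpr hU0), abs_of_pos (by positivity),
      Real.log_pow, one_div, Real.log_inv]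
    have h2 : Real.log (6 * n) = Real.log 3 + Real.log (2 * n) := by
      rw [← Real.log_mul (by norm_num) (by positivity)]
      congr 1; ring
    have h3 : (1 : ℝ) ≤ Real.log 3 := by
      rw [Real.le_log_iff_exp_le (by norm_num)]
      have := Real.exp_one_lt_d9
      linarith
    rw [h2]
    nlinarith

theorem good_bdd {n : ℕ} (hn : 1 ≤ n) {K : Set (Fin n → ℝ)} (hK : Body K) :
    (∃ b, Good K 1 b) ∧ ∃ V, ∀ b, Good K 1 b → b ≤ V := by
  obtain ⟨U, hU0, hU1, hU2⟩ := auerbach hK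
  have hn' : (0 : ℝ) < n := by exact_mod_cast hn
  have hn1 : (1 : ℝ) ≤ n := by exact_mod_cast hn
  have hdet : ((1 / (2 * (n : ℝ))) • U).det = (1 / (2 * (n : ℝ))) ^ n * U.det := by
    rw [Matrix.det_smul, Fintype.card_fin]
  constructor
  · refine ⟨_, (1 / (2 * (n : ℝ))) • U, ?_, ?_, le_refl _⟩
    · rw [hdet]; exact mul_ne_zero (by positivity) hU0
    · refine le_trans ?_ (auerbach_good hn U hU1)
      have h1 := Real.exp_one_gt_d9
      have h2 : Real.exp (-1 * n) ≤ Real.exp (-1) := by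
        apply Real.exp_le_exp.mpr; linarith
      refine le_trans h2 ?_
      rw [Real.exp_neg, inv_le_comm₀ (Real.exp_pos _) (by norm_num)]
      norm_num
      linarith
  · refine ⟨Real.log |U.det| + n, ?_⟩
    rintro b ⟨B, hB0, hB1, hB2⟩
    exact le_trans hB2 (good_det_le U hU0 hU2 B hB0 hB1)

end Pool.Agent.Helper42.Pis
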