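import Mathlib
import Pool.Agent.Helper42.Pis.CotStep

set_option autoImplicit false

open Finset MeasureTheory ProbabilityTheory
open scoped ENNReal

namespace Pool.Agent.Helper42.Pis

/-- two independent copies kill the extra independent summand -/
lemma sym_copies {n : ℕ} (v : Matrix (Fin n) (Fin n) ℝ) {K : Set (Fin n → ℝ)} (hconv : Convex ℝ K)
    (hsym : ∀ x ∈ K, -x ∈ K) (hK : MeasurableSet K) {p : ℝ} (hp : 0 ≤ p)
    (h : p ≤ ((gm n).prod (gm n)).real {z | v.mulVec z.1 + z.2 ∈ K}) :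
    p ^ 2 ≤ (gm n).real {x | v.mulVec ((1 / Real.sqrt 2) • x) ∈ K} := by
  have hS : MeasurableSet {z : (Fin n → ℝ) × (Fin n → ℝ) | v.mulVec z.1 + z.2 ∈ K} :=
    (((mulVec_meas v).comp measurable_fst).add measurable_snd) hK
  -- choose a good translate
  have h1 : ((gm n).prod (gm n)) {z | v.mulVec z.1 + z.2 ∈ K} =
      ∫⁻ y, gm n ((fun x => (x, y)) ⁻¹' {z : (Fin n → ℝ) × (Fin n → ℝ) | v.mulVec z.1 + z.2 ∈ K}) ∂(gm n) :=
    Measure.prod_apply_symm hS
  obtain ⟨y, hy⟩ := exists_lintegral_le (μ := gm n)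
    (f := fun y => gm n ((fun x => (x, y)) ⁻¹' {z : (Fin n → ℝ) × (Fin n → ℝ) | v.mulVec z.1 + z.2 ∈ K}))
    (by rw [← h1]; exact measure_ne_top _ _)
  rw [← h1] at hy
  set U1 := {x : Fin n → ℝ | v.mulVec x + y ∈ K} with hU1
  set U2 := {x : Fin n → ℝ | v.mulVec x - y ∈ K} with hU2
  have hmU1 : MeasurableSet U1 := ((mulVec_meas v).add_const y) hK
  have hp1 : p ≤ (gm n).real U1 := by
    refine le_trans h ?_
    exact ENNReal.toReal_mono (measure_ne_top _ _) hy
  have hU12 : (gm n) U2 = (gm n) U1 := by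
    have h2 := (gm_sign (n := n) (fun _ => false)).measure_preimage hmU1.nullMeasurableSet
    rw [← h2]
    congr 1
    ext x
    simp only [Set.mem_preimage, hU1, hU2, Set.mem_ofPred_eq, sg_false]
    have e : (fun i => -1 * x i) = -x := by funext i; simp
    rw [e, Matrix.mulVec_neg]
    constructor
    · intro hx
      have := hsym _ hx
      have e2 : -(v.mulVec x - y) = -v.mulVec x + y := by abel
      rwa [e2] at this
    · intro hx
      have := hsym _ hx
      have e2 : -(-v.mulVec x + y) = v.mulVec x - y := by abel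
      rwa [e2] at this
  set U3 := {x : Fin n → ℝ | v.mulVec ((1 / Real.sqrt 2) • x) ∈ K} with hU3
  have hmsm : Measurable (fun x : Fin n → ℝ => (1 / Real.sqrt 2) • x) := by fun_prop
  have hmU3 : MeasurableSet U3 := ((mulVec_meas v).comp hmsm) hK
  have hs2 : (0 : ℝ) < Real.sqrt 2 := Real.sqrt_pos.mpr (by norm_num)
  have hs22 : Real.sqrt 2 ^ 2 = 2 := Real.sq_sqrt (by norm_num)
  have hmp := gm_avg (n := n) (fun _ => 1 / Real.sqrt 2) (fun _ => 1 / Real.sqrt 2)
    (fun _ => by rw [div_pow, hs22]; norm_num)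
  have h3 := hmp.measure_preimage hmU3.nullMeasurableSet
  have hsub : U1 ×ˢ U2 ⊆ (fun z : (Fin n → ℝ) × (Fin n → ℝ) => fun i =>
      1 / Real.sqrt 2 * z.1 i + 1 / Real.sqrt 2 * z.2 i) ⁻¹' U3 := by
    rintro ⟨x, x'⟩ ⟨hx, hx'⟩
    simp only [Set.mem_preimage, hU3, Set.mem_ofPred_eq]
    have e : ((1 / Real.sqrt 2) • fun i => (1 / Real.sqrt 2 * x i + 1 / Real.sqrt 2 * x' i)) =
        (1 / 2 : ℝ) • x + (1 / 2 : ℝ) • x' := by
      funext i
      simp only [Pi.add_apply, Pi.smul_apply, smul_eq_mul]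
      have : 1 / Real.sqrt 2 * (1 / Real.sqrt 2) = 1 / 2 := by
        rw [← sq, div_pow, hs22]; norm_num
      calc 1 / Real.sqrt 2 * (1 / Real.sqrt 2 * x i + 1 / Real.sqrt 2 * x' i)
          = (1 / Real.sqrt 2 * (1 / Real.sqrt 2)) * x i + (1 / Real.sqrt 2 * (1 / Real.sqrt 2)) * x' i := by ring
        _ = _ := by rw [this]
    rw [e, Matrix.mulVec_add, Matrix.mulVec_smul, Matrix.mulVec_smul]
    have := hconv hx hx' (a := 1 / 2) (b := 1 / 2) (by norm_num) (by norm_num) (by norm_num)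
    have e3 : (1 / 2 : ℝ) • (v.mulVec x + y) + (1 / 2 : ℝ) • (v.mulVec x' - y) =
        (1 / 2 : ℝ) • v.mulVec x + (1 / 2 : ℝ) • v.mulVec x' := by
      rw [smul_add, smul_sub]; abel
    rw [← e3]; exact this
  have h4 : gm n U1 * gm n U2 ≤ gm n U3 := by
    rw [← h3, ← Measure.prod_prod]
    exact measure_mono hsub
  have h5 : (gm n).real U1 * (gm n).real U2 ≤ (gm n).real U3 := by
    rw [measureReal_def, measureReal_def, measureReal_def, ← ENNReal.toReal_mul]
    exact ENNReal.toReal_mono (measure_ne_top _ _) h4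
  have h6 : (gm n).real U2 = (gm n).real U1 := by
    rw [measureReal_def, measureReal_def, hU12]
  rw [h6] at h5
  calc p ^ 2 = p * p := sq p
    _ ≤ (gm n).real U1 * (gm n).real U1 := mul_le_mul hp1 hp1 hp measureReal_nonneg
    _ ≤ _ := h5

/-- averaging over signs -/
lemma prod_lower {n : ℕ} (S : Set ((Fin n → ℝ) × (Fin n → ℝ))) (hS : MeasurableSet S)
    (G : Set (Fin n → ℝ)) (hG : MeasurableSet G) (q : ℝ) (hq : 0 ≤ q)
    (h : ∀ g ∈ G, q ≤ avg (fun e => (gm n).real {g' | ((fun i => sg (e i) * g i), g') ∈ S})) :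
    q * (gm n).real G ≤ ((gm n).prod (gm n)).real S := by
  set Ψ : (Fin n → ℝ) → ℝ := fun g => (gm n).real {g' | (g, g') ∈ S} with hΨ
  have hΨm : Measurable Ψ := by
    have := measurable_measure_prodMk_left (ν := gm n) hS
    exact this.ennreal_toReal
  have hΨ1 : ∀ g, 0 ≤ Ψ g ∧ Ψ g ≤ 1 := fun g => ⟨measureReal_nonneg, measureReal_le_one⟩
  have hΨi : Integrable Ψ (gm n) := by
    refine Integrable.of_bound hΨm.aestronglyMeasurable 1 (Filter.Eventually.of_forall (fun g => ?_))
    rw [Real.norm_of_nonneg (hΨ1 g).1]; exact (hΨ1 g).2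
  have h1 : ((gm n).prod (gm n)).real S = ∫ g, Ψ g ∂(gm n) := by
    rw [measureReal_def, Measure.prod_apply hS]
    rw [integral_eq_lintegral_of_nonneg_ae (Filter.Eventually.of_forall (fun g => (hΨ1 g).1))
      hΨm.aestronglyMeasurable]
    congr 1
    refine lintegral_congr (fun g => ?_)
    simp only [hΨ]
    rw [measureReal_def, ENNReal.ofReal_toReal (measure_ne_top _ _)]
    rfl
  have h2 : ∀ e : Q n, ∫ g, Ψ (fun i => sg (e i) * g i) ∂(gm n) = ∫ g, Ψ g ∂(gm n) := by
    intro e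
    have hT := gm_sign (n := n) e
    have h5 : ∫ g, Ψ g ∂(Measure.map (fun (g : Fin n → ℝ) i => sg (e i) * g i) (gm n)) =
        ∫ g, Ψ (fun i => sg (e i) * g i) ∂(gm n) :=
      integral_map hT.measurable.aemeasurable (by rw [hT.map_eq]; exact hΨm.aestronglyMeasurable)
    rw [← h5, hT.map_eq]
  have hie : ∀ e : Q n, Integrable (fun g => Ψ (fun i => sg (e i) * g i)) (gm n) := by
    intro e
    refine Integrable.of_bound (hΨm.comp (gm_sign e).measurable).aestronglyMeasurable 1 (Filter.Eventually.of_forall (fun g => ?_))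
    rw [Real.norm_of_nonneg (hΨ1 _).1]; exact (hΨ1 _).2
  have h3 : ∫ g, avg (fun e => Ψ (fun i => sg (e i) * g i)) ∂(gm n) = ∫ g, Ψ g ∂(gm n) := by
    unfold avg
    rw [integral_div, integral_finsetSum _ (fun e _ => hie e)]
    simp only [h2, Finset.sum_const, Finset.card_univ, Fintype.card_fun, Fintype.card_bool,
      Fintype.card_fin, nsmul_eq_mul]
    push_cast
    field_simp
  rw [h1, ← h3]
  have h4 : ∫ g, Set.indicator G (fun _ => q) g ∂(gm n) = q * (gm n).real G := by
    rw [integral_indicator_const _ hG, smul_eq_mul, mul_comm]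
  rw [← h4]
  apply integral_mono
  · exact (integrable_const q).indicator hG
  · unfold avg
    exact (integrable_finsetSum _ (fun e _ => hie e)).div_const _
  · intro g
    by_cases hg : g ∈ G
    · rw [Set.indicator_of_mem hg]
      exact h g hg
    · rw [Set.indicator_of_notMem hg]
      exact avg_nonneg (fun e => (hΨ1 _).1)

end Pool.Agent.Helper42.Pis
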