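import Mathlib
import Pool.Agent.Helper42.Pis.Cube

set_option autoImplicit false

open Finset MeasureTheory

namespace Pool.Agent.Helper42.Pis

lemma integral_cauchy (c x0 : ℝ) (hc : 0 < c) :
    ∫ y : ℝ, (1 + (c * (y - x0)) ^ 2)⁻¹ = Real.pi / c := by
  have h1 : ∫ y : ℝ, (1 + (c * (y - x0)) ^ 2)⁻¹ = ∫ y : ℝ, (1 + (c * y) ^ 2)⁻¹ :=
    integral_sub_right_eq_self (fun y : ℝ => (1 + (c * y) ^ 2)⁻¹) x0
  rw [h1]
  have h2 := Measure.integral_comp_mul_left (fun y : ℝ => (1 + y ^ 2)⁻¹) c
  rw [h2, integral_univ_inv_one_add_sq, smul_eq_mul, abs_of_pos (inv_pos.mpr hc)]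
  field_simp

lemma integrable_cauchy (c x0 : ℝ) (hc : 0 < c) :
    Integrable (fun y : ℝ => (1 + (c * (y - x0)) ^ 2)⁻¹) := by
  have h1 : Integrable (fun y : ℝ => (1 + (c * y) ^ 2)⁻¹) :=
    integrable_inv_one_add_sq.comp_mul_left' hc.ne'
  exact h1.comp_sub_right x0

lemma one_dim (g : ℝ → ℝ) (h0 : ∀ x, 0 ≤ g x) (B : ℝ) (hB : ∀ x, g x ≤ B)
    (hi : Integrable g) (hpos : 0 < ∫ x, g x) :
    ∃ a b, a < b ∧ 0 < g a ∧ 0 < g b ∧
      Real.log (∫ x, g x) ≤ Real.log 8 + Real.log (b - a) + (Real.log (g a) + Real.log (g b)) / 2 := by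
  by_contra hcon
  push Not at hcon
  set I := ∫ x, g x with hI
  set S := ⨆ x, g x with hS
  have hbdd : BddAbove (Set.range g) := ⟨B, by rintro _ ⟨x, rfl⟩; exact hB x⟩
  have hgS : ∀ x, g x ≤ S := fun x => le_ciSup hbdd x
  have hSpos : 0 < S := by
    by_contra hneg
    push Not at hneg
    have : ∀ x, g x = 0 := fun x => le_antisymm (le_trans (hgS x) hneg) (h0 x)
    have h2 : I = 0 := by rw [hI]; simp [this]
    linarith
  obtain ⟨x0, hx0⟩ : ∃ x0, (16 / 25) * S < g x0 := exists_lt_of_lt_ciSup (by rw [← hS]; linarith)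
  have hgx0 : 0 < g x0 := by linarith
  have hpt : ∀ y, 64 * (y - x0) ^ 2 * (g x0 * g y) ≤ I ^ 2 := by
    intro y
    rcases eq_or_ne y x0 with h | hne
    · subst h; simp; positivity
    rcases eq_or_lt_of_le (h0 y) with h | hgy
    · rw [← h]; simp; positivity
    have key : Real.log 8 + Real.log |y - x0| + (Real.log (g x0) + Real.log (g y)) / 2 < Real.log I := by
      rcases lt_or_gt_of_ne hne with h | h
      · have := hcon y x0 h hgy hgx0
        rw [show |y - x0| = x0 - y by rw [abs_of_neg (by linarith)]; ring]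
        linarith
      · have := hcon x0 y h hgx0 hgy
        rw [show |y - x0| = y - x0 by rw [abs_of_pos (by linarith)]]
        linarith
    have habs : 0 < |y - x0| := abs_pos.mpr (sub_ne_zero.mpr hne)
    have e1 : Real.log (64 * (y - x0) ^ 2 * (g x0 * g y)) =
        2 * (Real.log 8 + Real.log |y - x0| + (Real.log (g x0) + Real.log (g y)) / 2) := by
      rw [Real.log_mul (by positivity) (by positivity), Real.log_mul (by positivity) (by positivity),
        Real.log_mul (by positivity) (by positivity)]
      rw [← sq_abs (y - x0), Real.log_pow]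
      rw [show (64 : ℝ) = 8 ^ 2 by norm_num, Real.log_pow]
      push_cast; ring
    have e2 : Real.log (I ^ 2) = 2 * Real.log I := by rw [Real.log_pow]; push_cast; ring
    have h3 : Real.log (64 * (y - x0) ^ 2 * (g x0 * g y)) < Real.log (I ^ 2) := by
      rw [e1, e2]; linarith
    exact ((Real.log_lt_log_iff (by positivity) (by positivity)).mp h3).le
  -- bounding function
  set c := 8 * Real.sqrt (S * g x0) / I with hc
  have hcpos : 0 < c := by rw [hc]; positivity
  have hc2 : c ^ 2 = 64 * (S * g x0) / I ^ 2 := by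
    rw [hc, div_pow, mul_pow, Real.sq_sqrt (by positivity)]; norm_num
  have hle : ∀ y, g y ≤ 2 * S * (1 + (c * (y - x0)) ^ 2)⁻¹ := by
    intro y
    rw [← div_eq_mul_inv, le_div_iff₀ (by positivity)]
    have h1 : g y * (c * (y - x0)) ^ 2 ≤ S := by
      rw [mul_pow, hc2]
      have := hpt y
      have h2 : g y * (64 * (S * g x0) / I ^ 2 * (y - x0) ^ 2) =
        (S * (64 * (y - x0) ^ 2 * (g x0 * g y))) / I ^ 2 := by ring
      rw [h2, div_le_iff₀ (by positivity)]
      exact mul_le_mul_of_nonneg_left this hSpos.le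
    have := hgS y
    linarith
  have hint : I ≤ ∫ y, 2 * S * (1 + (c * (y - x0)) ^ 2)⁻¹ :=
    integral_mono hi ((integrable_cauchy c x0 hcpos).const_mul _) hle
  rw [integral_const_mul, integral_cauchy c x0 hcpos] at hint
  -- now numerics
  have hsq : (4 / 5) * S ≤ Real.sqrt (S * g x0) := by
    apply Real.le_sqrt_of_sq_le
    nlinarith
  have hIc : c * I = 8 * Real.sqrt (S * g x0) := by rw [hc]; field_simp
  have hpi := Real.pi_lt_d2
  have h5 : c * I ≤ 2 * S * Real.pi := by
    have : c * I ≤ c * (2 * S * (Real.pi / c)) := mul_le_mul_of_nonneg_left hint hcpos.le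
    refine le_trans this (le_of_eq ?_)
    field_simp
  rw [hIc] at h5
  nlinarith

lemma integrable_of_box {n : ℕ} (f : (Fin n → ℝ) → ℝ) (hf : Measurable f) (h0 : ∀ x, 0 ≤ f x)
    (B : ℝ) (hB : ∀ x, f x ≤ B) (R : ℝ) (hR : ∀ x, f x ≠ 0 → ∀ i, |x i| ≤ R) : Integrable f := by
  have hsupp : Function.support f ⊆ Set.Icc (fun _ => -R) (fun _ => R) := by
    intro x hx
    have := hR x hx
    exact ⟨fun i => (abs_le.mp (this i)).1, fun i => (abs_le.mp (this i)).2⟩
  rw [← integrableOn_iff_integrable_of_support_subset hsupp]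
  apply Measure.integrableOn_of_bounded (M := B)
  · exact (isCompact_Icc.measure_lt_top).ne
  · exact hf.aestronglyMeasurable
  · refine Filter.Eventually.of_forall (fun x => ?_)
    rw [Real.norm_of_nonneg (h0 x)]; exact hB x

lemma integral_cons {n : ℕ} (f : (Fin (n+1) → ℝ) → ℝ) (hi : Integrable f) :
    Integrable (fun t : ℝ => ∫ x' : Fin n → ℝ, f (Fin.cons t x')) ∧
    ∫ x, f x = ∫ t : ℝ, ∫ x' : Fin n → ℝ, f (Fin.cons t x') := by
  have h := (volume_preserving_piFinSuccAbove (fun _ : Fin (n+1) => ℝ) 0).symm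
  have e : ∀ z : ℝ × (Fin n → ℝ), (MeasurableEquiv.piFinSuccAbove (fun _ : Fin (n+1) => ℝ) 0).symm z
      = Fin.cons z.1 z.2 := by
    intro z
    simp [MeasurableEquiv.piFinSuccAbove, Fin.insertNthEquiv]
  have h1 : ∫ x, f x = ∫ z : ℝ × (Fin n → ℝ), f (Fin.cons z.1 z.2) := by
    rw [← h.integral_comp (MeasurableEquiv.measurableEmbedding _)]
    refine integral_congr_ae (Filter.Eventually.of_forall (fun z => ?_))
    simp only [e]
  have h2 : Integrable (fun z : ℝ × (Fin n → ℝ) => f (Fin.cons z.1 z.2)) := by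
    have := h.integrable_comp_of_integrable hi
    refine this.congr (Filter.Eventually.of_forall (fun z => ?_))
    simp only [Function.comp, e]
  constructor
  · exact h2.integral_prod_left
  · rw [h1, Measure.volume_eq_prod, integral_prod _ h2]

/-- Tree lemma. -/
theorem tree (n : ℕ) : ∀ (f : (Fin n → ℝ) → ℝ), Measurable f → (∀ x, 0 ≤ f x) →
    ∀ (B : ℝ), (∀ x, f x ≤ B) → ∀ (R : ℝ), (∀ x, f x ≠ 0 → ∀ i, |x i| ≤ R) → 0 < ∫ x, f x →
    ∃ F : Q n → Fin n → ℝ,
      (∀ e e' j, (∀ i, i ≤ j → e i = e' i) → F e j = F e' j) ∧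
      (∀ e, 0 < f (F e)) ∧
      (∀ j, 0 < avg (fun e => sg (e j) * F e j)) ∧
      Real.log (∫ x, f x) ≤ n * Real.log 8 + ∑ j, Real.log (2 * avg (fun e => sg (e j) * F e j))
        + avg (fun e => Real.log (f (F e))) := by
  induction n with
  | zero =>
    intro f hf h0 B hB R hR hpos
    refine ⟨fun _ => Fin.elim0, fun _ _ j => j.elim0, ?_, fun j => j.elim0, ?_⟩
    · intro e
      have h1 : ∀ x : Fin 0 → ℝ, f x = f Fin.elim0 := fun x => by rw [Subsingleton.elim x Fin.elim0]
      simp only [h1] at hpos
      rw [integral_const] at hpos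
      by_contra hneg
      push Not at hneg
      have h2 : f Fin.elim0 = 0 := le_antisymm hneg (h0 _)
      rw [h2] at hpos
      simp at hpos
    · have h1 : ∀ x : Fin 0 → ℝ, f x = f Fin.elim0 := fun x => by rw [Subsingleton.elim x Fin.elim0]
      have h2 : ∫ x, f x = f Fin.elim0 := by
        simp only [h1]
        rw [integral_const, measureReal_def, volume_pi, Measure.pi_empty_univ]
        simp
      rw [h2]
      simp [avg]
  | succ n ih =>
    intro f hf h0 B hB R hR hpos
    have hcons : ∀ t : ℝ, Measurable (fun x' : Fin n → ℝ => (Fin.cons t x' : Fin (n+1) → ℝ)) := by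
      intro t
      rw [measurable_pi_iff]
      intro i
      refine Fin.cases ?_ (fun j => ?_) i
      · simp only [Fin.cons_zero]; exact measurable_const
      · simp only [Fin.cons_succ]; exact measurable_pi_apply j
    have hfi := integrable_of_box f hf h0 B hB R hR
    obtain ⟨hgi, hgint⟩ := integral_cons f hfi
    set g : ℝ → ℝ := fun t => ∫ x' : Fin n → ℝ, f (Fin.cons t x') with hg
    have hsec : ∀ t : ℝ, Integrable (fun x' : Fin n → ℝ => f (Fin.cons t x')) := by
      intro t
      exact integrable_of_box _ (hf.comp (hcons t)) (fun x => h0 _) B (fun x => hB _) R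
        (fun x hx i => by
          have := hR _ hx i.succ
          simpa using this)
    have hg0 : ∀ t, 0 ≤ g t := fun t => integral_nonneg (fun x => h0 _)
    have hgB : ∀ t, g t ≤ B * (volume (Set.Icc (fun _ : Fin n => -R) (fun _ => R))).toReal := by
      intro t
      have h1 : g t = ∫ x' in Set.Icc (fun _ : Fin n => -R) (fun _ => R), f (Fin.cons t x') := by
        rw [hg]
        symm
        apply setIntegral_eq_integral_of_forall_compl_eq_zero
        intro x hx
        by_contra hne
        apply hx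
        have := hR _ hne
        exact ⟨fun i => by have := (abs_le.mp (this i.succ)).1; simpa using this,
          fun i => by have := (abs_le.mp (this i.succ)).2; simpa using this⟩
      rw [h1]
      have h2 := norm_setIntegral_le_of_norm_le_const (μ := (volume : Measure (Fin n → ℝ)))
        (s := Set.Icc (fun _ : Fin n => -R) (fun _ => R)) (f := fun x' => f (Fin.cons t x')) (C := B)
        (isCompact_Icc.measure_lt_top) (fun x _ => by
          rw [Real.norm_of_nonneg (h0 _)]; exact hB _)
      exact le_trans (le_trans (le_abs_self _) h2) (le_of_eq rfl)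
    rw [hgint] at hpos ⊢
    obtain ⟨a, b, hab, hga, hgb, hlog⟩ := one_dim g hg0 _ hgB hgi hpos
    have hih : ∀ t : ℝ, 0 < g t → ∃ F : Q n → Fin n → ℝ,
      (∀ e e' j, (∀ i, i ≤ j → e i = e' i) → F e j = F e' j) ∧
      (∀ e, 0 < f (Fin.cons t (F e))) ∧
      (∀ j, 0 < avg (fun e => sg (e j) * F e j)) ∧
      Real.log (g t) ≤ n * Real.log 8 + ∑ j, Real.log (2 * avg (fun e => sg (e j) * F e j))
        + avg (fun e => Real.log (f (Fin.cons t (F e)))) := by
      intro t ht
      exact ih (fun x' => f (Fin.cons t x')) (hf.comp (hcons t)) (fun x => h0 _) B (fun x => hB _) R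
        (fun x hx i => by
          have := hR _ hx i.succ
          simpa using this) ht
    obtain ⟨Fa, a1, a2, a3, a4⟩ := hih a hga
    obtain ⟨Fb, b1, b2, b3, b4⟩ := hih b hgb
    set F : Q (n+1) → Fin (n+1) → ℝ := fun e =>
      if e 0 then Fin.cons b (Fb (Fin.tail e)) else Fin.cons a (Fa (Fin.tail e)) with hF
    have Ft : ∀ e : Q n, F (Fin.cons true e) = Fin.cons b (Fb e) := by
      intro e; simp [hF]
    have Ff : ∀ e : Q n, F (Fin.cons false e) = Fin.cons a (Fa e) := by
      intro e; simp [hF]
    have hD0 : avg (fun e => sg (e 0) * F e 0) = (b - a) / 2 := by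
      rw [avg_cons]
      simp only [Ft, Ff, Fin.cons_zero, sg_true, sg_false]
      rw [avg_const, avg_const]; ring
    have hDs : ∀ j : Fin n, avg (fun e => sg (e j.succ) * F e j.succ) =
        (avg (fun e => sg (e j) * Fb e j) + avg (fun e => sg (e j) * Fa e j)) / 2 := by
      intro j
      rw [avg_cons]
      simp only [Ft, Ff, Fin.cons_succ]
    refine ⟨F, ?_, ?_, ?_, ?_⟩
    · intro e e' j hj
      have he0 : e 0 = e' 0 := hj 0 (Fin.zero_le j)
      simp only [hF, he0]
      revert hj
      refine Fin.cases ?_ (fun j' => ?_) j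
      · intro hj
        cases e' 0 <;> simp
      · intro hj
        have ht : ∀ i, i ≤ j' → Fin.tail e i = Fin.tail e' i := by
          intro i hi
          exact hj i.succ (Fin.succ_le_succ_iff.mpr hi)
        cases e' 0
        · simp only [Bool.false_eq_true, if_false, Fin.cons_succ]
          exact a1 _ _ _ ht
        · simp only [if_true, Fin.cons_succ]
          exact b1 _ _ _ ht
    · intro e
      simp only [hF]
      cases e 0
      · simp only [Bool.false_eq_true, if_false]; exact a2 _
      · simp only [if_true]; exact b2 _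
    · intro j
      refine Fin.cases ?_ (fun j' => ?_) j
      · rw [hD0]; linarith
      · rw [hDs]
        have := a3 j'
        have := b3 j'
        linarith
    · rw [Fin.sum_univ_succ, hD0]
      have hlogs : ∀ j : Fin n, (Real.log (2 * avg (fun e => sg (e j) * Fb e j)) +
          Real.log (2 * avg (fun e => sg (e j) * Fa e j))) / 2 ≤
          Real.log (2 * avg (fun e => sg (e j.succ) * F e j.succ)) := by
        intro j
        rw [hDs]
        have ha := a3 j
        have hb := b3 j
        set u := avg (fun e => sg (e j) * Fb e j)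
        set v := avg (fun e => sg (e j) * Fa e j)
        have h1 : Real.log ((2 * u) * (2 * v)) ≤ Real.log ((2 * ((u + v) / 2)) ^ 2) := by
          apply Real.log_le_log (by positivity)
          nlinarith [sq_nonneg (u - v)]
        rw [Real.log_mul (by positivity) (by positivity), Real.log_pow] at h1
        push_cast at h1
        linarith
      have hsum := Finset.sum_le_sum (fun j (_ : j ∈ (Finset.univ : Finset (Fin n))) => hlogs j)
      rw [← Finset.sum_div, Finset.sum_add_distrib] at hsum
      have hlast : avg (fun e => Real.log (f (F e))) =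
          (avg (fun e => Real.log (f (Fin.cons b (Fb e)))) + avg (fun e => Real.log (f (Fin.cons a (Fa e))))) / 2 := by
        rw [avg_cons]
        simp only [Ft, Ff]
      rw [hlast]
      have h2 : (2 : ℝ) * ((b - a) / 2) = b - a := by ring
      rw [h2]
      push_cast
      linarith

end Pool.Agent.Helper42.Pis
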