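import Mathlib
import Pool.Agent.Helper42.Pis.Cube

set_option autoImplicit false

open Finset

namespace Pool.Agent.Helper42.Pis

/-- Walsh function -/
noncomputable def chi {n : ℕ} (S : Finset (Fin n)) (e : Q n) : ℝ := ∏ i ∈ S, sg (e i)

/-- Walsh coefficient -/
noncomputable def hat {n : ℕ} (F : Q n → ℝ) (S : Finset (Fin n)) : ℝ := avg (fun e => chi S e * F e)

lemma sg_sq (b : Bool) : sg b * sg b = 1 := by cases b <;> simp [sg]

lemma sum_prod_cube {n : ℕ} (h : Fin n → Bool → ℝ) :
    ∑ e : Q n, ∏ i, h i (e i) = ∏ i, (h i true + h i false) := by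
  have h1 := Finset.prod_univ_sum (fun _ : Fin n => (Finset.univ : Finset Bool)) h
  rw [Fintype.piFinset_univ] at h1
  rw [← h1]
  refine Finset.prod_congr rfl (fun i _ => ?_)
  rw [Fintype.sum_bool]

lemma avg_chi_mul {n : ℕ} (S T : Finset (Fin n)) :
    avg (fun e => chi S e * chi T e) = if S = T then 1 else 0 := by
  classical
  have e1 : ∀ e : Q n, chi S e * chi T e = ∏ i, ((if i ∈ S then sg (e i) else 1) * (if i ∈ T then sg (e i) else 1)) := by
    intro e
    unfold chi
    rw [Finset.prod_mul_distrib]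
    congr 1
    · rw [Finset.prod_ite_mem, Finset.univ_inter]
    · rw [Finset.prod_ite_mem, Finset.univ_inter]
  unfold avg
  simp only [e1]
  rw [sum_prod_cube (fun i b => (if i ∈ S then sg b else 1) * (if i ∈ T then sg b else 1))]
  split_ifs with h
  · subst h
    have : ∀ i : Fin n, ((if i ∈ S then sg true else 1) * (if i ∈ S then sg true else 1) +
        (if i ∈ S then sg false else 1) * (if i ∈ S then sg false else 1) : ℝ) = 2 := by
      intro i
      split_ifs <;> simp [sg] <;> norm_num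
    simp only [this]
    simp
  · obtain ⟨i, hi⟩ : ∃ i, ¬ (i ∈ S ↔ i ∈ T) := by
      by_contra hcon
      push Not at hcon
      exact h (Finset.ext hcon)
    rw [Finset.prod_eq_zero (Finset.mem_univ i)]
    · simp
    · by_cases hS : i ∈ S <;> by_cases hT : i ∈ T <;> simp [hS, hT, sg] at hi ⊢

lemma avg_sum {n : ℕ} {ι : Type*} (s : Finset ι) (f : ι → Q n → ℝ) :
    avg (fun e => ∑ i ∈ s, f i e) = ∑ i ∈ s, avg (f i) := by
  unfold avg
  rw [Finset.sum_comm, Finset.sum_div]

lemma avg_mul_const {n : ℕ} (c : ℝ) (f : Q n → ℝ) : avg (fun e => c * f e) = c * avg f := by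
  unfold avg
  rw [← Finset.mul_sum]; ring

lemma avg_sq_sum {n : ℕ} (α : Finset (Fin n) → ℝ) :
    avg (fun e => (∑ S, α S * chi S e) ^ 2) = ∑ S, α S ^ 2 := by
  classical
  have e1 : ∀ e : Q n, (∑ S, α S * chi S e) ^ 2 = ∑ S, ∑ T, (α S * α T) * (chi S e * chi T e) := by
    intro e
    rw [sq, Finset.sum_mul_sum]
    refine Finset.sum_congr rfl (fun S _ => ?_)
    refine Finset.sum_congr rfl (fun T _ => ?_)
    ring
  simp only [e1]
  rw [avg_sum]
  refine Finset.sum_congr rfl (fun S _ => ?_)
  rw [avg_sum]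
  simp only [avg_mul_const, avg_chi_mul]
  simp [sq]

/-- weights of the multilinear extension -/
noncomputable def wml {n : ℕ} (b : Fin n → ℝ) (e : Q n) : ℝ := ∏ i, ((1 + b i * sg (e i)) / 2)

lemma wml_nonneg {n : ℕ} (b : Fin n → ℝ) (hb : ∀ i, |b i| ≤ 1) (e : Q n) : 0 ≤ wml b e := by
  refine Finset.prod_nonneg (fun i _ => ?_)
  have := abs_le.mp (hb i)
  cases e i <;> simp only [sg_true, sg_false] <;> linarith

lemma wml_sum {n : ℕ} (b : Fin n → ℝ) : ∑ e : Q n, wml b e = 1 := by
  unfold wml
  rw [sum_prod_cube (fun i c => (1 + b i * sg c) / 2)]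
  refine Finset.prod_eq_one (fun i _ => ?_)
  simp only [sg_true, sg_false]; ring

/-- multilinear extension -/
noncomputable def ml {n : ℕ} (F : Q n → ℝ) (b : Fin n → ℝ) : ℝ := ∑ e, wml b e * F e

lemma ml_expand {n : ℕ} (F : Q n → ℝ) (b : Fin n → ℝ) :
    ml F b = ∑ S : Finset (Fin n), (∏ i ∈ S, b i) * hat F S := by
  classical
  unfold ml hat avg
  have e1 : ∀ e : Q n, wml b e = (∑ S : Finset (Fin n), (∏ i ∈ S, b i) * chi S e) / 2 ^ n := by
    intro e
    unfold wml chi
    rw [Finset.prod_div_distrib]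
    simp only [Finset.prod_const, Finset.card_univ, Fintype.card_fin]
    congr 1
    rw [Finset.prod_one_add, Finset.powerset_univ]
    refine Finset.sum_congr rfl (fun S _ => ?_)
    rw [Finset.prod_mul_distrib]
  simp only [e1]
  simp only [Finset.sum_mul, Finset.sum_div, Finset.mul_sum]
  rw [Finset.sum_comm]
  refine Finset.sum_congr rfl (fun S _ => ?_)
  refine Finset.sum_congr rfl (fun e _ => ?_)
  ring

lemma ml_sg {n : ℕ} (F : Q n → ℝ) (e : Q n) : ml F (fun i => sg (e i)) = F e := by
  classical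
  unfold ml
  rw [Finset.sum_eq_single e]
  · have : wml (fun i => sg (e i)) e = 1 := by
      unfold wml
      refine Finset.prod_eq_one (fun i _ => ?_)
      rw [sg_sq]; norm_num
    rw [this, one_mul]
  · intro e' _ hne
    obtain ⟨i, hi⟩ := Function.ne_iff.mp hne
    have : wml (fun i => sg (e i)) e' = 0 := by
      unfold wml
      refine Finset.prod_eq_zero (Finset.mem_univ i) ?_
      revert hi
      cases h1 : e i <;> cases h2 : e' i <;> simp [sg, h1]
    rw [this, zero_mul]
  · intro h; exact absurd (Finset.mem_univ e) h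

lemma inversion {n : ℕ} (F : Q n → ℝ) (e : Q n) : F e = ∑ S, hat F S * chi S e := by
  conv_lhs => rw [← ml_sg F e, ml_expand]
  refine Finset.sum_congr rfl (fun S _ => ?_)
  unfold chi
  ring

lemma parseval {n : ℕ} (F : Q n → ℝ) : ∑ S, hat F S ^ 2 = avg (fun e => F e ^ 2) := by
  rw [← avg_sq_sum]
  congr 1
  funext e
  rw [← inversion]

/-- flipping one coordinate -/
def flipEquiv {n : ℕ} (i : Fin n) : Q n ≃ Q n where
  toFun e := Function.update e i (!(e i))
  invFun e := Function.update e i (!(e i))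
  left_inv e := by
    funext j
    by_cases h : j = i
    · subst h; simp
    · simp [h]
  right_inv e := by
    funext j
    by_cases h : j = i
    · subst h; simp
    · simp [h]

lemma hat_tri {n : ℕ} (F : Q n → ℝ) (j : Fin n) (hF : ∀ e e', (∀ i, i ≤ j → e i = e' i) → F e = F e')
    (S : Finset (Fin n)) (i : Fin n) (hiS : i ∈ S) (hi : j < i) : hat F S = 0 := by
  classical
  have h1 : hat F S = - hat F S := by
    conv_lhs => unfold hat avg
    rw [← (flipEquiv i).sum_comp]
    unfold hat avg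
    rw [← neg_div, ← Finset.sum_neg_distrib]
    congr 1
    refine Finset.sum_congr rfl (fun e _ => ?_)
    have e1 : F (flipEquiv i e) = F e := by
      apply hF
      intro l hl
      have : l ≠ i := by
        intro h; subst h; exact absurd hl (not_le.mpr hi)
      simp [flipEquiv, this]
    have e2 : chi S (flipEquiv i e) = - chi S e := by
      unfold chi
      rw [← Finset.mul_prod_erase S _ hiS, ← Finset.mul_prod_erase S _ hiS]
      have e3 : ∏ x ∈ S.erase i, sg (flipEquiv i e x) = ∏ x ∈ S.erase i, sg (e x) := by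
        refine Finset.prod_congr rfl (fun x hx => ?_)
        have : x ≠ i := (Finset.mem_erase.mp hx).1
        simp [flipEquiv, this]
      rw [e3]
      have e4 : flipEquiv i e i = !(e i) := by simp [flipEquiv]
      rw [e4, sg_not]; ring
    rw [e1, e2]; ring
  linarith

/-- interpolation coefficients -/
lemma interp (m : ℕ) (hm : 2 ≤ m) : ∃ (a t : Fin m → ℝ), (∀ l, 0 ≤ t l ∧ t l ≤ 1) ∧
    0 < ∑ l, |a l| ∧ ∀ k < m, ∑ l, a l * t l ^ k = if k = 1 then 1 else 0 := by
  classical
  set t : Fin m → ℝ := fun l => (l : ℝ) / m with ht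
  have hm0 : (0 : ℝ) < m := by
    have : 0 < m := by omega
    exact_mod_cast this
  have hinj : Function.Injective t := by
    intro a b hab
    simp only [ht] at hab
    rw [div_left_inj' hm0.ne'] at hab
    exact Fin.ext (by exact_mod_cast hab)
  have hdet : (Matrix.vandermonde t).det ≠ 0 := Matrix.det_vandermonde_ne_zero_iff.mpr hinj
  set u : Fin m → ℝ := fun k => if (k : ℕ) = 1 then 1 else 0 with hu
  set a : Fin m → ℝ := Matrix.vecMul u (Matrix.vandermonde t)⁻¹ with ha
  have hav : Matrix.vecMul a (Matrix.vandermonde t) = u := by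
    rw [ha, Matrix.vecMul_vecMul, Matrix.nonsing_inv_mul _ (by simpa using hdet), Matrix.vecMul_one]
  have hk : ∀ k < m, ∑ l, a l * t l ^ k = if k = 1 then 1 else 0 := by
    intro k hkm
    have := congrFun hav ⟨k, hkm⟩
    simp only [Matrix.vecMul, dotProduct, Matrix.vandermonde_apply, hu] at this
    exact this
  refine ⟨a, t, ?_, ?_, hk⟩
  · intro l
    constructor
    · simp only [ht]; positivity
    · simp only [ht]
      rw [div_le_one hm0]
      exact_mod_cast l.2.le
  · by_contra hneg
    push Not at hneg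
    have h0 : ∑ l, |a l| = 0 := le_antisymm hneg (Finset.sum_nonneg (fun l _ => abs_nonneg _))
    have h1 : ∀ l, a l = 0 := by
      intro l
      have := (Finset.sum_eq_zero_iff_of_nonneg (fun l _ => abs_nonneg (a l))).mp h0 l (Finset.mem_univ l)
      exact abs_eq_zero.mp this
    have h2 := hk 1 (by omega)
    simp [h1] at h2

lemma sum_mem_smul {V : Type*} [AddCommGroup V] [Module ℝ V] {K : Set V} (hconv : Convex ℝ K)
    (hsym : ∀ x ∈ K, -x ∈ K) {m : ℕ} (a : Fin m → ℝ) (ha : 0 < ∑ l, |a l|) (x : Fin m → V)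
    (hx : ∀ l, x l ∈ K) : ∃ k ∈ K, ∑ l, a l • x l = (∑ l, |a l|) • k := by
  set C := ∑ l, |a l| with hC
  refine ⟨∑ l, (|a l| / C) • (if 0 ≤ a l then x l else - x l), ?_, ?_⟩
  · apply hconv.sum_mem
    · intro l _; positivity
    · rw [← Finset.sum_div, ← hC, div_self ha.ne']
    · intro l _
      split_ifs
      · exact hx l
      · exact hsym _ (hx l)
  · rw [Finset.smul_sum]
    refine Finset.sum_congr rfl (fun l _ => ?_)
    rw [smul_smul, mul_div_cancel₀ _ ha.ne']
    split_ifs with h
    · rw [abs_of_nonneg h]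
    · push Not at h
      rw [abs_of_neg h]; simp

theorem walsh_core (m : ℕ) (hm : 2 ≤ m) : ∃ C : ℝ, 0 < C ∧
    ∀ (n : ℕ) (F : Q n → Fin n → ℝ), (∀ e e' j, (∀ i, i ≤ j → e i = e' i) → F e j = F e' j) →
    ∀ K : Set (Fin n → ℝ), Convex ℝ K → (∀ x ∈ K, -x ∈ K) → (∀ e, F e ∈ K) →
    ∀ r : Fin n → ℝ, (∀ i, 0 ≤ r i ∧ r i ≤ 1) → (∀ i j, i ≤ j → r i ≤ r j) →
    ∀ c : Fin n → ℝ, (∀ i, |c i| ≤ r i) →
    ∃ R : Q n → Fin n → ℝ,
      (∀ e, ∃ k ∈ K, (fun j => ∑ i, (c i * sg (e i)) * avg (fun e' => sg (e' i) * F e' j)) + R e = C • k) ∧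
      avg (fun e => ∑ j, R e j ^ 2) ≤ C ^ 2 * ∑ j, r j ^ (2 * m) * avg (fun e => F e j ^ 2) := by
  classical
  obtain ⟨a, t, ht, hapos, hinterp⟩ := interp m hm
  set C := ∑ l, |a l| with hC
  refine ⟨C, hapos, ?_⟩
  intro n F htri K hconv hsym hFK r hr hmono c hc
  set κ : ℕ → ℝ := fun k => ∑ l, a l * t l ^ k with hκ
  have hκ1 : κ 1 = 1 := by simp only [hκ]; rw [hinterp 1 (by omega)]; simp
  have hκC : ∀ k, |κ k| ≤ C := by
    intro k
    simp only [hκ]
    refine le_trans (Finset.abs_sum_le_sum_abs _ _) (Finset.sum_le_sum (fun l _ => ?_))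
    rw [abs_mul, abs_of_nonneg (pow_nonneg (ht l).1 k)]
    calc |a l| * t l ^ k ≤ |a l| * 1 :=
          mul_le_mul_of_nonneg_left (pow_le_one₀ (ht l).1 (ht l).2) (abs_nonneg _)
      _ = |a l| := mul_one _
  set R : Q n → Fin n → ℝ := fun e j => ∑ S : Finset (Fin n),
    (if m ≤ S.card then κ S.card * (∏ i ∈ S, c i) * hat (fun e' => F e' j) S else 0) * chi S e with hR
  refine ⟨R, ?_, ?_⟩
  · intro e
    set b : Fin n → ℝ := fun i => c i * sg (e i) with hb
    have hb1 : ∀ i, |b i| ≤ 1 := by
      intro i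
      simp only [hb]
      rw [abs_mul]
      have : |sg (e i)| = 1 := by cases e i <;> simp [sg]
      rw [this, mul_one]
      exact le_trans (hc i) (hr i).2
    have hbt : ∀ l i, |t l * b i| ≤ 1 := by
      intro l i
      rw [abs_mul, abs_of_nonneg (ht l).1]
      exact mul_le_one₀ (ht l).2 (abs_nonneg _) (hb1 i)
    obtain ⟨k, hk, hkeq⟩ := sum_mem_smul hconv hsym a hapos
      (fun l => ∑ e' : Q n, wml (fun i => t l * b i) e' • F e')
      (fun l => hconv.sum_mem (fun e' _ => wml_nonneg _ (hbt l) e') (wml_sum _) (fun e' _ => hFK e'))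
    refine ⟨k, hk, ?_⟩
    rw [← hkeq]
    funext j
    simp only [Pi.add_apply, Finset.sum_apply, Pi.smul_apply, smul_eq_mul]
    have e1 : ∀ l, ∑ e' : Q n, wml (fun i => t l * b i) e' * F e' j = ml (fun e' => F e' j) (fun i => t l * b i) := by
      intro l; rfl
    simp only [e1, ml_expand]
    have e2 : ∀ l, ∑ S : Finset (Fin n), (∏ i ∈ S, (t l * b i)) * hat (fun e' => F e' j) S =
        ∑ S : Finset (Fin n), t l ^ S.card * ((∏ i ∈ S, b i) * hat (fun e' => F e' j) S) := by
      intro l
      refine Finset.sum_congr rfl (fun S _ => ?_)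
      rw [Finset.prod_mul_distrib, Finset.prod_const]; ring
    simp only [e2, Finset.mul_sum]
    rw [Finset.sum_comm]
    have e3 : ∀ S : Finset (Fin n), ∑ l, a l * (t l ^ S.card * ((∏ i ∈ S, b i) * hat (fun e' => F e' j) S))
        = κ S.card * ((∏ i ∈ S, b i) * hat (fun e' => F e' j) S) := by
      intro S
      simp only [hκ]
      rw [Finset.sum_mul]
      refine Finset.sum_congr rfl (fun l _ => ?_)
      ring
    simp only [e3]
    -- split into level one, high levels
    have e4 : ∀ S : Finset (Fin n), κ S.card * ((∏ i ∈ S, b i) * hat (fun e' => F e' j) S) =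
        (if S.card = 1 then (∏ i ∈ S, b i) * hat (fun e' => F e' j) S else 0) +
        (if m ≤ S.card then κ S.card * (∏ i ∈ S, c i) * hat (fun e' => F e' j) S else 0) * chi S e := by
      intro S
      have e5 : ∏ i ∈ S, b i = (∏ i ∈ S, c i) * chi S e := by
        simp only [hb]; rw [Finset.prod_mul_distrib]; rfl
      by_cases h1 : S.card = 1
      · have h2 : ¬ m ≤ S.card := by omega
        rw [if_pos h1, if_neg h2, h1, hκ1]; ring
      · rw [if_neg h1]
        by_cases h2 : m ≤ S.card
        · rw [if_pos h2, e5]; ring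
        · rw [if_neg h2]
          have h3 : κ S.card = 0 := by
            simp only [hκ]
            rw [hinterp _ (by omega), if_neg h1]
          rw [h3]; ring
    simp only [e4]
    rw [Finset.sum_add_distrib]
    congr 1
    -- level one
    rw [← Finset.sum_filter]
    have e6 : (Finset.univ.filter (fun S : Finset (Fin n) => S.card = 1)) =
        (Finset.univ : Finset (Fin n)).map ⟨fun i => {i}, Finset.singleton_injective⟩ := by
      ext S
      simp only [Finset.mem_filter, Finset.mem_univ, true_and, Finset.mem_map,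
        Function.Embedding.coeFn_mk, Finset.card_eq_one]
      constructor
      · rintro ⟨i, rfl⟩; exact ⟨i, rfl⟩
      · rintro ⟨i, rfl⟩; exact ⟨i, rfl⟩
    rw [e6, Finset.sum_map]
    refine Finset.sum_congr rfl (fun i _ => ?_)
    simp only [Function.Embedding.coeFn_mk, Finset.prod_singleton, hb, hat, chi]
  · rw [avg_sum]
    rw [Finset.mul_sum]
    refine Finset.sum_le_sum (fun j _ => ?_)
    simp only [hR]
    rw [avg_sq_sum, ← parseval, Finset.mul_sum, Finset.mul_sum]
    refine Finset.sum_le_sum (fun S _ => ?_)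
    by_cases hS : m ≤ S.card
    · rw [if_pos hS]
      by_cases hj : ∃ i ∈ S, j < i
      · obtain ⟨i, hiS, hi⟩ := hj
        have : hat (fun e' => F e' j) S = 0 :=
          hat_tri _ j (fun e e' h => htri e e' j h) S i hiS hi
        rw [this]; simp
      · push Not at hj
        have h1 : (κ S.card) ^ 2 ≤ C ^ 2 := by
          rw [← sq_abs]
          exact pow_le_pow_left₀ (abs_nonneg _) (hκC _) 2
        have h2 : (∏ i ∈ S, c i) ^ 2 ≤ r j ^ (2 * m) := by
          rw [← sq_abs, Finset.abs_prod]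
          have h3 : ∏ i ∈ S, |c i| ≤ ∏ _i ∈ S, r j :=
            Finset.prod_le_prod (fun i _ => abs_nonneg _)
              (fun i hi => le_trans (hc i) (hmono i j (hj i hi)))
          rw [Finset.prod_const] at h3
          have h4 : r j ^ S.card ≤ r j ^ m := pow_le_pow_of_le_one (hr j).1 (hr j).2 hS
          have h5 : 0 ≤ ∏ i ∈ S, |c i| := Finset.prod_nonneg (fun i _ => abs_nonneg _)
          calc (∏ i ∈ S, |c i|) ^ 2 ≤ (r j ^ m) ^ 2 := pow_le_pow_left₀ h5 (le_trans h3 h4) 2
            _ = r j ^ (2 * m) := by rw [← pow_mul]; ring_nf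
        calc (κ S.card * (∏ i ∈ S, c i) * hat (fun e' => F e' j) S) ^ 2
            = (κ S.card) ^ 2 * (∏ i ∈ S, c i) ^ 2 * (hat (fun e' => F e' j) S) ^ 2 := by ring
          _ ≤ C ^ 2 * r j ^ (2 * m) * (hat (fun e' => F e' j) S) ^ 2 := by
              apply mul_le_mul_of_nonneg_right _ (sq_nonneg _)
              exact mul_le_mul h1 h2 (sq_nonneg _) (sq_nonneg _)
          _ = C ^ 2 * (r j ^ (2 * m) * (hat (fun e' => F e' j) S) ^ 2) := by ring
    · rw [if_neg hS]
      have : 0 ≤ r j ^ (2 * m) := pow_nonneg (hr j).1 _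
      have h0 : (0 : ℝ) ^ 2 = 0 := by norm_num
      rw [h0]
      positivity

end Pool.Agent.Helper42.Pis
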