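import Mathlib
import Pool.Agent.Helper42.Pis.StarA
import Pool.Agent.Helper42.Pis.Tree
import Pool.Agent.Helper42.Pis.Walsh

set_option autoImplicit false

open Finset MeasureTheory ProbabilityTheory
open scoped ENNReal

namespace Pool.Agent.Helper42.Pis

lemma avg_sub {n : ℕ} (f g : Q n → ℝ) : avg (fun e => f e - g e) = avg f - avg g := by
  unfold avg
  rw [Finset.sum_sub_distrib, sub_div]

lemma avg_sq_le {n : ℕ} (f : Q n → ℝ) (i : Fin n) : (avg (fun e => sg (e i) * f e)) ^ 2 ≤ avg (fun e => f e ^ 2) := by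
  classical
  have h := parseval f
  have h2 : hat f {i} ^ 2 ≤ ∑ S, hat f S ^ 2 :=
    Finset.single_le_sum (f := fun S => hat f S ^ 2) (fun S _ => sq_nonneg _) (Finset.mem_univ _)
  rw [h] at h2
  refine le_trans (le_of_eq ?_) h2
  unfold hat chi
  simp

theorem tree_data {n : ℕ} {K : Set (Fin n → ℝ)} (hK : Body K) (w : Fin n → ℝ) (hw : ∀ i, 0 < w i)
    (hP : Real.exp (-2 * n) ≤ (gm n).real {x | (fun i => w i * x i) ∈ K}) :
    ∃ F : Q n → Fin n → ℝ, (∀ e e' j, (∀ i, i ≤ j → e i = e' i) → F e j = F e' j) ∧ (∀ e, F e ∈ K) ∧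
      (∀ j, 0 < avg (fun e => sg (e j) * F e j)) ∧
      (∑ j, Real.log (w j) - 6 * n ≤ ∑ j, Real.log (avg (fun e => sg (e j) * F e j))) ∧
      (∑ j, avg (fun e => F e j ^ 2) / w j ^ 2 ≤ 24 * n) := by
  classical
  have hKm : MeasurableSet K := hK.closed.measurableSet
  set φ : (Fin n → ℝ) → ℝ := fun x => Real.exp (-(∑ i, (x i / w i) ^ 2) / 2) with hφ
  have hφm : Measurable φ := by simp only [hφ]; fun_prop
  set f : (Fin n → ℝ) → ℝ := K.indicator φ with hf
  have hfm : Measurable f := hφm.indicator hKm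
  have hφpos : ∀ x, 0 < φ x := fun x => Real.exp_pos _
  have hφ1 : ∀ x, φ x ≤ 1 := by
    intro x
    simp only [hφ]
    apply Real.exp_le_one_iff.mpr
    have : 0 ≤ ∑ i, (x i / w i) ^ 2 := Finset.sum_nonneg (fun i _ => sq_nonneg _)
    linarith
  have hf0 : ∀ x, 0 ≤ f x := fun x => Set.indicator_nonneg (fun x _ => (hφpos x).le) x
  have hf1 : ∀ x, f x ≤ 1 := fun x => Set.indicator_le' (fun x _ => hφ1 x) (fun x _ => by norm_num) x
  obtain ⟨R, hR⟩ := hK.bdd.exists_norm_le
  have hfR : ∀ x, f x ≠ 0 → ∀ i, |x i| ≤ R := by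
    intro x hx i
    have hxK : x ∈ K := by
      by_contra h
      exact hx (Set.indicator_of_notMem h _)
    exact le_trans (norm_le_pi_norm x i) (hR x hxK)
  -- the integral
  have hprodpos : 0 < ∏ i, w i := Finset.prod_pos (fun i _ => hw i)
  have hdet : (Matrix.diagonal w).det ≠ 0 := by rw [Matrix.det_diagonal]; exact hprodpos.ne'
  have hPeq : (gm n).real {x | (fun i => w i * x i) ∈ K} =
      (∏ i, w i)⁻¹ * ((Real.sqrt (2 * Real.pi))⁻¹ ^ n * ∫ x, f x) := by
    have h1 := gm_linear (Matrix.diagonal w) hdet hKm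
    have e1 : {x : Fin n → ℝ | (Matrix.diagonal w).mulVec x ∈ K} = {x | (fun i => w i * x i) ∈ K} := by
      ext x
      simp only [Set.mem_ofPred_eq]
      have : (Matrix.diagonal w).mulVec x = fun i => w i * x i := by
        funext i; rw [Matrix.mulVec_diagonal]
      rw [this]
    rw [e1, Matrix.det_diagonal] at h1
    rw [measureReal_def, h1, ENNReal.toReal_mul, ENNReal.toReal_ofReal (abs_nonneg _),
      abs_of_pos (inv_pos.mpr hprodpos)]
    congr 1
    have e2 : ∀ x : Fin n → ℝ, gd n ((Matrix.diagonal w)⁻¹.mulVec x) = (Real.sqrt (2 * Real.pi))⁻¹ ^ n * φ x := by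
      intro x
      unfold gd
      simp only [hφ]
      congr 4
      refine Finset.sum_congr rfl (fun i _ => ?_)
      have : (Matrix.diagonal w)⁻¹ = Matrix.diagonal (fun i => (w i)⁻¹) := by
        apply Matrix.inv_eq_left_inv
        rw [Matrix.diagonal_mul_diagonal, ← Matrix.diagonal_one]
        congr 1
        funext i
        exact inv_mul_cancel₀ (hw i).ne'
      rw [this, Matrix.mulVec_diagonal]
      congr 1
      ring
    simp only [e2]
    have e3 : ∫ x, f x = ∫ x in K, φ x := integral_indicator hKm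
    rw [e3, ← integral_const_mul]
    rw [integral_eq_lintegral_of_nonneg_ae (Filter.Eventually.of_forall (fun x => by
      have := (hφpos x).le
      simp only [Pi.zero_apply]
      positivity)) (by
      exact (hφm.const_mul _).aestronglyMeasurable)]
  have hsqpi : (1 : ℝ) ≤ Real.sqrt (2 * Real.pi) := by
    rw [Real.one_le_sqrt]
    have := Real.pi_gt_three
    linarith
  have hint_pos : 0 < ∫ x, f x := by
    rcases eq_or_lt_of_le (integral_nonneg hf0 : 0 ≤ ∫ x, f x) with h | h
    · rw [← h] at hPeq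
      rw [hPeq, mul_zero, mul_zero] at hP
      have := Real.exp_pos (-2 * (n : ℝ))
      linarith
    · exact h
  have hlogI : ∑ j, Real.log (w j) - 2 * n ≤ Real.log (∫ x, f x) := by
    have h1 : Real.log (Real.exp (-2 * n)) ≤ Real.log ((∏ i, w i)⁻¹ * ((Real.sqrt (2 * Real.pi))⁻¹ ^ n * ∫ x, f x)) := by
      rw [← hPeq]
      exact Real.log_le_log (Real.exp_pos _) hP
    rw [Real.log_exp, Real.log_mul (by positivity) (by positivity), Real.log_mul (by positivity) (by positivity),
      Real.log_inv, Real.log_prod (fun i _ => (hw i).ne'), Real.log_pow, Real.log_inv] at h1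
    have h2 : 0 ≤ Real.log (Real.sqrt (2 * Real.pi)) := Real.log_nonneg hsqpi
    have h3 : 0 ≤ (n : ℝ) * Real.log (Real.sqrt (2 * Real.pi)) := by positivity
    linarith
  obtain ⟨F, c1, c2, c3, c4⟩ := tree n f hfm hf0 1 hf1 R hfR hint_pos
  have hFK : ∀ e, F e ∈ K := by
    intro e
    by_contra h
    have := c2 e
    rw [hf, Set.indicator_of_notMem h] at this
    exact lt_irrefl _ this
  have hlogf : ∀ e, Real.log (f (F e)) = -(∑ i, (F e i / w i) ^ 2) / 2 := by
    intro e
    rw [hf, Set.indicator_of_mem (hFK e)]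
    simp only [hφ]
    rw [Real.log_exp]
  set s : Fin n → ℝ := fun j => avg (fun e => F e j ^ 2) / w j ^ 2 with hs
  set D : Fin n → ℝ := fun j => avg (fun e => sg (e j) * F e j) with hD
  have havg : avg (fun e => Real.log (f (F e))) = -(∑ j, s j) / 2 := by
    simp only [hlogf]
    have e1 : (fun e : Q n => -(∑ i, (F e i / w i) ^ 2) / 2) = fun e => (-1/2 : ℝ) * ∑ i, (1 / w i ^ 2) * F e i ^ 2 := by
      funext e
      have : ∑ i, (F e i / w i) ^ 2 = ∑ i, (1 / w i ^ 2) * F e i ^ 2 := by
        refine Finset.sum_congr rfl (fun i _ => ?_)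
        rw [div_pow]; ring
      rw [this]; ring
    rw [e1, avg_mul_const, avg_sum]
    have e2 : ∀ i, avg (fun e => (1 / w i ^ 2) * F e i ^ 2) = s i := by
      intro i
      rw [avg_mul_const]
      simp only [hs]
      ring
    simp only [e2]
    ring
  rw [havg] at c4
  have hDs : ∀ j, D j ^ 2 ≤ w j ^ 2 * s j := by
    intro j
    simp only [hs]
    rw [mul_div_cancel₀ _ (pow_ne_zero 2 (hw j).ne')]
    exact avg_sq_le (fun e => F e j) j
  have hspos : ∀ j, 0 < s j := by
    intro j
    have h1 := hDs j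
    have h2 : 0 < D j ^ 2 := by have := c3 j; positivity
    have h3 : 0 < w j ^ 2 * s j := lt_of_lt_of_le h2 h1
    exact (pos_iff_pos_of_mul_pos h3).mp (by have := hw j; positivity)
  have hlogD : ∀ j, Real.log (2 * D j) ≤ Real.log 2 + Real.log (w j) + s j / 4 := by
    intro j
    have hDj := c3 j
    rw [Real.log_mul (by norm_num) hDj.ne']
    have h1 : Real.log (D j ^ 2) ≤ Real.log (w j ^ 2 * s j) := Real.log_le_log (by positivity) (hDs j)
    rw [Real.log_mul (by have := hw j; positivity) (hspos j).ne', Real.log_pow, Real.log_pow] at h1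
    push_cast at h1
    have h2 : Real.log (s j) ≤ s j / 2 := by
      have h3 := Real.log_le_sub_one_of_pos (x := s j / 2) (by have := hspos j; positivity)
      rw [Real.log_div (hspos j).ne' (by norm_num)] at h3
      have := Real.log_two_lt_d9
      linarith
    linarith
  have hlog8 : Real.log 8 ≤ 3 := by
    have : Real.log 8 = 3 * Real.log 2 := by
      rw [show (8 : ℝ) = 2 ^ 3 by norm_num, Real.log_pow]; norm_num
    have := Real.log_two_lt_d9
    linarith
  have hn0 : (0 : ℝ) ≤ n := Nat.cast_nonneg _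
  have hsum0 : 0 ≤ ∑ j, s j := Finset.sum_nonneg (fun j _ => (hspos j).le)
  have hn8 : (n : ℝ) * Real.log 8 ≤ n * 3 := mul_le_mul_of_nonneg_left hlog8 hn0
  refine ⟨F, c1, hFK, c3, ?_, ?_⟩
  · have h1 : ∑ j, Real.log (2 * D j) = n * Real.log 2 + ∑ j, Real.log (D j) := by
      have : ∀ j, Real.log (2 * D j) = Real.log 2 + Real.log (D j) := fun j =>
        Real.log_mul (by norm_num) (c3 j).ne'
      simp only [this]
      rw [Finset.sum_add_distrib]
      simp
    have h2 : (n : ℝ) * Real.log 2 ≤ n * 1 := mul_le_mul_of_nonneg_left (by have := Real.log_two_lt_d9; linarith) hn0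
    linarith
  · have h1 := Finset.sum_le_sum (fun j (_ : j ∈ (Finset.univ : Finset (Fin n))) => hlogD j)
    rw [Finset.sum_add_distrib, Finset.sum_add_distrib, ← Finset.sum_div] at h1
    simp only [Finset.sum_const, Finset.card_univ, Fintype.card_fin, nsmul_eq_mul] at h1
    have h2 : (n : ℝ) * Real.log 2 ≤ n * 1 := mul_le_mul_of_nonneg_left (by have := Real.log_two_lt_d9; linarith) hn0
    have h3 : ∑ j, avg (fun e => F e j ^ 2) / w j ^ 2 = ∑ j, s j := rfl
    rw [h3]
    linarith

end Pool.Agent.Helper42.Pis
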