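import Mathlib
import Pool.Agent.Helper42.Pis.StarB

set_option autoImplicit false

open Finset MeasureTheory ProbabilityTheory
open scoped ENNReal

namespace Pool.Agent.Helper42.Pis

lemma gm_shift_real {n : ℕ} (h : Fin n → ℝ) {K : Set (Fin n → ℝ)} (hK : MeasurableSet K)
    (hsym : ∀ x ∈ K, -x ∈ K) :
    Real.exp (-(∑ i, h i ^ 2) / 2) * (gm n).real K ≤ (gm n).real {x | x - h ∈ K} := by
  have h1 := gm_shift h hK hsym
  rw [measureReal_def, measureReal_def]
  have h2 := ENNReal.toReal_mono (measure_ne_top _ _) h1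
  rwa [ENNReal.toReal_mul, ENNReal.toReal_ofReal (Real.exp_pos _).le] at h2

/-- parameters -/
lemma lam_bound (m : ℕ) (hm : 2 ≤ m) (δ : ℝ) (h0 : 0 < δ) (h1 : δ ≤ 1) :
    0 < Real.sqrt (2 * Real.log (4 / δ)) ∧
    (∀ n : ℕ, Real.exp (-δ * n) ≤ (gm n).real {x | ∀ i, |x i| ≤ Real.sqrt (2 * Real.log (4 / δ))}) ∧
    Real.log (Real.sqrt (2 * Real.log (4 / δ))) ≤
      (1 / (4 * m : ℝ)) * Real.log (1 / δ) + (Real.log (4 * m) + 1) := by
  have hm' : (2 : ℝ) ≤ m := by exact_mod_cast hm
  have h4 : 4 ≤ 4 / δ := by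
    rw [le_div_iff₀ h0]; linarith
  have hlog4 : 1 < Real.log 4 := by
    have : Real.log 4 = 2 * Real.log 2 := by
      rw [show (4 : ℝ) = 2 ^ 2 by norm_num, Real.log_pow]; norm_num
    have := Real.log_two_gt_d9
    linarith
  have hl : 1 < Real.log (4 / δ) := lt_of_lt_of_le hlog4 (Real.log_le_log (by norm_num) h4)
  have hpos : 0 < Real.sqrt (2 * Real.log (4 / δ)) := Real.sqrt_pos.mpr (by linarith)
  refine ⟨hpos, ?_, ?_⟩
  · intro n
    have e1 : 2 * Real.exp (-(Real.sqrt (2 * Real.log (4 / δ))) ^ 2 / 2) = δ / 2 := by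
      rw [Real.sq_sqrt (by linarith)]
      have : -(2 * Real.log (4 / δ)) / 2 = - Real.log (4 / δ) := by ring
      rw [this, Real.exp_neg, Real.exp_log (by positivity)]
      field_simp; norm_num
    have h2 := gm_box (n := n) (Real.sqrt (2 * Real.log (4 / δ))) hpos.le (by rw [e1]; linarith)
    rw [e1] at h2
    refine le_trans ?_ h2
    have e2 : Real.exp (-δ) ≤ 1 - δ / 2 := by
      have h3 : 1 + δ ≤ Real.exp δ := by linarith [Real.add_one_le_exp δ]
      rw [Real.exp_neg]
      have h5 : (Real.exp δ)⁻¹ ≤ (1 + δ)⁻¹ := inv_anti₀ (by linarith) h3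
      refine le_trans h5 ?_
      rw [inv_le_iff_one_le_mul₀ (by linarith)]
      nlinarith
    have e3 : Real.exp (-δ * n) = Real.exp (-δ) ^ n := by
      rw [mul_comm, Real.exp_nat_mul]
    rw [e3]
    exact pow_le_pow_left₀ (Real.exp_pos _).le e2 n
  · rw [Real.log_sqrt (by linarith)]
    have h5 : 2 * Real.log (4 / δ) ≤ (4 * m) * Real.exp (Real.log (4 / δ) / (2 * m)) := by
      have h6 : Real.log (4 / δ) / (2 * m) ≤ Real.exp (Real.log (4 / δ) / (2 * m)) := by
        have := Real.add_one_le_exp (Real.log (4 / δ) / (2 * m))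
        linarith
      have h7 : 2 * Real.log (4 / δ) = (4 * m) * (Real.log (4 / δ) / (2 * m)) := by field_simp; ring
      rw [h7]
      exact mul_le_mul_of_nonneg_left h6 (by positivity)
    have h8 := Real.log_le_log (by linarith) h5
    rw [Real.log_mul (by positivity) (Real.exp_pos _).ne', Real.log_exp] at h8
    have h9 : Real.log (4 / δ) = Real.log 4 + Real.log (1 / δ) := by
      rw [← Real.log_mul (by norm_num) (by positivity)]; congr 1; ring
    have h10 : 0 ≤ Real.log (4 * m) := Real.log_nonneg (by linarith)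
    have h11 : Real.log 4 ≤ 2 := by
      have : Real.log 4 = 2 * Real.log 2 := by
        rw [show (4 : ℝ) = 2 ^ 2 by norm_num, Real.log_pow]; norm_num
      have := Real.log_two_lt_d9
      linarith
    have h12 : Real.log (4 / δ) / (2 * m) / 2 ≤ (1 / (4 * m : ℝ)) * Real.log (1 / δ) + 1 / 2 := by
      rw [h9]
      have e : (Real.log 4 + Real.log (1 / δ)) / (2 * m) / 2 = (1 / (4 * m : ℝ)) * Real.log (1 / δ) + Real.log 4 / (4 * m) := by
        field_simp; ring
      rw [e]
      have : Real.log 4 / (4 * m) ≤ 1 / 2 := by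
        rw [div_le_iff₀ (by positivity)]
        nlinarith
      linarith
    linarith

theorem star_core (m : ℕ) (hm : 2 ≤ m) : ∃ C1 : ℝ, ∀ (n : ℕ), ∀ K : Set (Fin n → ℝ), Body K →
    ∀ w : Fin n → ℝ, (∀ i, 1 / 2 ≤ w i) → (∀ i j, i ≤ j → w j ≤ w i) →
    ∀ δ : ℝ, 0 < δ → δ ≤ 1 → 1 ≤ δ * n → Real.exp (-δ * n) ≤ (gm n).real K →
      Real.exp (-2 * n) ≤ (gm n).real {x | (fun i => w i * x i) ∈ K} →
      ∃ v : Matrix (Fin n) (Fin n) ℝ, v.det ≠ 0 ∧
        Real.exp (-(8 * δ) * n) ≤ (gm n).real {x | v.mulVec x ∈ K} ∧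
        (1 - 1 / (m : ℝ)) * ∑ i, Real.log (w i) - n * ((1 / (m : ℝ)) * Real.log (1 / δ) + C1) ≤ Real.log |v.det| := by
  classical
  obtain ⟨C, hC, hcore⟩ := walsh_core m hm
  have hm' : (2 : ℝ) ≤ m := by exact_mod_cast hm
  have hs2 : (0 : ℝ) < Real.sqrt 2 := Real.sqrt_pos.mpr (by norm_num)
  refine ⟨Real.log (Real.sqrt 2 * (C + 1)) + (1 / (m : ℝ)) * Real.log (7 * (C + 1)) + 6 + (Real.log (4 * m) + 1), ?_⟩
  intro n K hK w hw hwanti δ hδ0 hδ1 hδn hγ hP
  have hn0 : (0 : ℝ) ≤ n := Nat.cast_nonneg _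
  have hwpos : ∀ i, 0 < w i := fun i => lt_of_lt_of_le (by norm_num) (hw i)
  obtain ⟨F, htri, hFK, hD, hlogD, hs⟩ := tree_data hK w hwpos hP
  obtain ⟨hΛpos, hΛbox, hΛlog⟩ := lam_bound m hm δ hδ0 hδ1
  set Λ := Real.sqrt (2 * Real.log (4 / δ)) with hΛ
  set D : Fin n → ℝ := fun j => avg (fun e => sg (e j) * F e j) with hDdef
  -- η and r
  set η := Real.sqrt δ / (7 * (C + 1)) with hη
  have hηpos : 0 < η := by rw [hη]; have := Real.sqrt_pos.mpr hδ0; positivity
  have hη1 : η ≤ 1 / 2 := by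
    rw [hη, div_le_iff₀ (by positivity)]
    have : Real.sqrt δ ≤ 1 := by rw [Real.sqrt_le_one]; exact hδ1
    nlinarith
  set r : Fin n → ℝ := fun i => (η / w i) ^ (1 / (m : ℝ)) with hr
  have hηw : ∀ i, 0 < η / w i := fun i => div_pos hηpos (hwpos i)
  have hηw1 : ∀ i, η / w i ≤ 1 := by
    intro i
    rw [div_le_one (hwpos i)]
    exact le_trans hη1 (hw i)
  have hrpos : ∀ i, 0 < r i := fun i => Real.rpow_pos_of_pos (hηw i) _
  have hr1 : ∀ i, r i ≤ 1 := fun i => Real.rpow_le_one (hηw i).le (hηw1 i) (by positivity)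
  have hrmono : ∀ i j, i ≤ j → r i ≤ r j := by
    intro i j hij
    apply Real.rpow_le_rpow (hηw i).le _ (by positivity)
    apply div_le_div_of_nonneg_left hηpos.le (hwpos j) (hwanti i j hij)
  have hrm : ∀ i, r i ^ (2 * m) = (η / w i) ^ 2 := by
    intro i
    simp only [hr]
    rw [mul_comm 2 m, pow_mul, ← Real.rpow_natCast ((η / w i) ^ (1 / (m : ℝ))) m, ← Real.rpow_mul (hηw i).le]
    rw [one_div, inv_mul_cancel₀ (by positivity), Real.rpow_one]
  -- the matrix
  set v0 : Matrix (Fin n) (Fin n) ℝ := fun j i => (r i / Λ) * avg (fun e => sg (e i) * F e j) with hv0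
  have hv0tri : v0.IsLowerTriangular := by
    intro i j hij
    have hij' : i < j := hij
    simp only [hv0]
    have : avg (fun e => sg (e j) * F e i) = hat (fun e => F e i) {j} := by
      unfold hat chi; simp
    rw [this, hat_tri (fun e => F e i) i (fun e e' h => htri e e' i h) {j} j (by simp) hij', mul_zero]
  have hdet0 : v0.det = ∏ i, ((r i / Λ) * D i) := by
    rw [Matrix.det_of_isLowerTriangular v0 hv0tri]
  have hdpos : 0 < v0.det := by
    rw [hdet0]
    exact Finset.prod_pos (fun i _ => mul_pos (div_pos (hrpos i) hΛpos) (hD i))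
  -- the dilated body
  set K' : Set (Fin n → ℝ) := {x | (C + 1)⁻¹ • x ∈ K} with hK'
  have hC1 : 0 < C + 1 := by linarith
  have hK'conv : Convex ℝ K' := by
    intro x hx y hy a b ha hb hab
    simp only [hK', Set.mem_ofPred_eq] at hx hy ⊢
    rw [smul_add, smul_comm, smul_comm _ b]
    exact hK.conv hx hy ha hb hab
  have hK'sym : ∀ x ∈ K', -x ∈ K' := by
    intro x hx
    simp only [hK', Set.mem_ofPred_eq] at hx ⊢
    rw [smul_neg]; exact hK.symm _ hx
  have hK'm : MeasurableSet K' := by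
    have : Measurable (fun x : Fin n → ℝ => (C + 1)⁻¹ • x) := by fun_prop
    exact this hK.closed.measurableSet
  set S : Set ((Fin n → ℝ) × (Fin n → ℝ)) := {z | v0.mulVec z.1 + z.2 ∈ K'} with hS
  have hSm : MeasurableSet S := (((mulVec_meas v0).comp measurable_fst).add measurable_snd) hK'm
  set G : Set (Fin n → ℝ) := {x | ∀ i, |x i| ≤ Λ} with hG
  have hGm : MeasurableSet G := by
    have : G = ⋂ i, {x : Fin n → ℝ | |x i| ≤ Λ} := by ext x; simp [hG]
    rw [this]
    exact MeasurableSet.iInter (fun i => measurableSet_le (by fun_prop) measurable_const)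
  set q2 := Real.exp (-(3 / 2 * δ) * n) with hq2
  have hq2pos : 0 < q2 := Real.exp_pos _
  have hδnpos : 0 < δ * n := by linarith
  have hprob : ∀ g ∈ G, q2 / 2 ≤ avg (fun e => (gm n).real {g' | ((fun i => sg (e i) * g i), g') ∈ S}) := by
    intro g hg
    obtain ⟨R, hR1, hR2⟩ := hcore n F htri K hK.conv hK.symm hFK r (fun i => ⟨(hrpos i).le, hr1 i⟩) hrmono
      (fun i => r i * (g i / Λ)) (fun i => by
        rw [abs_mul, abs_of_pos (hrpos i), abs_div, abs_of_pos hΛpos]
        have h1 : |g i| / Λ ≤ 1 := by rw [div_le_one hΛpos]; exact hg i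
        calc r i * (|g i| / Λ) ≤ r i * 1 := mul_le_mul_of_nonneg_left h1 (hrpos i).le
          _ = r i := mul_one _)
    have hRavg : avg (fun e => ∑ j, R e j ^ 2) ≤ δ * n / 2 := by
      refine le_trans hR2 ?_
      have e1 : ∀ j, r j ^ (2 * m) * avg (fun e => F e j ^ 2) = η ^ 2 * (avg (fun e => F e j ^ 2) / w j ^ 2) := by
        intro j
        rw [hrm, div_pow]; ring
      simp only [e1]
      rw [← Finset.mul_sum]
      have e2 : η ^ 2 = δ / (49 * (C + 1) ^ 2) := by
        rw [hη, div_pow, Real.sq_sqrt hδ0.le]; ring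
      calc C ^ 2 * (η ^ 2 * ∑ j, avg (fun e => F e j ^ 2) / w j ^ 2)
          ≤ C ^ 2 * (η ^ 2 * (24 * n)) := by
            apply mul_le_mul_of_nonneg_left _ (sq_nonneg _)
            exact mul_le_mul_of_nonneg_left hs (sq_nonneg _)
        _ = (C ^ 2 / (C + 1) ^ 2) * (24 / 49) * (δ * n) := by
            rw [e2]; field_simp
        _ ≤ 1 * (24 / 49) * (δ * n) := by
            apply mul_le_mul_of_nonneg_right _ hδnpos.le
            apply mul_le_mul_of_nonneg_right _ (by norm_num)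
            rw [div_le_one (by positivity)]
            exact pow_le_pow_left₀ hC.le (by linarith) 2
        _ ≤ δ * n / 2 := by linarith
    have hpt : ∀ e : Q n, q2 * (1 - (1 / (δ * n)) * ∑ j, R e j ^ 2) ≤
        (gm n).real {g' | ((fun i => sg (e i) * g i), g') ∈ S} := by
      intro e
      by_cases hRe : ∑ j, R e j ^ 2 ≤ δ * n
      · have h0 : 0 ≤ (1 / (δ * n)) * ∑ j, R e j ^ 2 :=
          mul_nonneg (by positivity) (Finset.sum_nonneg (fun j _ => sq_nonneg _))
        have h1 : q2 * (1 - (1 / (δ * n)) * ∑ j, R e j ^ 2) ≤ q2 * 1 :=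
          mul_le_mul_of_nonneg_left (by linarith) hq2pos.le
        refine le_trans h1 ?_
        rw [mul_one]
        have h2 := gm_shift_real (R e) hK.closed.measurableSet hK.symm
        have h3 : q2 ≤ Real.exp (-(∑ i, R e i ^ 2) / 2) * (gm n).real K := by
          have e1 : q2 = Real.exp (-(δ * n) / 2) * Real.exp (-δ * n) := by
            rw [hq2, ← Real.exp_add]; congr 1; ring
          rw [e1]
          apply mul_le_mul _ hγ (Real.exp_pos _).le (Real.exp_pos _).le
          apply Real.exp_le_exp.mpr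
          linarith
        refine le_trans h3 (le_trans h2 ?_)
        refine measureReal_mono ?_ (measure_ne_top _ _)
        intro g' hg'
        simp only [Set.mem_ofPred_eq] at hg'
        obtain ⟨k, hk, hkeq⟩ := hR1 e
        change v0.mulVec (fun i => sg (e i) * g i) + g' ∈ K'
        simp only [hK', Set.mem_ofPred_eq]
        have e2 : v0.mulVec (fun i => sg (e i) * g i) = C • k - R e := by
          rw [← hkeq]
          funext j
          simp only [Pi.sub_apply, Pi.add_apply, add_sub_cancel_right]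
          simp only [Matrix.mulVec, dotProduct, hv0]
          refine Finset.sum_congr rfl (fun i _ => ?_)
          ring
        rw [e2]
        have e3 : (C + 1)⁻¹ • (C • k - R e + g') = (C / (C + 1)) • k + (1 / (C + 1)) • (g' - R e) := by
          rw [smul_add, smul_sub, smul_sub, smul_smul, one_div]
          rw [show (C + 1)⁻¹ * C = C / (C + 1) by ring]
          abel
        rw [e3]
        exact hK.conv hk hg' (by positivity) (by positivity) (by field_simp)
      · push Not at hRe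
        have h1 : 1 ≤ (1 / (δ * n)) * ∑ j, R e j ^ 2 := by
          rw [one_div, inv_mul_eq_div, le_div_iff₀ hδnpos, one_mul]; exact hRe.le
        have h2 : q2 * (1 - (1 / (δ * n)) * ∑ j, R e j ^ 2) ≤ 0 :=
          mul_nonpos_of_nonneg_of_nonpos hq2pos.le (by linarith)
        exact le_trans h2 measureReal_nonneg
    have h5 := avg_mono hpt
    refine le_trans ?_ h5
    have e4 : avg (fun e => q2 * (1 - (1 / (δ * n)) * ∑ j, R e j ^ 2)) =
        q2 * (1 - (1 / (δ * n)) * avg (fun e => ∑ j, R e j ^ 2)) := by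
      rw [avg_mul_const, avg_sub, avg_const, avg_mul_const]
    rw [e4]
    have h6 : (1 / (δ * n)) * avg (fun e => ∑ j, R e j ^ 2) ≤ 1 / 2 := by
      calc (1 / (δ * n)) * avg (fun e => ∑ j, R e j ^ 2) ≤ (1 / (δ * n)) * (δ * n / 2) :=
            mul_le_mul_of_nonneg_left hRavg (by positivity)
        _ = (δ * n) / (δ * n) / 2 := by ring
        _ = 1 / 2 := by rw [div_self hδnpos.ne']
    have h7 : q2 * (1 / 2) ≤ q2 * (1 - (1 / (δ * n)) * avg (fun e => ∑ j, R e j ^ 2)) :=
      mul_le_mul_of_nonneg_left (by linarith) hq2pos.le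
    linarith
  have hprod := prod_lower S hSm G hGm (q2 / 2) (by positivity) hprob
  have hbox := hΛbox n
  set p := q2 / 2 * Real.exp (-δ * n) with hp
  have hp0 : 0 ≤ p := by positivity
  have hpS : p ≤ ((gm n).prod (gm n)).real S :=
    le_trans (mul_le_mul_of_nonneg_left hbox (by positivity)) hprod
  have hfin := sym_copies v0 hK'conv hK'sym hK'm hp0 hpS
  -- final matrix
  set c := (Real.sqrt 2 * (C + 1))⁻¹ with hc
  have hcpos : 0 < c := by rw [hc]; positivity
  refine ⟨c • v0, ?_, ?_, ?_⟩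
  · rw [Matrix.det_smul]
    exact mul_ne_zero (pow_ne_zero _ hcpos.ne') hdpos.ne'
  · have e1 : {x : Fin n → ℝ | (c • v0).mulVec x ∈ K} = {x | v0.mulVec ((1 / Real.sqrt 2) • x) ∈ K'} := by
      ext x
      simp only [Set.mem_ofPred_eq, hK']
      rw [Matrix.mulVec_smul, Matrix.smul_mulVec, smul_smul, hc, mul_inv, one_div]
      rw [mul_comm (Real.sqrt 2)⁻¹]
    rw [e1]
    refine le_trans ?_ hfin
    have e2 : p ^ 2 = (1 / 4) * Real.exp (-(5 * δ) * n) := by
      rw [hp, hq2, mul_pow, div_pow, ← Real.exp_nat_mul, ← Real.exp_nat_mul, div_mul_eq_mul_div, ← Real.exp_add]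
      rw [show (2 : ℝ) ^ 2 = 4 by norm_num]
      rw [show ((2 : ℕ) : ℝ) * (-(3 / 2 * δ) * n) + ((2 : ℕ) : ℝ) * (-δ * n) = -(5 * δ) * n by push_cast; ring]
      ring
    rw [e2]
    have e3 : Real.exp (-(8 * δ) * n) = Real.exp (-(3 * (δ * n))) * Real.exp (-(5 * δ) * n) := by
      rw [← Real.exp_add]; congr 1; ring
    rw [e3]
    apply mul_le_mul_of_nonneg_right _ (Real.exp_pos _).le
    have e4 : Real.exp (-(3 * (δ * n))) ≤ Real.exp (-3) := Real.exp_le_exp.mpr (by linarith)
    have e5 : Real.exp (-3) ≤ 1 / 4 := by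
      rw [Real.exp_neg]
      have : (4 : ℝ) ≤ Real.exp 3 := by linarith [Real.add_one_le_exp (3 : ℝ)]
      calc (Real.exp 3)⁻¹ ≤ 4⁻¹ := inv_anti₀ (by norm_num) this
        _ = 1 / 4 := by norm_num
    linarith
  · rw [Matrix.det_smul, abs_mul, abs_of_pos (pow_pos hcpos _), abs_of_pos hdpos,
      Real.log_mul (pow_ne_zero _ hcpos.ne') hdpos.ne', Real.log_pow, Fintype.card_fin, hc, Real.log_inv]
    rw [hdet0, Real.log_prod (fun i _ => (mul_pos (div_pos (hrpos i) hΛpos) (hD i)).ne')]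
    have e1 : ∀ i, Real.log (r i / Λ * D i) = (1 / (m : ℝ)) * (Real.log η - Real.log (w i)) - Real.log Λ + Real.log (D i) := by
      intro i
      rw [Real.log_mul (div_pos (hrpos i) hΛpos).ne' (hD i).ne', Real.log_div (hrpos i).ne' hΛpos.ne']
      simp only [hr]
      rw [Real.log_rpow (hηw i), Real.log_div hηpos.ne' (hwpos i).ne']
    rw [Finset.sum_congr rfl (fun i _ => e1 i)]
    rw [Finset.sum_add_distrib, Finset.sum_sub_distrib, ← Finset.mul_sum, Finset.sum_sub_distrib]
    simp only [Finset.sum_const, Finset.card_univ, Fintype.card_fin, nsmul_eq_mul]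
    have e2 : Real.log η = - (1 / 2) * Real.log (1 / δ) - Real.log (7 * (C + 1)) := by
      have hld : Real.log (1 / δ) = - Real.log δ := by
        rw [Real.log_div one_ne_zero hδ0.ne', Real.log_one]; ring
      rw [hη, Real.log_div (Real.sqrt_pos.mpr hδ0).ne' (by positivity), Real.log_sqrt hδ0.le, hld]; ring
    rw [e2]
    have hL0 : 0 ≤ Real.log (1 / δ) := Real.log_nonneg (by rw [le_div_iff₀ hδ0]; linarith)
    have h1 : (n : ℝ) * Real.log Λ ≤ n * ((1 / (4 * m : ℝ)) * Real.log (1 / δ) + (Real.log (4 * m) + 1)) :=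
      mul_le_mul_of_nonneg_left hΛlog hn0
    have h2 : (n : ℝ) * ((1 / (m : ℝ)) * Real.log (1 / δ)) = 
        n * ((1 / (m : ℝ)) * ((1 / 2) * Real.log (1 / δ))) + n * ((1 / (4 * m : ℝ)) * Real.log (1 / δ)) +
        n * ((1 / (4 * m : ℝ)) * Real.log (1 / δ)) := by
      field_simp; ring
    have h3 : 0 ≤ n * ((1 / (4 * m : ℝ)) * Real.log (1 / δ)) := by positivity
    set X := ∑ i, Real.log (w i)
    set Y := ∑ j, Real.log (D j)
    have e5 : (1 / (m : ℝ)) * (n * (-(1 / 2) * Real.log (1 / δ) - Real.log (7 * (C + 1))) - X) =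
      - (n * ((1 / (m : ℝ)) * ((1 / 2) * Real.log (1 / δ)))) - n * ((1 / (m : ℝ)) * Real.log (7 * (C + 1))) - (1 / (m : ℝ)) * X := by
      ring
    rw [e5]
    have e6 : (1 - 1 / (m : ℝ)) * X = X - (1 / (m : ℝ)) * X := by ring
    rw [e6]
    have h4 : X - 6 * n ≤ Y := hlogD
    nlinarith

end Pool.Agent.Helper42.Pis
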