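import Mathlib

set_option autoImplicit false

open Finset

namespace Pool.Agent.Helper42.Pis

/-- Singular value decomposition of an invertible real matrix with decreasing singular values. -/
theorem svd {n : ℕ} (M : Matrix (Fin n) (Fin n) ℝ) (hM : M.det ≠ 0) :
    ∃ (U V : Matrix (Fin n) (Fin n) ℝ) (σ : Fin n → ℝ), U.transpose * U = 1 ∧ V.transpose * V = 1 ∧
      (∀ i, 0 < σ i) ∧ (∀ i j, i ≤ j → σ j ≤ σ i) ∧ M = U * Matrix.diagonal σ * V := by
  have hPD : (M * M.conjTranspose).PosDef := by
    have h1 := Matrix.PosDef.conjTranspose_mul_self (M.conjTranspose) (by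
      have : IsUnit (M.conjTranspose) := by
        rw [Matrix.isUnit_iff_isUnit_det, Matrix.det_conjTranspose]
        simpa using hM
      exact Matrix.mulVec_injective_of_isUnit this)
    rwa [Matrix.conjTranspose_conjTranspose] at h1
  have hH := hPD.isHermitian
  set W : Matrix (Fin n) (Fin n) ℝ := (hH.eigenvectorUnitary : Matrix (Fin n) (Fin n) ℝ) with hW
  set lam := hH.eigenvalues with hlam
  have hlpos : ∀ i, 0 < lam i := hPD.eigenvalues_pos
  have hWt : W.transpose * W = 1 := by
    have := Matrix.UnitaryGroup.star_mul_self hH.eigenvectorUnitary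
    simpa [hW, Matrix.star_eq_conjTranspose] using this
  have hspec : M * M.transpose = W * Matrix.diagonal lam * W.transpose := by
    have h := hH.spectral_theorem
    rw [Unitary.conjStarAlgAut_apply] at h
    have hct : M.conjTranspose = M.transpose := by ext i j; simp
    have h2 : star (hH.eigenvectorUnitary : Matrix (Fin n) (Fin n) ℝ) = W.transpose := by
      rw [Matrix.star_eq_conjTranspose]; ext i j; simp [hW]
    have h3 : (RCLike.ofReal ∘ hH.eigenvalues : Fin n → ℝ) = lam := by funext i; simp [hlam]
    rw [h3, h2] at h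
    rw [← hct]
    exact h
  -- sort
  set π := Tuple.sort (fun i => - lam i) with hπ
  have hmono := Tuple.monotone_sort (fun i => - lam i)
  set U := W.submatrix id π with hU
  set μ : Fin n → ℝ := lam ∘ π with hμ
  have hμpos : ∀ i, 0 < μ i := fun i => hlpos _
  have hUt : U.transpose * U = 1 := by
    rw [hU, Matrix.transpose_submatrix]
    have := Matrix.submatrix_mul_equiv W.transpose W π (Equiv.refl _) π
    simp only [Equiv.coe_refl] at this
    rw [this, hWt, Matrix.submatrix_one_equiv]
  have hUU : U * U.transpose = 1 := mul_eq_one_comm.mp hUt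
  have hspec2 : M * M.transpose = U * Matrix.diagonal μ * U.transpose := by
    rw [hU, hμ, Matrix.transpose_submatrix, ← Matrix.submatrix_diagonal_equiv,
      Matrix.submatrix_mul_equiv, Matrix.submatrix_mul_equiv, ← hspec]
    rfl
  set σ : Fin n → ℝ := fun i => Real.sqrt (μ i) with hσ
  have hσpos : ∀ i, 0 < σ i := fun i => Real.sqrt_pos.mpr (hμpos i)
  set V := Matrix.diagonal (fun i => (σ i)⁻¹) * U.transpose * M with hV
  have hVV : V * V.transpose = 1 := by
    rw [hV, Matrix.transpose_mul, Matrix.transpose_mul, Matrix.diagonal_transpose, Matrix.transpose_transpose]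
    calc Matrix.diagonal (fun i => (σ i)⁻¹) * U.transpose * M * (M.transpose * (U * Matrix.diagonal fun i => (σ i)⁻¹))
        = Matrix.diagonal (fun i => (σ i)⁻¹) * U.transpose * (M * M.transpose) * (U * Matrix.diagonal fun i => (σ i)⁻¹) := by
          simp only [Matrix.mul_assoc]
      _ = Matrix.diagonal (fun i => (σ i)⁻¹) * (U.transpose * U) * Matrix.diagonal μ * (U.transpose * U) * Matrix.diagonal (fun i => (σ i)⁻¹) := by
          rw [hspec2]; simp only [Matrix.mul_assoc]
      _ = 1 := by
          rw [hUt, Matrix.mul_one, Matrix.mul_one, Matrix.diagonal_mul_diagonal, Matrix.diagonal_mul_diagonal]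
          rw [← Matrix.diagonal_one]
          congr 1
          funext i
          have h1 : μ i = σ i * σ i := (Real.mul_self_sqrt (hμpos i).le).symm
          rw [h1]
          have := (hσpos i).ne'
          field_simp
  refine ⟨U, V, σ, hUt, mul_eq_one_comm.mp hVV, hσpos, ?_, ?_⟩
  · intro i j hij
    apply Real.sqrt_le_sqrt
    have := hmono hij
    simp only [Function.comp] at this
    simp only [hμ, Function.comp]
    linarith
  · rw [hV]
    calc M = (U * U.transpose) * M := by rw [hUU, Matrix.one_mul]
      _ = U * (Matrix.diagonal σ * Matrix.diagonal (fun i => (σ i)⁻¹)) * U.transpose * M := by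
          rw [Matrix.diagonal_mul_diagonal]
          have : (fun i => σ i * (σ i)⁻¹) = fun _ => (1 : ℝ) := by
            funext i; exact mul_inv_cancel₀ (hσpos i).ne'
          rw [this, Matrix.diagonal_one, Matrix.mul_one]
      _ = U * Matrix.diagonal σ * (Matrix.diagonal (fun i => (σ i)⁻¹) * U.transpose * M) := by
          simp only [Matrix.mul_assoc]

end Pool.Agent.Helper42.Pis
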