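import Mathlib
import Pool.Agent.Helper42.Pis.StarC
import Pool.Agent.Helper42.Pis.Svd

set_option autoImplicit false

open Finset MeasureTheory ProbabilityTheory
open scoped ENNReal

namespace Pool.Agent.Helper42.Pis

lemma Body.preimage {n : ℕ} {K : Set (Fin n → ℝ)} (hK : Body K) (A : Matrix (Fin n) (Fin n) ℝ)
    (hA : A.det ≠ 0) : Body {x | A.mulVec x ∈ K} := by
  have hcont : Continuous (fun x : Fin n → ℝ => A.mulVec x) :=
    LinearMap.continuous_of_finiteDimensional (Matrix.toLin' A)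
  refine ⟨?_, ?_, ?_, ?_, ?_⟩
  · intro x hx y hy a b ha hb hab
    simp only [Set.mem_ofPred_eq] at hx hy ⊢
    rw [Matrix.mulVec_add, Matrix.mulVec_smul, Matrix.mulVec_smul]
    exact hK.conv hx hy ha hb hab
  · intro x hx
    simp only [Set.mem_ofPred_eq] at hx ⊢
    rw [Matrix.mulVec_neg]; exact hK.symm _ hx
  · exact hK.closed.preimage hcont
  · obtain ⟨R, hR⟩ := hK.bdd.exists_norm_le
    set T := LinearMap.toContinuousLinearMap (Matrix.toLin' A⁻¹) with hT
    refine (Metric.isBounded_closedBall (x := (0 : Fin n → ℝ)) (r := ‖T‖ * R)).subset ?_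
    intro x hx
    simp only [Set.mem_ofPred_eq] at hx
    rw [mem_closedBall_zero_iff]
    have h1 : x = T (A.mulVec x) := by
      change x = A⁻¹.mulVec (A.mulVec x)
      rw [Matrix.mulVec_mulVec, Matrix.nonsing_inv_mul _ (by simpa using hA), Matrix.one_mulVec]
    rw [h1]
    exact le_trans (T.le_opNorm _) (mul_le_mul_of_nonneg_left (hR _ hx) (norm_nonneg _))
  · have h0 : A.mulVec (0 : Fin n → ℝ) = 0 := Matrix.mulVec_zero A
    have := hcont.continuousAt (x := (0 : Fin n → ℝ))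
    apply this
    change K ∈ nhds (A.mulVec (0 : Fin n → ℝ))
    rw [h0]; exact hK.nhd

lemma abs_det_one {n : ℕ} (U : Matrix (Fin n) (Fin n) ℝ) (hU : U.transpose * U = 1) : |U.det| = 1 := by
  have hdet : U.det * U.det = 1 := by
    have := congrArg Matrix.det hU
    rwa [Matrix.det_mul, Matrix.det_transpose, Matrix.det_one] at this
  have h2 : |U.det| * |U.det| = 1 := by rw [← abs_mul, hdet, abs_one]
  have h0 := abs_nonneg U.det
  nlinarith

theorem star (m : ℕ) (hm : 2 ≤ m) : ∃ C2 : ℝ, ∀ (n : ℕ) (K : Set (Fin n → ℝ)), Body K →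
    ∀ δ : ℝ, 0 < δ → δ ≤ 1 → 1 ≤ δ * n → ∀ a b : ℝ, Good K δ a → Good K 1 b →
      Good K (8 * δ) ((1 / (m : ℝ)) * a + (1 - 1 / (m : ℝ)) * b - n * ((1 / (m : ℝ)) * Real.log (1 / δ) + C2)) := by
  obtain ⟨C1, hcore⟩ := star_core m hm
  have hm' : (2 : ℝ) ≤ m := by exact_mod_cast hm
  refine ⟨C1 + 1, ?_⟩
  rintro n K hK δ hδ0 hδ1 hδn a b ⟨A, hA, hAp, hAv⟩ ⟨B, hB, hBp, hBv⟩
  have hn0 : (0 : ℝ) ≤ n := Nat.cast_nonneg _
  set M := A⁻¹ * B with hM
  have hAinv : A⁻¹.det ≠ 0 := by
    rw [Matrix.det_nonsing_inv, Ring.inverse_eq_inv]; exact inv_ne_zero hA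
  have hMdet : M.det ≠ 0 := by rw [hM, Matrix.det_mul]; exact mul_ne_zero hAinv hB
  obtain ⟨U, V, σ, hU, hV, hσ, hσanti, hMeq⟩ := svd M hMdet
  have hUdet := abs_det_one U hU
  have hVdet := abs_det_one V hV
  have hUdet0 : U.det ≠ 0 := by
    intro h; rw [h] at hUdet; simp at hUdet
  set K1 : Set (Fin n → ℝ) := {x | A.mulVec x ∈ K} with hK1
  have bK1 : Body K1 := hK.preimage A hA
  set K2 : Set (Fin n → ℝ) := {x | U.mulVec x ∈ K1} with hK2
  have bK2 : Body K2 := bK1.preimage U hUdet0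
  have hγ2 : Real.exp (-δ * n) ≤ (gm n).real K2 := by
    have : (gm n).real K2 = (gm n).real K1 := by
      rw [measureReal_def, measureReal_def, hK2, gm_rot U hU bK1.closed.measurableSet]
    rw [this]; exact hAp
  -- the second structure
  set T : Set (Fin n → ℝ) := {x | (fun i => σ i * x i) ∈ K2} with hT
  have hTm : MeasurableSet T := by
    have : Measurable (fun x : Fin n → ℝ => fun i => σ i * x i) := by fun_prop
    exact this bK2.closed.measurableSet
  have hTeq : (gm n).real T = (gm n).real {x | B.mulVec x ∈ K} := by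
    have h1 := gm_rot V hV hTm
    rw [measureReal_def, measureReal_def, ← h1]
    congr 2
    ext x
    simp only [hT, hK2, hK1, Set.mem_ofPred_eq]
    have e1 : (fun i => σ i * V.mulVec x i) = (Matrix.diagonal σ).mulVec (V.mulVec x) := by
      funext i; rw [Matrix.mulVec_diagonal]
    rw [e1, Matrix.mulVec_mulVec, Matrix.mulVec_mulVec, Matrix.mulVec_mulVec]
    have e2 : A * U * Matrix.diagonal σ * V = B := by
      rw [Matrix.mul_assoc A U, Matrix.mul_assoc A, ← hMeq, hM, ← Matrix.mul_assoc, Matrix.mul_nonsing_inv _ (by simpa using hA), Matrix.one_mul]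
    rw [e2]
  set w : Fin n → ℝ := fun i => Real.sqrt (1 + σ i ^ 2) / 2 with hw
  have hw1 : ∀ i, 1 / 2 ≤ w i := by
    intro i
    simp only [hw]
    have : 1 ≤ Real.sqrt (1 + σ i ^ 2) := by
      rw [Real.one_le_sqrt]; have := sq_nonneg (σ i); linarith
    linarith
  have hw2 : ∀ i j, i ≤ j → w j ≤ w i := by
    intro i j hij
    simp only [hw]
    have h1 := hσanti i j hij
    have h2 : Real.sqrt (1 + σ j ^ 2) ≤ Real.sqrt (1 + σ i ^ 2) := by
      apply Real.sqrt_le_sqrt
      have := pow_le_pow_left₀ (hσ j).le h1 2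
      linarith
    linarith
  have hw3 : ∀ i, σ i / 2 ≤ w i := by
    intro i
    simp only [hw]
    have : σ i ≤ Real.sqrt (1 + σ i ^ 2) := by
      apply Real.le_sqrt_of_sq_le; linarith
    linarith
  have hPw : Real.exp (-2 * n) ≤ (gm n).real {x | (fun i => w i * x i) ∈ K2} := by
    have h1 := combine_diag (1 : Matrix (Fin n) (Fin n) ℝ) σ bK2.conv bK2.closed.measurableSet
    simp only [Matrix.one_mulVec] at h1
    have h2 : {x : Fin n → ℝ | x ∈ K2} = K2 := rfl
    rw [h2] at h1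
    refine le_trans ?_ h1
    have h3 : (gm n).real {x : Fin n → ℝ | (fun i => σ i * x i) ∈ K2} = (gm n).real T := rfl
    rw [h3, hTeq]
    have h4 : Real.exp (-2 * n) = Real.exp (-1 * n) * Real.exp (-1 * n) := by
      rw [← Real.exp_add]; congr 1; ring
    rw [h4]
    apply mul_le_mul _ hBp (Real.exp_pos _).le measureReal_nonneg
    refine le_trans ?_ hγ2
    apply Real.exp_le_exp.mpr
    nlinarith
  obtain ⟨v, hv0, hvp, hvlog⟩ := hcore n K2 bK2 w hw1 hw2 δ hδ0 hδ1 hδn hγ2 hPw
  refine ⟨A * U * v, ?_, ?_, ?_⟩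
  · rw [Matrix.det_mul, Matrix.det_mul]
    exact mul_ne_zero (mul_ne_zero hA hUdet0) hv0
  · have e1 : {x : Fin n → ℝ | (A * U * v).mulVec x ∈ K} = {x | v.mulVec x ∈ K2} := by
      ext x
      simp only [hK2, hK1, Set.mem_ofPred_eq]
      rw [Matrix.mulVec_mulVec, Matrix.mulVec_mulVec, Matrix.mul_assoc]
    rw [e1]; exact hvp
  · rw [Matrix.det_mul, Matrix.det_mul, abs_mul, abs_mul, hUdet, mul_one,
      Real.log_mul (abs_ne_zero.mpr hA) (abs_ne_zero.mpr hv0)]
    have hlogw : Real.log |B.det| - Real.log |A.det| - n * Real.log 2 ≤ ∑ i, Real.log (w i) := by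
      have e1 : |M.det| = ∏ i, σ i := by
        rw [hMeq, Matrix.det_mul, Matrix.det_mul, abs_mul, abs_mul, hUdet, hVdet, one_mul, mul_one,
          Matrix.det_diagonal, abs_of_pos (Finset.prod_pos (fun i _ => hσ i))]
      have e2 : |M.det| = |A.det|⁻¹ * |B.det| := by
        rw [hM, Matrix.det_mul, Matrix.det_nonsing_inv, Ring.inverse_eq_inv, abs_mul, abs_inv]
      have e3 : Real.log |B.det| - Real.log |A.det| = ∑ i, Real.log (σ i) := by
        rw [← Real.log_prod (fun i _ => (hσ i).ne'), ← e1, e2,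
          Real.log_mul (inv_ne_zero (abs_ne_zero.mpr hA)) (abs_ne_zero.mpr hB), Real.log_inv]
        ring
      rw [e3]
      have e4 : ∑ i, Real.log (σ i) - n * Real.log 2 = ∑ i : Fin n, (Real.log (σ i) - Real.log 2) := by
        rw [Finset.sum_sub_distrib]; simp
      rw [e4]
      refine Finset.sum_le_sum (fun i _ => ?_)
      rw [← Real.log_div (hσ i).ne' (by norm_num)]
      exact Real.log_le_log (by have := hσ i; positivity) (hw3 i)
    have hm1 : 0 ≤ 1 - 1 / (m : ℝ) := by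
      rw [sub_nonneg, div_le_one (by positivity)]; linarith
    have hm2 : 0 ≤ 1 / (m : ℝ) := by positivity
    have hm3 : 1 - 1 / (m : ℝ) ≤ 1 := by linarith
    have h5 := mul_le_mul_of_nonneg_left hlogw hm1
    have hl2 : Real.log 2 ≤ 1 := by have := Real.log_two_lt_d9; linarith
    have hl20 : 0 ≤ Real.log 2 := Real.log_nonneg (by norm_num)
    have h6 : (1 - 1 / (m : ℝ)) * (n * Real.log 2) ≤ n := by
      calc (1 - 1 / (m : ℝ)) * (n * Real.log 2) ≤ 1 * (n * 1) := by
            apply mul_le_mul hm3 _ (by positivity) (by norm_num)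
            exact mul_le_mul_of_nonneg_left hl2 hn0
        _ = n := by ring
    have h7 := mul_le_mul_of_nonneg_left hAv hm2
    have h8 := mul_le_mul_of_nonneg_left hBv hm1
    have h9 : (1 - 1 / (m : ℝ)) * (Real.log |B.det| - Real.log |A.det| - n * Real.log 2) =
      (1 - 1 / (m : ℝ)) * Real.log |B.det| - Real.log |A.det| + (1 / (m : ℝ)) * Real.log |A.det| -
        (1 - 1 / (m : ℝ)) * (n * Real.log 2) := by ring
    rw [h9] at h5
    have h10 : (n : ℝ) * ((1 / (m : ℝ)) * Real.log (1 / δ) + (C1 + 1)) =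
      n * ((1 / (m : ℝ)) * Real.log (1 / δ) + C1) + n := by ring
    rw [h10]
    linarith

end Pool.Agent.Helper42.Pis
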