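import Mathlib
import Pool.Agent.Helper42.Pis.StarD
import Pool.Agent.Helper42.Pis.Seed
import Pool.Agent.Helper42.Pis.Reduction

set_option autoImplicit false

open Finset MeasureTheory ProbabilityTheory
open scoped ENNReal

namespace Pool.Agent.Helper42.Pis

lemma Good.mono_delta {n : ℕ} {K : Set (Fin n → ℝ)} {δ δ' v : ℝ} (h : δ ≤ δ') (hG : Good K δ v) :
    Good K δ' v := by
  obtain ⟨A, h1, h2, h3⟩ := hG
  refine ⟨A, h1, le_trans (Real.exp_le_exp.mpr ?_) h2, h3⟩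
  have : (0 : ℝ) ≤ n := Nat.cast_nonneg _
  nlinarith

lemma Good.mono_v {n : ℕ} {K : Set (Fin n → ℝ)} {δ v v' : ℝ} (h : v' ≤ v) (hG : Good K δ v) :
    Good K δ v' := by
  obtain ⟨A, h1, h2, h3⟩ := hG
  exact ⟨A, h1, h2, le_trans h h3⟩

/-- The recursion from the seed. -/
theorem recursion (m : ℕ) (hm : 2 ≤ m) : ∃ C3 : ℝ, ∀ (n : ℕ) (K : Set (Fin n → ℝ)), 1 ≤ n → Body K →
    ∀ b : ℝ, Good K 1 b → ∀ j : ℕ, (8 : ℝ) ^ j ≤ n →
      Good K ((8 : ℝ) ^ j / n) (b - n * ((1 / (m : ℝ)) ^ j * Real.log (6 * n) +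
        (2 / (m : ℝ)) * (Real.log n - j * Real.log 8) + C3)) := by
  obtain ⟨C2, hstar⟩ := star m hm
  have hm' : (2 : ℝ) ≤ m := by exact_mod_cast hm
  have hl8 : 0 ≤ Real.log 8 := Real.log_nonneg (by norm_num)
  set C3 := 2 * (|C2| + Real.log 8) with hC3
  have hC30 : 0 ≤ C3 := by rw [hC3]; positivity
  refine ⟨C3, ?_⟩
  intro n K hn hK b hb j
  have hn' : (1 : ℝ) ≤ n := by exact_mod_cast hn
  have hn0 : (0 : ℝ) < n := by linarith
  induction j with
  | zero =>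
    intro _
    have h1 := seed hn hK hb
    simp only [pow_zero, one_mul, Nat.cast_zero, zero_mul, sub_zero]
    refine h1.mono_v ?_
    have h2 : 0 ≤ Real.log n := Real.log_nonneg hn'
    have h3 : Real.log (6 * n) ≤ Real.log (6 * n) + 2 / (m : ℝ) * Real.log n + C3 := by
      have : 0 ≤ 2 / (m : ℝ) * Real.log n := by positivity
      linarith
    have := mul_le_mul_of_nonneg_left h3 hn0.le
    linarith
  | succ j ih =>
    intro hj
    have hj' : (8 : ℝ) ^ j ≤ n := by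
      refine le_trans ?_ hj
      rw [pow_succ]
      have : (0 : ℝ) < 8 ^ j := by positivity
      linarith
    have h1 := ih hj'
    set δ := (8 : ℝ) ^ j / n with hδ
    have h8j : (1 : ℝ) ≤ 8 ^ j := one_le_pow₀ (by norm_num)
    have hδ0 : 0 < δ := by rw [hδ]; positivity
    have hδ1 : δ ≤ 1 := by rw [hδ, div_le_one hn0]; exact hj'
    have hδn : 1 ≤ δ * n := by rw [hδ, div_mul_cancel₀ _ hn0.ne']; exact h8j
    have h2 := hstar n K hK δ hδ0 hδ1 hδn _ b h1 hb
    have e1 : (8 : ℝ) ^ (j + 1) / n = 8 * δ := by rw [hδ, pow_succ]; ring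
    rw [e1]
    refine h2.mono_v ?_
    have e2 : Real.log (1 / δ) = Real.log n - j * Real.log 8 := by
      rw [hδ, one_div, inv_div, Real.log_div hn0.ne' (by positivity), Real.log_pow]
    rw [e2]
    set x := Real.log n - j * Real.log 8 with hx
    have hx0 : 0 ≤ x := by
      have := Real.log_le_log (by positivity) hj'
      rw [Real.log_pow] at this
      linarith
    set L := Real.log (6 * n) with hL
    have e3 : Real.log n - ((j + 1 : ℕ) : ℝ) * Real.log 8 = x - Real.log 8 := by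
      rw [hx]; push_cast; ring
    rw [e3]
    have e4 : (1 / (m : ℝ)) * (b - n * ((1 / (m : ℝ)) ^ j * L + 2 / (m : ℝ) * x + C3)) +
        (1 - 1 / (m : ℝ)) * b - n * ((1 / (m : ℝ)) * x + C2) =
        b - n * ((1 / (m : ℝ)) ^ (j + 1) * L + (1 / (m : ℝ)) * (2 / (m : ℝ) * x) + (1 / (m : ℝ)) * C3
          + (1 / (m : ℝ)) * x + C2) := by
      rw [pow_succ]; ring
    rw [e4]
    have hm1 : 1 / (m : ℝ) ≤ 1 / 2 := by
      apply div_le_div_of_nonneg_left (by norm_num) (by norm_num) hm'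
    have hm0 : 0 ≤ 1 / (m : ℝ) := by positivity
    have h5 : (1 / (m : ℝ)) * (2 / (m : ℝ) * x) + (1 / (m : ℝ)) * C3 + (1 / (m : ℝ)) * x + C2 ≤
        2 / (m : ℝ) * (x - Real.log 8) + C3 := by
      have a1 : (1 / (m : ℝ)) * (2 / (m : ℝ) * x) ≤ (1 / 2) * (2 / (m : ℝ) * x) :=
        mul_le_mul_of_nonneg_right hm1 (by positivity)
      have a2 : (1 / (m : ℝ)) * C3 ≤ (1 / 2) * C3 := mul_le_mul_of_nonneg_right hm1 hC30
      have a3 : 2 / (m : ℝ) * Real.log 8 ≤ 1 * Real.log 8 := by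
        apply mul_le_mul_of_nonneg_right _ hl8
        rw [div_le_one (by positivity)]; exact hm'
      have a4 : C2 ≤ |C2| := le_abs_self _
      have a5 : (1 / 2) * (2 / (m : ℝ) * x) + (1 / (m : ℝ)) * x = 2 / (m : ℝ) * x := by ring
      have a6 : 2 / (m : ℝ) * (x - Real.log 8) = 2 / (m : ℝ) * x - 2 / (m : ℝ) * Real.log 8 := by ring
      rw [a6]
      linarith
    have h6 := mul_le_mul_of_nonneg_left h5 hn0.le
    nlinarith

/-- Consequence: no big loss of determinant down to level `δ`. -/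
theorem regular (m : ℕ) (hm : 2 ≤ m) : ∃ C4 : ℝ, ∀ (n : ℕ) (K : Set (Fin n → ℝ)), 1 ≤ n → Body K →
    ∀ b : ℝ, Good K 1 b → ∀ δ : ℝ, δ ≤ 1 → 8 ≤ δ * n →
      Good K δ (b - n * ((3 / (m : ℝ)) * Real.log (1 / δ) + C4)) := by
  obtain ⟨C3, hrec⟩ := recursion m hm
  have hm' : (2 : ℝ) ≤ m := by exact_mod_cast hm
  have hm0 : (0 : ℝ) < m := by linarith
  have hl8 : 0 ≤ Real.log 8 := Real.log_nonneg (by norm_num)
  refine ⟨C3 + Real.log 6 + 3 * Real.log 8 + Real.log 8, ?_⟩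
  intro n K hn hK b hb δ hδ1 hδn
  have hn' : (1 : ℝ) ≤ n := by exact_mod_cast hn
  have hn0 : (0 : ℝ) < n := by linarith
  have hδ0 : 0 < δ := by
    by_contra h
    push Not at h
    have : δ * n ≤ 0 := mul_nonpos_of_nonpos_of_nonneg h hn0.le
    linarith
  -- choose j
  obtain ⟨j, hj1, hj2⟩ : ∃ j : ℕ, (8 : ℝ) ^ j ≤ δ * n ∧ δ * n < 8 ^ (j + 1) :=
    exists_nat_pow_near (by linarith) (by norm_num)
  have hjn : (8 : ℝ) ^ j ≤ n := le_trans hj1 (by nlinarith)
  have hj0 : 1 ≤ j := by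
    by_contra h
    have : j = 0 := by omega
    subst this
    norm_num at hj2
    linarith
  have h1 := hrec n K hn hK b hb j hjn
  have h2 : (8 : ℝ) ^ j / n ≤ δ := by rw [div_le_iff₀ hn0]; exact hj1
  refine (h1.mono_delta h2).mono_v ?_
  set ℓ := Real.log (1 / δ) with hℓ
  have hℓ0 : 0 ≤ ℓ := Real.log_nonneg (by rw [le_div_iff₀ hδ0]; linarith)
  have hx : Real.log n - j * Real.log 8 ≤ ℓ + Real.log 8 := by
    have h3 : Real.log (δ * n) ≤ Real.log (8 ^ (j + 1)) := Real.log_le_log (by linarith) hj2.le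
    rw [Real.log_mul hδ0.ne' hn0.ne', Real.log_pow] at h3
    have h4 : ℓ = - Real.log δ := by rw [hℓ, Real.log_div one_ne_zero hδ0.ne', Real.log_one]; ring
    push_cast at h3
    rw [h4]; linarith
  have hpow : (1 / (m : ℝ)) ^ j ≤ 1 / m := by
    have : (1 / (m : ℝ)) ^ j ≤ (1 / (m : ℝ)) ^ 1 := by
      apply pow_le_pow_of_le_one (by positivity) _ hj0
      rw [div_le_one hm0]; linarith
    simpa using this
  have hpow0 : 0 ≤ (1 / (m : ℝ)) ^ j := by positivity
  have hpowj : (1 / (m : ℝ)) ^ j * j ≤ 1 := by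
    rw [one_div, inv_pow, inv_mul_le_iff₀ (by positivity), mul_one]
    have h3 : (j : ℝ) ≤ 2 ^ j := by exact_mod_cast (Nat.lt_two_pow_self (n := j)).le
    exact le_trans h3 (pow_le_pow_left₀ (by norm_num) hm' j)
  have hL : Real.log (6 * n) ≤ Real.log 6 + (ℓ + Real.log 8) + j * Real.log 8 := by
    rw [Real.log_mul (by norm_num) hn0.ne']; linarith
  have hl6 : 0 ≤ Real.log 6 := Real.log_nonneg (by norm_num)
  have h5 : (1 / (m : ℝ)) ^ j * Real.log (6 * n) ≤ Real.log 6 + (1 / (m : ℝ)) * (ℓ + Real.log 8) + Real.log 8 := by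
    calc (1 / (m : ℝ)) ^ j * Real.log (6 * n)
        ≤ (1 / (m : ℝ)) ^ j * (Real.log 6 + (ℓ + Real.log 8) + j * Real.log 8) :=
          mul_le_mul_of_nonneg_left hL hpow0
      _ = (1 / (m : ℝ)) ^ j * Real.log 6 + (1 / (m : ℝ)) ^ j * (ℓ + Real.log 8) + ((1 / (m : ℝ)) ^ j * j) * Real.log 8 := by ring
      _ ≤ 1 * Real.log 6 + (1 / (m : ℝ)) * (ℓ + Real.log 8) + 1 * Real.log 8 := by
          refine add_le_add (add_le_add ?_ ?_) ?_
          · apply mul_le_mul_of_nonneg_right _ hl6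
            refine le_trans hpow ?_
            rw [div_le_one hm0]; linarith
          · exact mul_le_mul_of_nonneg_right hpow (by positivity)
          · exact mul_le_mul_of_nonneg_right hpowj hl8
      _ = _ := by ring
  have h6 : (2 / (m : ℝ)) * (Real.log n - j * Real.log 8) ≤ (2 / (m : ℝ)) * (ℓ + Real.log 8) :=
    mul_le_mul_of_nonneg_left hx (by positivity)
  have h7 : (1 / (m : ℝ)) * (ℓ + Real.log 8) + (2 / (m : ℝ)) * (ℓ + Real.log 8) = (3 / (m : ℝ)) * ℓ + (3 / (m : ℝ)) * Real.log 8 := by ring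
  have h8 : (3 / (m : ℝ)) * Real.log 8 ≤ 3 * Real.log 8 := by
    apply mul_le_mul_of_nonneg_right _ hl8
    apply div_le_self (by norm_num); linarith
  have h9 : (1 / (m : ℝ)) ^ j * Real.log (6 * n) + (2 / (m : ℝ)) * (Real.log n - j * Real.log 8) + C3 ≤
      (3 / (m : ℝ)) * ℓ + (C3 + Real.log 6 + 3 * Real.log 8 + Real.log 8) := by linarith
  have h10 := mul_le_mul_of_nonneg_left h9 hn0.le
  linarith

lemma final_numeric {ℓ lM l2 ld0 C4 t θ : ℝ} (hlM : 0 < lM) (hl2 : 0 < l2) (hθ : θ ≤ l2 / (2 * lM))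
    (hℓ : 0 ≤ ℓ) (h5 : t * l2 ≤ θ * ℓ + C4 + 1) (ht : ld0 + ℓ ≤ (t + 1) * lM) :
    ℓ ≤ (2 * lM / l2) * (|C4| + 2 + l2 + (l2 / lM) * |ld0|) := by
  have h8 : θ * ℓ ≤ l2 / (2 * lM) * ℓ := mul_le_mul_of_nonneg_right hθ hℓ
  have h9 : (l2 / lM) * (ld0 + ℓ) ≤ (t + 1) * l2 := by
    calc (l2 / lM) * (ld0 + ℓ) ≤ (l2 / lM) * ((t + 1) * lM) :=
          mul_le_mul_of_nonneg_left ht (by positivity)
      _ = (t + 1) * l2 := by field_simp
  have a1 : l2 / (2 * lM) * ℓ = (l2 / lM) * ℓ - l2 / (2 * lM) * ℓ := by field_simp; ring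
  have a2 : C4 ≤ |C4| := le_abs_self _
  have a3 : -((l2 / lM) * |ld0|) ≤ (l2 / lM) * ld0 := by
    rw [← mul_neg]
    exact mul_le_mul_of_nonneg_left (neg_abs_le _) (by positivity)
  have a4 : (l2 / lM) * (ld0 + ℓ) = (l2 / lM) * ld0 + (l2 / lM) * ℓ := by ring
  have a5 : (t + 1) * l2 = t * l2 + l2 := by ring
  have h10 : l2 / (2 * lM) * ℓ ≤ |C4| + 2 + l2 + (l2 / lM) * |ld0| := by
    rw [a1]
    linarith
  have a6 : ℓ = (2 * lM / l2) * (l2 / (2 * lM) * ℓ) := by field_simp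
  rw [a6]
  exact mul_le_mul_of_nonneg_left h10 (by positivity)

theorem main_gauss (k : ℕ) (hk1 : 1 ≤ k) : ∃ δ1 : ℝ, 0 < δ1 ∧
    ∀ (n N : ℕ) (p : (Fin n → ℝ) → ℝ) (y : Fin (2 * N) → (Fin n → ℝ) →ₗ[ℝ] ℝ),
      Norming (2 * N) p y → Cot k p → (∀ v, p v ≤ 0 → v = 0) → n ≤ N → Real.exp 8 ≤ n →
      δ1 * n ≤ Real.log (2 * N) := by
  obtain ⟨Mc0, hMc0, δ00, hδ00, hstep0⟩ := cot_step k hk1
  -- normalise the constants
  set Mc := Mc0 + 1 with hMc
  have hMc1 : 2 ≤ Mc := by linarith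
  set δ0 := min δ00 (1 / Mc) with hδ0def
  have hMcpos : 0 < Mc := by linarith
  have hδ0 : 0 < δ0 := lt_min hδ00 (by positivity)
  have hlogMc : 0 < Real.log Mc := Real.log_pos (by linarith)
  have hlog2 : 0 < Real.log 2 := Real.log_pos (by norm_num)
  obtain ⟨m, hm2, hm3⟩ : ∃ m : ℕ, 2 ≤ m ∧ 3 / (m : ℝ) ≤ Real.log 2 / (2 * Real.log Mc) := by
    obtain ⟨m0, hm0⟩ := exists_nat_ge (6 * Real.log Mc / Real.log 2)
    refine ⟨m0 + 2, by omega, ?_⟩
    push_cast
    rw [div_le_div_iff₀ (by positivity) (by positivity)]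
    rw [div_le_iff₀ hlog2] at hm0
    nlinarith
  obtain ⟨C4, hreg⟩ := regular m hm2
  -- the threshold
  set C6 := (2 * Real.log Mc / Real.log 2) * (|C4| + 2 + Real.log 2 + (Real.log 2 / Real.log Mc) * |Real.log δ0|) with hC6
  refine ⟨min δ0 (Real.exp (-C6)) / 2, by positivity, ?_⟩
  intro n N p y hp hcot hdef hnN hn8
  have hn0 : (0 : ℝ) < n := lt_of_lt_of_le (Real.exp_pos _) hn8
  have hn1 : 1 ≤ n := by
    have : 0 < n := by exact_mod_cast hn0
    omega
  have hn1' : (1 : ℝ) ≤ n := by exact_mod_cast hn1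
  have hNn : (n : ℝ) ≤ N := by exact_mod_cast hnN
  have hN0 : (0 : ℝ) < N := lt_of_lt_of_le hn0 hNn
  by_contra hcon
  push Not at hcon
  set δ := Real.log (2 * N) / n with hδ
  have hδn : δ * n = Real.log (2 * N) := by rw [hδ, div_mul_cancel₀ _ hn0.ne']
  have hδ8 : 8 ≤ δ * n := by
    rw [hδn]
    rw [Real.le_log_iff_exp_le (by positivity)]
    linarith
  have hδlt : δ < min δ0 (Real.exp (-C6)) / 2 := by
    rw [hδ, div_lt_iff₀ hn0]; exact hcon
  have hδpos : 0 < δ := by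
    by_contra h
    push Not at h
    have : δ * n ≤ 0 := mul_nonpos_of_nonpos_of_nonneg h hn0.le
    linarith
  have hmin1 : min δ0 (Real.exp (-C6)) ≤ δ0 := min_le_left _ _
  have hmin2 : min δ0 (Real.exp (-C6)) ≤ Real.exp (-C6) := min_le_right _ _
  have hδδ0 : δ < δ0 := by linarith [lt_min hδ0 (Real.exp_pos (-C6))]
  have hδ01 : δ0 ≤ 1 / 2 := by
    refine le_trans (min_le_right _ _) ?_
    exact div_le_div_of_nonneg_left (by norm_num) (by norm_num) hMc1
  have hδexp : δ < Real.exp (-C6) := by linarith [lt_min hδ0 (Real.exp_pos (-C6)), Real.exp_pos (-C6)]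
  have hbody := body_of_norming hp hdef
  set K : Set (Fin n → ℝ) := {x | p x ≤ 1} with hK
  obtain ⟨⟨b0, hb0⟩, V, hV⟩ := good_bdd hn1 hbody
  -- near-optimal b
  obtain ⟨b, hb, hbmax⟩ : ∃ b, Good K 1 b ∧ ∀ b', Good K 1 b' → b' ≤ b + 1 := by
    by_contra hno
    push Not at hno
    have hind : ∀ t : ℕ, Good K 1 (b0 + t) := by
      intro t
      induction t with
      | zero => simpa using hb0
      | succ t ih =>
        obtain ⟨b', hb', hlt⟩ := hno _ ih
        refine hb'.mono_v ?_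
        push_cast; linarith
    obtain ⟨t, ht⟩ := exists_nat_gt (V - b0)
    have := hV _ (hind t)
    linarith
  have hG := hreg n K hn1 hbody b hb δ (by linarith) hδ8
  set ℓ := Real.log (1 / δ) with hℓ
  set a := b - n * ((3 / (m : ℝ)) * ℓ + C4) with ha
  -- iterate the cotype step
  have hiter : ∀ t : ℕ, Mc ^ t * δ ≤ δ0 * Mc → Good K (Mc ^ t * δ) (a + t * (n * Real.log 2)) := by
    intro t
    induction t with
    | zero => intro _; simpa using hG
    | succ t ih =>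
      intro ht
      have ht' : Mc ^ t * δ ≤ δ0 := by
        rw [pow_succ] at ht
        have : Mc * (Mc ^ t * δ) ≤ Mc * δ0 := by nlinarith
        exact le_of_mul_le_mul_left this hMcpos
      have h1 := ih (le_trans ht' (by nlinarith))
      have hpow1 : (1 : ℝ) ≤ Mc ^ t := one_le_pow₀ (by linarith)
      have h2 := hstep0 n N p y hp hcot (Mc ^ t * δ) (by
        rw [← hδn]
        nlinarith [mul_nonneg (sub_nonneg.mpr hpow1) (mul_pos hδpos hn0).le]) (le_trans ht' (min_le_left _ _)) (by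
        have : 1 * (δ * n) ≤ Mc ^ t * (δ * n) := mul_le_mul_of_nonneg_right hpow1 (by linarith)
        nlinarith) _ h1
      refine (h2.mono_delta ?_).mono_v ?_
      · have h3 : 0 ≤ Mc ^ t * δ := by positivity
        rw [pow_succ]
        have : Mc0 * (Mc ^ t * δ) ≤ Mc * (Mc ^ t * δ) := mul_le_mul_of_nonneg_right (by linarith) h3
        linarith
      · push_cast; ring_nf; exact le_refl _
  -- number of steps
  obtain ⟨t, ht1, ht2⟩ : ∃ t : ℕ, Mc ^ t ≤ δ0 / δ ∧ δ0 / δ < Mc ^ (t + 1) :=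
    exists_nat_pow_near (by rw [le_div_iff₀ hδpos]; linarith) (by linarith)
  have htδ : Mc ^ t * δ ≤ δ0 := by rwa [le_div_iff₀ hδpos] at ht1
  have hfin := hiter t (le_trans htδ (by nlinarith))
  have hfin1 : Good K 1 (a + t * (n * Real.log 2)) := hfin.mono_delta (by linarith)
  have hle := hbmax _ hfin1
  -- contradiction
  have htlog : Real.log δ0 + ℓ ≤ (t + 1) * Real.log Mc := by
    have h1 := Real.log_le_log (by positivity) ht2.le
    rw [Real.log_pow, Real.log_div hδ0.ne' hδpos.ne'] at h1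
    have h4 : ℓ = - Real.log δ := by rw [hℓ, Real.log_div one_ne_zero hδpos.ne', Real.log_one]; ring
    rw [h4]; push_cast at h1; linarith
  have hℓ0 : 0 ≤ ℓ := Real.log_nonneg (by rw [le_div_iff₀ hδpos]; linarith)
  have hℓC : C6 < ℓ := by
    have h1 := Real.log_lt_log hδpos hδexp
    rw [Real.log_exp] at h1
    have h4 : ℓ = - Real.log δ := by rw [hℓ, Real.log_div one_ne_zero hδpos.ne', Real.log_one]; ring
    rw [h4]; linarith
  have hnum := final_numeric hlogMc hlog2 hm3 hℓ0 (by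
    have h6 : (n : ℝ) * ((t : ℝ) * Real.log 2) ≤ n * ((3 / (m : ℝ)) * ℓ + C4) + 1 := by
      rw [ha] at hle; linarith
    have h7 : (n : ℝ) * ((3 / (m : ℝ)) * ℓ + C4 + 1) = n * ((3 / (m : ℝ)) * ℓ + C4) + n := by ring
    have h8 : (n : ℝ) * ((t : ℝ) * Real.log 2) ≤ n * ((3 / (m : ℝ)) * ℓ + C4 + 1) := by
      rw [h7]; linarith
    exact le_of_mul_le_mul_left h8 hn0) htlog
  linarith

end Pool.Agent.Helper42.Pis
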