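import Mathlib
import Pool.Agent.Helper42.Pis.Final

set_option autoImplicit false

open Finset MeasureTheory ProbabilityTheory

namespace Pool.Agent.Helper42.Pis

universe u

theorem pisier (q C D : ℝ) (hq : 2 ≤ q) : ∃ c : ℝ, 0 < c ∧
    ∀ (n N : ℕ) (X : Type u) [NormedAddCommGroup X] [NormedSpace ℝ X],
      2 ≤ n → Module.finrank ℝ X = n → HasCotype q C X →
      ∀ T : X →ₗ[ℝ] (Fin N → ℝ), (∀ x, ‖x‖ ≤ ‖T x‖ ∧ ‖T x‖ ≤ D * ‖x‖) →
        Real.exp (c * n) ≤ N := by
  obtain ⟨k0, hk0⟩ := exists_nat_ge ((2 * (max D 1 * |C|)) ^ q)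
  set k := k0 + 1 with hk
  have hk1 : 1 ≤ k := by omega
  obtain ⟨δ1, hδ1, hmain⟩ := main_gauss k hk1
  have hl2 : 0 < Real.log 2 := Real.log_pos (by norm_num)
  set A : ℝ := Real.exp 8 + 2 * Real.log 2 / δ1 with hA
  have hApos : 0 < A := by rw [hA]; positivity
  refine ⟨min (δ1 / 2) (Real.log 2 / A), lt_min (by positivity) (by positivity), ?_⟩
  intro n N X _ _ hn hX hC T hT
  have hn' : (2 : ℝ) ≤ n := by exact_mod_cast hn
  -- D ≥ 1
  have hD : 1 ≤ D := by
    have hnt : Nontrivial X := Module.nontrivial_of_finrank_pos (R := ℝ) (by omega)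
    obtain ⟨x, hx⟩ := exists_ne (0 : X)
    have h1 := le_trans (hT x).1 (hT x).2
    have hx' : 0 < ‖x‖ := norm_pos_iff.mpr hx
    by_contra h
    push Not at h
    nlinarith
  have hmax : max D 1 = D := max_eq_left hD
  rw [hmax] at hk0
  have hk2 : (2 * (D * |C|)) ^ q ≤ (k : ℝ) := by
    refine le_trans hk0 ?_
    rw [hk]; push_cast; linarith
  obtain ⟨hnN, p, y, hp, hcot, hdef⟩ := reduction hq hD k hk2 hk1 (by omega : 1 ≤ n) hX hC T hT
  have hNn : (n : ℝ) ≤ N := by exact_mod_cast hnN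
  have hN0 : (0 : ℝ) < N := by linarith
  by_cases hbig : A ≤ n
  · have h8 : Real.exp 8 ≤ n := by
      refine le_trans ?_ hbig
      rw [hA]
      have : 0 ≤ 2 * Real.log 2 / δ1 := by positivity
      linarith
    have h1 := hmain n N p y hp hcot hdef hnN h8
    rw [Real.log_mul (by norm_num) hN0.ne'] at h1
    have h2 : Real.log 2 ≤ δ1 / 2 * n := by
      have h3 : 2 * Real.log 2 / δ1 ≤ n := by
        refine le_trans ?_ hbig
        rw [hA]
        have := Real.exp_pos 8
        linarith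
      rw [div_le_iff₀ hδ1] at h3
      linarith
    have h4 : min (δ1 / 2) (Real.log 2 / A) * n ≤ Real.log N := by
      have h5 : min (δ1 / 2) (Real.log 2 / A) * n ≤ δ1 / 2 * n :=
        mul_le_mul_of_nonneg_right (min_le_left _ _) (by linarith)
      linarith
    calc Real.exp (min (δ1 / 2) (Real.log 2 / A) * n) ≤ Real.exp (Real.log N) := Real.exp_le_exp.mpr h4
      _ = N := Real.exp_log hN0
  · push Not at hbig
    have h5 : min (δ1 / 2) (Real.log 2 / A) * n ≤ Real.log 2 := by
      have h6 : min (δ1 / 2) (Real.log 2 / A) * n ≤ Real.log 2 / A * n :=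
        mul_le_mul_of_nonneg_right (min_le_right _ _) (by linarith)
      have h7 : Real.log 2 / A * n ≤ Real.log 2 / A * A :=
        mul_le_mul_of_nonneg_left hbig.le (by positivity)
      rw [div_mul_cancel₀ _ hApos.ne'] at h7
      linarith
    calc Real.exp (min (δ1 / 2) (Real.log 2 / A) * n) ≤ Real.exp (Real.log 2) := Real.exp_le_exp.mpr h5
      _ = 2 := Real.exp_log (by norm_num)
      _ ≤ N := by linarith

end Pool.Agent.Helper42.Pis
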